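import Mathlib

/-! Many points: definitions for the arithmetic part. -/

open Matrix NumberField
open scoped Matrix.Norms.L2Operator

namespace Pool.Agent.GR.MP

/-- The products of the sublists of a list. -/
def Mon {G : Type} [Monoid G] (L : List G) : Set G := {x | ∃ l : List G, l.Sublist L ∧ l.prod = x}

/-- Blocks put in front of each other. -/
def Dl {G : Type} (E : ℕ → List G) : ℕ → List G
  | 0 => E 0
  | j + 1 => E (j + 1) ++ Dl E j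

/-- Iterated commutators. -/
def cw {G ι : Type} [Group G] (u : ι → G) : List ι → ι → G
  | [], i => u i
  | j :: l, i => u j * cw u l i * (u j)⁻¹ * (cw u l i)⁻¹

section
variable {s : ℕ}

/-- No finite family of proper subspaces that contain units is stable under left multiplication
by the members of `A`. -/
def Esc (A : List (Matrix (Fin s) (Fin s) ℂ)ˣ) : Prop :=
  ∀ F : Finset (Submodule ℂ (Matrix (Fin s) (Fin s) ℂ)), F.Nonempty →
    (∀ W ∈ F, W ≠ ⊤ ∧ ∃ u : (Matrix (Fin s) (Fin s) ℂ)ˣ, u.val ∈ W) →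
      ∃ a ∈ A, ∃ W ∈ F, W.map (LinearMap.mulLeft ℂ a.val) ∉ F

/-- General position. -/
def GP {M : ℕ} (x : Fin M → (Matrix (Fin s) (Fin s) ℂ)ˣ) : Prop :=
  ∀ W : Submodule ℂ (Matrix (Fin s) (Fin s) ℂ), W ≠ ⊤ → ∀ T : Finset (Fin M),
    (∀ i ∈ T, (x i).val ∈ W) → T.card ≤ Module.finrank ℂ W

/-- The products of sublists span all matrices. -/
def Spans (L : List (Matrix (Fin s) (Fin s) ℂ)ˣ) : Prop :=
  Submodule.span ℂ (Units.val '' Mon L) = ⊤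

end

section
variable {n : ℕ}

/-- The Euclidean length. -/
noncomputable def nrm (v : Fin n → ℂ) : ℝ := ‖(WithLp.toLp 2 v : EuclideanSpace ℂ (Fin n))‖

/-- `T` maps `P` into the unit ball. -/
def Adm (P : Set (Fin n → ℂ)) (T : Matrix (Fin n) (Fin n) ℂ) : Prop := ∀ b ∈ P, nrm (T *ᵥ b) ≤ 1

/-- The same, with maximal determinant. -/
def IsMx (P : Set (Fin n → ℂ)) (T : Matrix (Fin n) (Fin n) ℂ) : Prop :=
  Adm P T ∧ ∀ T', Adm P T' → ‖T'.det‖ ≤ ‖T.det‖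

/-- The larger root of `x + 1 / x = 2 ρ`. -/
noncomputable def psi (ρ : ℝ) : ℝ := ρ + Real.sqrt (ρ ^ 2 - 1)

variable {K : Type} [Field K]

/-- An integral vector as a vector over the field. -/
def kv (b : Fin n → 𝓞 K) : Fin n → K := fun k => (b k : K)

/-- The ideal of the determinants. -/
def dId (P : Set (Fin n → 𝓞 K)) : Ideal (𝓞 K) :=
  Ideal.span {d | ∃ B : Matrix (Fin n) (Fin n) (𝓞 K), (∀ i, B i ∈ P) ∧ B.det = d}

/-- The lattice spanned by `P`. -/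
def lat (P : Set (Fin n → 𝓞 K)) : Submodule (𝓞 K) (Fin n → K) := Submodule.span (𝓞 K) (kv '' P)

end

/-- An increasing chain of sets of integral vectors with bounded conjugates, and matrices of finite
order that map each set into the next one. -/
structure Chain (K : Type) [Field K] (n M L : ℕ) (C : ℝ) where
  P : ℕ → Set (Fin n → 𝓞 K)
  X : ℕ → Fin M → (Matrix (Fin n) (Fin n) K)ˣ
  B0 : Matrix (Fin n) (Fin n) (𝓞 K)
  p : Fin n → 𝓞 K
  mono : Monotone P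
  bd : ∀ j ≤ L, ∀ b ∈ P j, ∀ (σ : K →+* ℂ) (k : Fin n), ‖σ (b k)‖ ≤ C
  row : ∀ i, B0 i ∈ P 0
  det : B0.det ≠ 0
  hp : p ∈ P 0
  fin : ∀ j < L, ∀ i, IsOfFinOrder (X j i)
  act : ∀ j < L, ∀ i, ∀ b ∈ P j, ∃ b' ∈ P (j + 1), (X j i).val *ᵥ kv b = kv b'

/-- The matrices `X i` are almost isometries at most places. -/
structure Iso {K : Type} [Field K] [NumberField K] {n M : ℕ}
    (X : Fin M → (Matrix (Fin n) (Fin n) K)ˣ) (p : Fin n → K) (η C : ℝ) where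
  I : Ideal (𝓞 K)
  T : (K →+* ℂ) → (Matrix (Fin n) (Fin n) ℂ)ˣ
  ψ : (K →+* ℂ) → ℝ
  Λ : Submodule (𝓞 K) (Fin n → K)
  I0 : I ≠ ⊥
  IN : Real.log (Ideal.absNorm I) ≤ η * Fintype.card (K →+* ℂ)
  ψ1 : ∀ σ, 1 ≤ ψ σ
  ψs : ∑ σ, Real.log (ψ σ) ≤ η * Fintype.card (K →+* ℂ)
  iso : ∀ σ i, ‖(T σ).val * (X i).val.map σ * ((T σ)⁻¹).val‖ ≤ ψ σ ∧
    ‖(T σ).val * ((X i)⁻¹).val.map σ * ((T σ)⁻¹).val‖ ≤ ψ σ
  inv : ∀ σ, ‖((T σ)⁻¹).val‖ ≤ C
  pt : ∀ σ, nrm ((T σ).val *ᵥ fun k => σ (p k)) ≤ 1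
  pΛ : p ∈ Λ
  int : ∀ x ∈ Λ, ∀ k, ∃ c : 𝓞 K, x k = c
  lat : ∀ i, ∀ a ∈ I, ∀ x ∈ Λ, a • ((X i).val *ᵥ x) ∈ Λ ∧ a • (((X i)⁻¹).val *ᵥ x) ∈ Λ

theorem nrm_mulVec {n : ℕ} (A : Matrix (Fin n) (Fin n) ℂ) (v : Fin n → ℂ) :
    nrm (A *ᵥ v) ≤ ‖A‖ * nrm v := A.l2_opNorm_mulVec (WithLp.toLp 2 v)

theorem le_nrm {n : ℕ} (v : Fin n → ℂ) (k : Fin n) : ‖v k‖ ≤ nrm v :=
  PiLp.norm_apply_le (WithLp.toLp 2 v : EuclideanSpace ℂ (Fin n)) k

theorem Mon.one {G : Type} [Monoid G] (L : List G) : (1 : G) ∈ Mon L :=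
  ⟨[], List.nil_sublist L, rfl⟩

theorem Mon.mul {G : Type} [Monoid G] {L L' : List G} {x y : G} (hx : x ∈ Mon L) (hy : y ∈ Mon L') :
    x * y ∈ Mon (L ++ L') := by
  obtain ⟨l, h, rfl⟩ := hx
  obtain ⟨l', h', rfl⟩ := hy
  exact ⟨l ++ l', h.append h', List.prod_append⟩

theorem Mon.mono {G : Type} [Monoid G] {L L' : List G} (h : L.Sublist L') : Mon L ⊆ Mon L' :=
  fun _ ⟨l, h1, h2⟩ => ⟨l, h1.trans h, h2⟩

theorem Mon.finite {G : Type} [Monoid G] (L : List G) : (Mon L).Finite :=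
  ((List.finite_toSet L.sublists).image List.prod).subset fun _ ⟨l, h1, h2⟩ =>
    ⟨l, List.mem_sublists.2 h1, h2⟩

theorem map_cw {G H ι : Type} [Group G] [Group H] (f : G →* H) (u : ι → G) (l : List ι) (i : ι) :
    f (cw u l i) = cw (fun j => f (u j)) l i := by
  induction l with
  | nil => rfl
  | cons j l ih => simp only [cw, map_mul, map_inv, ih]

end Pool.Agent.GR.MP
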