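import Pool.Agent.Lib.MP_aa40d3_nt.MP.Spec

/-! Ellipsoids of least volume. -/

open Matrix
open scoped Matrix.Norms.L2Operator

namespace Pool.Agent.GR.MP

variable {n : ℕ} {P P' : Set (Fin n → ℂ)}

theorem archa_entry {B T : Matrix (Fin n) (Fin n) ℂ} (hB : ∀ i, B i ∈ P) (hT : Adm P T)
    (k i : Fin n) : ‖(T * Bᵀ) k i‖ ≤ 1 := by
  have h : (T * Bᵀ) k i = (T *ᵥ B i) k := by
    simp [Matrix.mul_apply, Matrix.mulVec, dotProduct]
  rw [h]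
  exact (le_nrm _ k).trans (hT _ (hB i))

theorem archa_closed : IsClosed {T : Matrix (Fin n) (Fin n) ℂ | Adm P T} := by
  have h : {T : Matrix (Fin n) (Fin n) ℂ | Adm P T} =
      ⋂ b ∈ P, {T : Matrix (Fin n) (Fin n) ℂ | nrm (T *ᵥ b) ≤ 1} := by
    ext T
    simp [Adm]
  rw [h]
  refine isClosed_biInter fun b _ => isClosed_le ?_ continuous_const
  have h1 : Continuous fun T : Matrix (Fin n) (Fin n) ℂ => T *ᵥ b :=
    Continuous.matrix_mulVec continuous_id continuous_const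
  exact ((PiLp.continuous_toLp 2 (fun _ : Fin n => ℂ)).comp h1).norm

theorem archa_nrm_le {C : ℝ} (hC : 0 ≤ C) {b : Fin n → ℂ} (hb : ∀ k, ‖b k‖ ≤ C) :
    nrm b ≤ C * n := by
  unfold nrm
  rw [EuclideanSpace.norm_eq]
  refine Real.sqrt_le_iff.2 ⟨by positivity, ?_⟩
  have h1 : ∑ k : Fin n, ‖b k‖ ^ 2 ≤ ∑ _k : Fin n, C ^ 2 :=
    Finset.sum_le_sum fun k _ => pow_le_pow_left₀ (norm_nonneg _) (hb k) 2
  have h2 : (n : ℝ) ≤ (n : ℝ) ^ 2 := by exact_mod_cast Nat.le_self_pow two_ne_zero n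
  have h3 : ∑ _k : Fin n, C ^ 2 = n * C ^ 2 := by simp
  have h4 : (n : ℝ) * C ^ 2 ≤ (n : ℝ) ^ 2 * C ^ 2 := mul_le_mul_of_nonneg_right h2 (sq_nonneg C)
  calc ∑ k : Fin n, ‖(WithLp.toLp 2 b : EuclideanSpace ℂ (Fin n)) k‖ ^ 2
      = ∑ k : Fin n, ‖b k‖ ^ 2 := rfl
    _ ≤ (C * n) ^ 2 := by rw [mul_pow]; linarith

theorem archa_nrm_smul (c : ℂ) (b : Fin n → ℂ) : nrm (c • b) = ‖c‖ * nrm b := by
  unfold nrm
  rw [← norm_smul]
  rfl

/-- The admissible matrices form a compact set: closed, and `T * Bᵀ` has entries of size at most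
one. -/
theorem arch_ex {B : Matrix (Fin n) (Fin n) ℂ} (hB : ∀ i, B i ∈ P) (hd : B.det ≠ 0) :
    ∃ T, IsMx P T := by
  have hc : IsCompact (Set.pi Set.univ fun _ : Fin n => Set.pi Set.univ fun _ : Fin n =>
      Metric.closedBall (0 : ℂ) 1) :=
    isCompact_univ_pi fun _ => isCompact_univ_pi fun _ => isCompact_closedBall 0 1
  have hc' : IsCompact {M : Matrix (Fin n) (Fin n) ℂ | ∀ k i, ‖M k i‖ ≤ 1} := by
    have he : {M : Fin n → Fin n → ℂ | ∀ k i, ‖M k i‖ ≤ 1} =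
        Set.pi Set.univ fun _ : Fin n => Set.pi Set.univ fun _ : Fin n =>
          Metric.closedBall (0 : ℂ) 1 := by
      ext M
      simp [Set.mem_pi]
    rw [← he] at hc
    exact hc
  have hm : Continuous fun M : Matrix (Fin n) (Fin n) ℂ => M * (Bᵀ)⁻¹ :=
    Continuous.matrix_mul continuous_id continuous_const
  have hu : IsUnit (Bᵀ).det := by
    rw [Matrix.det_transpose]
    exact isUnit_iff_ne_zero.2 hd
  have hK : IsCompact {T : Matrix (Fin n) (Fin n) ℂ | Adm P T} := by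
    refine (hc'.image hm).of_isClosed_subset archa_closed fun T hT => ⟨T * Bᵀ, ?_, ?_⟩
    · exact fun k i => archa_entry hB hT k i
    · exact Matrix.mul_nonsing_inv_cancel_right _ _ hu
  have h0 : Adm P (0 : Matrix (Fin n) (Fin n) ℂ) := by
    intro b _
    rw [Matrix.zero_mulVec]
    have := archa_nrm_smul (n := n) 0 0
    rw [smul_zero, norm_zero, zero_mul] at this
    rw [this]
    exact zero_le_one
  have hdet : Continuous fun T : Matrix (Fin n) (Fin n) ℂ => ‖T.det‖ :=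
    (Continuous.matrix_det continuous_id).norm
  obtain ⟨T, hT, hmax⟩ := hK.exists_isMaxOn ⟨0, h0⟩ hdet.continuousOn
  exact ⟨T, hT, fun T' hT' => hmax hT'⟩

/-- `(C * n)⁻¹ • 1` is admissible. -/
theorem arch_low {C : ℝ} (hC : 1 ≤ C) (hP : ∀ b ∈ P, ∀ k, ‖b k‖ ≤ C)
    {T : Matrix (Fin n) (Fin n) ℂ} (hT : IsMx P T) : ((C * n)⁻¹) ^ n ≤ ‖T.det‖ := by
  have hC0 : 0 ≤ C := zero_le_one.trans hC
  have hp : 0 ≤ C * n := by positivity
  have hn : ‖(((C * n)⁻¹ : ℝ) : ℂ)‖ = (C * n)⁻¹ := by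
    rw [Complex.norm_real, Real.norm_of_nonneg (inv_nonneg.2 hp)]
  have ha : Adm P ((((C * n)⁻¹ : ℝ) : ℂ) • (1 : Matrix (Fin n) (Fin n) ℂ)) := by
    intro b hb
    rw [Matrix.smul_mulVec, Matrix.one_mulVec, archa_nrm_smul, hn]
    calc (C * n)⁻¹ * nrm b ≤ (C * n)⁻¹ * (C * n) :=
          mul_le_mul_of_nonneg_left (archa_nrm_le hC0 (hP b hb)) (inv_nonneg.2 hp)
      _ ≤ 1 := inv_mul_le_one_of_le₀ le_rfl hp
  have h := hT.2 _ ha
  rwa [Matrix.det_smul, Matrix.det_one, mul_one, norm_pow, hn, Fintype.card_fin] at h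

/-- `T * Bᵀ` has entries of size at most one (`Matrix.det_le`). -/
theorem arch_up {B T : Matrix (Fin n) (Fin n) ℂ} (hB : ∀ i, B i ∈ P) (hT : Adm P T) :
    ‖T.det‖ * ‖B.det‖ ≤ n.factorial := by
  have h := Matrix.det_le (A := T * Bᵀ) (abv := NormedField.toAbsoluteValue ℂ) (x := 1)
    fun k i => archa_entry hB hT k i
  rw [Matrix.det_mul, Matrix.det_transpose, one_pow, Fintype.card_fin, nsmul_eq_mul, mul_one] at h
  rw [← norm_mul]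
  exact h

theorem archb_nrm (v : Fin n → ℂ) : nrm v ^ 2 = ∑ k, ‖v k‖ ^ 2 :=
  EuclideanSpace.norm_sq_eq _

theorem archb_sq (T : Matrix (Fin n) (Fin n) ℂ) (b : Fin n → ℂ) :
    ((nrm (T *ᵥ b) ^ 2 : ℝ) : ℂ) = star b ⬝ᵥ (Tᴴ * T) *ᵥ b := by
  rw [← mulVec_mulVec, dotProduct_mulVec, ← star_mulVec, archb_nrm, dotProduct]
  push_cast
  exact Finset.sum_congr rfl fun k _ => (Complex.conj_mul' _).symm

open scoped ComplexOrder MatrixOrder in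
theorem archb_sqrt (T₁ T₂ : Matrix (Fin n) (Fin n) ℂ) :
    ∃ T : Matrix (Fin n) (Fin n) ℂ, Tᴴ * T = (1 / 2 : ℂ) • (T₁ᴴ * T₁ + T₂ᴴ * T₂) := by
  have h : ((1 / 2 : ℂ) • (T₁ᴴ * T₁ + T₂ᴴ * T₂)).PosSemidef :=
    ((posSemidef_conjTranspose_mul_self T₁).add (posSemidef_conjTranspose_mul_self T₂)).smul
      (by positivity)
  obtain ⟨T, hT⟩ := CStarAlgebra.nonneg_iff_eq_star_mul_self.1 h.nonneg
  exact ⟨T, hT.symm⟩

theorem archb_conj {A T₃ : Matrix (Fin n) (Fin n) ℂ} {T : (Matrix (Fin n) (Fin n) ℂ)ˣ}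
    (h : T₃ᴴ * T₃ = (1 / 2 : ℂ) • (Aᴴ * A + T.valᴴ * T.val)) :
    (T₃ * (T⁻¹).val)ᴴ * (T₃ * (T⁻¹).val) =
      (1 / 2 : ℂ) • ((A * (T⁻¹).val)ᴴ * (A * (T⁻¹).val) + 1) := by
  have e : ∀ X : Matrix (Fin n) (Fin n) ℂ, (X * (T⁻¹).val)ᴴ * (X * (T⁻¹).val) =
      (T⁻¹).valᴴ * (Xᴴ * X) * (T⁻¹).val := fun X => by
    simp only [conjTranspose_mul, mul_assoc]
  rw [e, h, mul_smul_comm, smul_mul_assoc, mul_add, add_mul, ← e, ← e, Units.mul_inv,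
    conjTranspose_one, mul_one]

theorem archb_det (X : Matrix (Fin n) (Fin n) ℂ) (T : (Matrix (Fin n) (Fin n) ℂ)ˣ) :
    0 < ‖T.val.det‖ ∧ ‖(X * (T⁻¹).val).det‖ = ‖X.det‖ / ‖T.val.det‖ := by
  have h : 0 < ‖T.val.det‖ := norm_pos_iff.2 (isUnits_det_units T).ne_zero
  refine ⟨h, eq_div_of_mul_eq h.ne' ?_⟩
  rw [← norm_mul, ← det_mul, Units.inv_mul_cancel_right]

/-- A square root of the mean of the two Hermitian forms. -/
theorem arch_mean {T₁ T₂ : Matrix (Fin n) (Fin n) ℂ} (h1 : Adm P T₁) (h2 : Adm P T₂) :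
    ∃ T, Adm P T ∧ Tᴴ * T = (1 / 2 : ℂ) • (T₁ᴴ * T₁ + T₂ᴴ * T₂) := by
  obtain ⟨T, hT⟩ := archb_sqrt T₁ T₂
  refine ⟨T, fun b hb => ?_, hT⟩
  have h := archb_sq T b
  rw [hT, smul_mulVec, add_mulVec, dotProduct_smul, dotProduct_add, ← archb_sq, ← archb_sq] at h
  have h3 : nrm (T *ᵥ b) ^ 2 = 1 / 2 * (nrm (T₁ *ᵥ b) ^ 2 + nrm (T₂ *ᵥ b) ^ 2) := by
    apply Complex.ofReal_injective
    rw [h]
    push_cast
    rfl
  have h4 := pow_le_one₀ (n := 2) (norm_nonneg _) (h1 b hb)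
  have h5 := pow_le_one₀ (n := 2) (norm_nonneg _) (h2 b hb)
  exact (sq_le_one_iff₀ (norm_nonneg _)).1 (h3.trans_le (by unfold nrm; linarith))

/-- `T * G` and `T` are admissible for `P`; apply `spec_one` to `S = T * G * T⁻¹` and `T₃ * T⁻¹`,
`T₃` from `arch_mean`. -/
theorem arch_iso (hle : P ⊆ P') {T₀ : Matrix (Fin n) (Fin n) ℂ} (h0 : IsMx P T₀)
    {T G : (Matrix (Fin n) (Fin n) ℂ)ˣ} (hT : Adm P' T.val) (hG : ‖G.val.det‖ = 1)
    (ha : ∀ b ∈ P, G.val *ᵥ b ∈ P') :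
    1 ≤ (‖T₀.det‖ / ‖T.val.det‖) ^ 2 ∧
      ‖T.val * G.val * (T⁻¹).val‖ ≤ psi ((‖T₀.det‖ / ‖T.val.det‖) ^ 2) ∧
      ‖T.val * (G⁻¹).val * (T⁻¹).val‖ ≤ psi ((‖T₀.det‖ / ‖T.val.det‖) ^ 2) := by
  have a1 : Adm P T.val := fun b hb => hT b (hle hb)
  have a2 : Adm P (T.val * G.val) := fun b hb => by
    rw [← mulVec_mulVec]
    exact hT _ (ha b hb)
  obtain ⟨T₃, h3, h4⟩ := arch_mean a2 a1
  obtain ⟨d0, d1⟩ := archb_det T₃ T
  have h1 : 1 ≤ (‖T₀.det‖ / ‖T.val.det‖) ^ 2 := one_le_pow₀ ((one_le_div d0).2 (h0.2 _ a1))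
  refine ⟨h1, spec_one ?_ ?_ (archb_conj h4) h1 ?_⟩
  · simp only [mul_assoc, Units.inv_mul_cancel_left, Units.mul_inv_cancel_left, Units.mul_inv]
  · rw [(archb_det _ T).2, det_mul, norm_mul, hG, mul_one, div_self d0.ne']
  · rw [d1]
    gcongr
    exact h0.2 _ h3

/-- The mean of `(C * n)⁻¹ • 1` and `T`; `spec_two`. -/
theorem arch_inv [NeZero n] {C : ℝ} (hC : 1 ≤ C) (hP : ∀ b ∈ P, ∀ k, ‖b k‖ ≤ C)
    {T : (Matrix (Fin n) (Fin n) ℂ)ˣ} (hT : IsMx P T.val) : ‖(T⁻¹).val‖ ≤ 2 ^ n * (C * n) := by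
  have hn : (1 : ℝ) ≤ n := by exact_mod_cast NeZero.one_le
  have hc : 0 < C * n := by positivity
  have e : ‖(((C * n)⁻¹ : ℝ) : ℂ)‖ = (C * n)⁻¹ := by
    rw [Complex.norm_real, Real.norm_of_nonneg (inv_pos.2 hc).le]
  have a1 : Adm P ((((C * n)⁻¹ : ℝ) : ℂ) • 1) := fun b hb => by
    have h1 : nrm b ^ 2 ≤ (C * n) ^ 2 := by
      rw [archb_nrm]
      refine (Finset.sum_le_card_nsmul _ _ (C ^ 2) fun k _ =>
        pow_le_pow_left₀ (norm_nonneg _) (hP b hb k) 2).trans ?_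
      rw [Finset.card_univ, Fintype.card_fin, nsmul_eq_mul]
      nlinarith [mul_pos hc hc, sq_nonneg C]
    rw [smul_mulVec, one_mulVec, nrm, WithLp.toLp_smul, norm_smul, e, inv_mul_le_one₀ hc]
    exact le_of_sq_le_sq h1 hc.le
  obtain ⟨T₃, h3, h4⟩ := arch_mean a1 hT.1
  obtain ⟨d0, d1⟩ := archb_det T₃ T
  have h5 := spec_two (archb_conj h4) (d1.trans_le ((div_le_one d0).2 (hT.2 _ h3)))
  rwa [smul_mul_assoc, one_mul, norm_smul, e, inv_mul_le_iff₀ hc, mul_comm] at h5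

end Pool.Agent.GR.MP
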