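import Pool.Agent.Lib.MP_aa40d3_nt.MP.GDef

/-! The span of the small subgroups of finite index. -/

open Matrix

namespace Pool.Agent.GR.MP

variable {r : ℕ} {H H' : Subgroup (GLr r)}

theorem bsp_le (hle : H' ≤ H) (hi : H'.relIndex H ≠ 0) : Bsp H ≤ spn H' := by
  exact iInf₂_le H' ⟨hle, hi⟩

theorem bsp_spn_mono (hle : H ≤ H') : spn H ≤ spn H' :=
  Submodule.span_mono (Set.image_mono hle)

/-- Take `H₀` with `finrank (spn H₀)` minimal; `H₀ ⊓ H'` has finite index again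
(`Subgroup.relIndex_inf_ne_zero`). -/
theorem bsp_ex (H : Subgroup (GLr r)) : ∃ H₀ ≤ H, H₀.relIndex H ≠ 0 ∧ spn H₀ = Bsp H := by
  obtain ⟨H₀, h0, hm⟩ := (InvImage.wf (fun K : Subgroup (GLr r) => Module.finrank ℂ (spn K))
    wellFounded_lt).has_min {K | K ≤ H ∧ K.relIndex H ≠ 0} ⟨H, le_rfl, by simp⟩
  refine ⟨H₀, h0.1, h0.2, le_antisymm (le_iInf₂ fun K hK => ?_) (bsp_le h0.1 h0.2)⟩
  have h1 := Submodule.eq_of_le_of_finrank_le (bsp_spn_mono (inf_le_left (a := H₀) (b := K)))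
    (not_lt.1 (hm _ ⟨inf_le_left.trans h0.1, Subgroup.relIndex_inf_ne_zero h0.2 hK.2⟩))
  exact h1 ▸ bsp_spn_mono inf_le_right

theorem bsp_one (H : Subgroup (GLr r)) : (1 : Matrix (Fin r) (Fin r) ℂ) ∈ Bsp H := by
  obtain ⟨H₀, -, -, e⟩ := bsp_ex H
  exact e ▸ Submodule.subset_span ⟨1, H₀.one_mem, rfl⟩

theorem bsp_mul (H : Subgroup (GLr r)) : ∀ x ∈ Bsp H, ∀ y ∈ Bsp H, x * y ∈ Bsp H := by
  obtain ⟨H₀, -, -, e⟩ := bsp_ex H
  rw [← e]
  intro x hx y hy
  have h := Submodule.mul_mem_mul hx hy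
  rw [spn, Submodule.span_mul_span] at h
  refine Submodule.span_mono ?_ h
  rintro _ ⟨_, ⟨a, ha, rfl⟩, _, ⟨b, hb, rfl⟩, rfl⟩
  exact ⟨a * b, H₀.mul_mem ha hb, rfl⟩

theorem bsp_mono (hle : H ≤ H') : Bsp H ≤ Bsp H' := by
  refine le_iInf₂ fun K hK => (bsp_le (H' := K ⊓ H) inf_le_right ?_).trans
    (bsp_spn_mono inf_le_left)
  rw [Subgroup.inf_relIndex_right]
  exact fun h => hK.2 (Subgroup.relIndex_eq_zero_of_le_right hle h)

theorem bsp_cj_le (γ : GLr r) (H : Subgroup (GLr r)) :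
    Bsp (cj γ H) ≤ (Bsp H).map (spanCj γ).toLinearMap := by
  obtain ⟨H₀, h1, h2, e⟩ := bsp_ex H
  rw [← e, ← span_cj]
  refine bsp_le (Subgroup.map_mono h1) ?_
  rwa [cj, cj, Subgroup.relIndex_map_map_of_injective _ _ (MulAut.conj γ).injective]

theorem bsp_cj (γ : GLr r) (H : Subgroup (GLr r)) :
    Bsp (cj γ H) = (Bsp H).map (spanCj γ).toLinearMap := by
  refine le_antisymm (bsp_cj_le γ H) ?_
  rintro _ ⟨x, hx, rfl⟩
  have h := bsp_cj_le γ⁻¹ (cj γ H)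
  rw [frame_cj] at h
  obtain ⟨y, hy, rfl⟩ := h hx
  have e : (spanCj γ).toLinearMap ((spanCj γ⁻¹).toLinearMap y) = y :=
    (spanCj γ).apply_symm_apply y
  rwa [e]

theorem bsp_inv (H : Subgroup (GLr r)) : InvS H (Bsp H) := by
  intro γ hγ x hx
  have h := bsp_cj γ H
  rw [cj_self hγ] at h
  exact h.ge ⟨x, hx, rfl⟩

/-- A subgroup of finite index consists of scalars `c` with `c ^ (r * E) = 1`. -/
theorem finite_of_bsp [NeZero r] {E : ℕ} (hE : 0 < E) (hd : ∀ γ ∈ H, γ.val.det ^ E = 1)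
    (h : ∀ x ∈ Bsp H, ∃ c : ℂ, x = c • (1 : Matrix (Fin r) (Fin r) ℂ)) : Finite H := by
  obtain ⟨H₀, h1, h2, e⟩ := bsp_ex H
  have h0 : 0 < r * E := Nat.mul_pos (NeZero.pos r) hE
  have hf : (H₀ : Set (GLr r)).Finite := by
    refine Set.Finite.of_finite_image (f := Units.val) ((((Polynomial.nthRoots (r * E)
      (1 : ℂ)).toFinset.finite_toSet).image fun c => c • (1 : Matrix (Fin r) (Fin r) ℂ)).subset ?_)
      Units.val_injective.injOn
    rintro _ ⟨γ, hγ, rfl⟩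
    obtain ⟨c, hc⟩ := h γ.val (e ▸ Submodule.subset_span ⟨γ, hγ, rfl⟩)
    have k := hd γ (h1 hγ)
    rw [hc, det_smul, det_one, mul_one, Fintype.card_fin, ← pow_mul] at k
    exact ⟨c, by simpa [Polynomial.mem_nthRoots h0] using k, hc.symm⟩
  have : Finite H₀ := hf
  exact (Subgroup.finite_iff_finite_and_finiteIndex (H₀.subgroupOf H)).2
    ⟨Finite.of_equiv _ (Subgroup.subgroupOfEquivOfLe h1).symm.toEquiv, ⟨h2⟩⟩

theorem bsp_idx {G X : Type} [Group G] [MulAction G X] (K : Subgroup G) (x : X)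
    (h : {y | ∃ γ ∈ K, γ • x = y}.Finite) : (MulAction.stabilizer G x).relIndex K ≠ 0 := by
  have hf : (MulAction.orbit K x).Finite := h.subset fun y hy => by
    obtain ⟨γ, hγ⟩ := hy
    exact ⟨γ.1, γ.2, hγ⟩
  have e : (MulAction.stabilizer G x).relIndex K = (MulAction.stabilizer K x).index := rfl
  rw [e, MulAction.index_stabilizer]
  exact ((Set.ncard_pos hf).2 ⟨x, MulAction.mem_orbit_self x⟩).ne'

/-- If the conjugacy class of `x` under `H` is finite, its centraliser has finite index. -/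
theorem bsp_comm {x : Matrix (Fin r) (Fin r) ℂ}
    (h : {y | ∃ γ ∈ H, γ.val * x * (γ⁻¹).val = y}.Finite) : ∀ b ∈ Bsp H, b * x = x * b := by
  have h1 := bsp_idx (H.map (ConjAct.toConjAct (G := GLr r)).toMonoidHom) x
    (h.subset fun y hy => by
      obtain ⟨_, ⟨γ, hγ, rfl⟩, e⟩ := hy
      exact ⟨γ, hγ, e⟩)
  rw [← Subgroup.relIndex_comap, ← Subgroup.inf_relIndex_right] at h1
  intro b hb
  have hb' := bsp_le inf_le_right h1 hb
  clear hb
  induction hb' using Submodule.span_induction with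
  | mem b hb =>
    obtain ⟨γ, hγ, rfl⟩ := hb
    have k : γ.val * x * (γ⁻¹).val = x := hγ.1
    exact (Units.mul_inv_eq_iff_eq_mul _).1 k
  | zero => rw [zero_mul, mul_zero]
  | add a b _ _ ha hb => rw [add_mul, mul_add, ha, hb]
  | smul c a _ ha => rw [Matrix.smul_mul, Matrix.mul_smul, ha]

end Pool.Agent.GR.MP
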