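import Pool.Agent.Lib.MP_aa40d3_nt.MP.ADef

/-! Words in almost isometries. -/

open Matrix NumberField
open scoped Matrix.Norms.L2Operator

namespace Pool.Agent.GR.MP

variable {K : Type} [Field K] [NumberField K] {n M : ℕ} {X : Fin M → (Matrix (Fin n) (Fin n) K)ˣ}
  {p : Fin n → K} {η C : ℝ}

/-- The representation at the place `σ`. -/
noncomputable def Iso.ρ (h : Iso X p η C) (σ : K →+* ℂ) :
    (Matrix (Fin n) (Fin n) K)ˣ →* (Matrix (Fin n) (Fin n) ℂ)ˣ :=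
  (MulAut.conj (h.T σ)).toMonoidHom.comp (Units.map σ.mapMatrix.toMonoidHom)

theorem Iso.ρ_val (h : Iso X p η C) (σ : K →+* ℂ) (w : (Matrix (Fin n) (Fin n) K)ˣ) :
    (h.ρ σ w).val = (h.T σ).val * w.val.map σ * ((h.T σ)⁻¹).val := rfl

/-- The bounds for a word of length `l`. -/
def Iso.Good (h : Iso X p η C) (l : ℕ) (w : (Matrix (Fin n) (Fin n) K)ˣ) : Prop :=
  (∀ σ, ‖(h.ρ σ w).val‖ ≤ h.ψ σ ^ l ∧ ‖(h.ρ σ w⁻¹).val‖ ≤ h.ψ σ ^ l) ∧
    ∀ a ∈ h.I ^ l, ∀ x ∈ h.Λ, a • (w.val *ᵥ x) ∈ h.Λ ∧ a • ((w⁻¹).val *ᵥ x) ∈ h.Λ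

theorem Iso.good_X (h : Iso X p η C) (i : Fin M) : h.Good 1 (X i) := by
  refine ⟨fun σ => ?_, fun a ha => h.lat i a (by rwa [pow_one] at ha)⟩
  rw [pow_one]
  exact h.iso σ i

theorem Iso.Good.inv {h : Iso X p η C} {l : ℕ} {w : (Matrix (Fin n) (Fin n) K)ˣ} (hw : h.Good l w) :
    h.Good l w⁻¹ := by
  refine ⟨fun σ => ?_, fun a ha x hx => ?_⟩ <;> rw [inv_inv]
  exacts [(hw.1 σ).symm, (hw.2 a ha x hx).symm]

/-- `Submodule.mul_induction_on` for `I ^ l * I ^ l'`. -/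
theorem Iso.Good.mul {h : Iso X p η C} {l l' : ℕ} {w w' : (Matrix (Fin n) (Fin n) K)ˣ}
    (hw : h.Good l w) (hw' : h.Good l' w') : h.Good (l + l') (w * w') := by
  have h0 : ∀ σ m, 0 ≤ h.ψ σ ^ m := fun σ m => pow_nonneg (zero_le_one.trans (h.ψ1 σ)) m
  refine ⟨fun σ => ?_, fun a ha x hx => ?_⟩
  · rw [_root_.mul_inv_rev, map_mul, map_mul, Units.val_mul, Units.val_mul, pow_add]
    exact ⟨(norm_mul_le _ _).trans
        (mul_le_mul (hw.1 σ).1 (hw'.1 σ).1 (norm_nonneg _) (h0 σ _)),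
      ((norm_mul_le _ _).trans
        (mul_le_mul (hw'.1 σ).2 (hw.1 σ).2 (norm_nonneg _) (h0 σ _))).trans_eq (mul_comm _ _)⟩
  · rw [pow_add] at ha
    rw [_root_.mul_inv_rev, Units.val_mul, Units.val_mul, ← mulVec_mulVec, ← mulVec_mulVec]
    refine Submodule.mul_induction_on ha (fun m hm m' hm' => ⟨?_, ?_⟩) fun a b ha hb => ?_
    · rw [mul_smul, ← mulVec_smul]
      exact (hw.2 m hm _ (hw'.2 m' hm' x hx).1).1
    · rw [mul_comm, mul_smul, ← mulVec_smul]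
      exact (hw'.2 m' hm' _ (hw.2 m hm x hx).2).2
    · rw [add_smul, add_smul]
      exact ⟨h.Λ.add_mem ha.1 hb.1, h.Λ.add_mem ha.2 hb.2⟩

theorem Iso.Good.mono {h : Iso X p η C} {l l' : ℕ} {w : (Matrix (Fin n) (Fin n) K)ˣ}
    (hw : h.Good l w) (hl : l ≤ l') : h.Good l' w := by
  exact ⟨fun σ => ⟨(hw.1 σ).1.trans (pow_le_pow_right₀ (h.ψ1 σ) hl),
    (hw.1 σ).2.trans (pow_le_pow_right₀ (h.ψ1 σ) hl)⟩,
    fun a ha => hw.2 a (Ideal.pow_le_pow_right hl ha)⟩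

/-- The length satisfies `len (J + 1) = 2 * len J + 4`, `len 0 = 2`, so `len J + 4 = 6 * 2 ^ J`. -/
theorem Iso.good_cw (h : Iso X p η C) (i0 : Fin M) (l : List (Fin M)) (i : Fin M) :
    h.Good (6 * 2 ^ l.length) (cw (fun j => (X i0)⁻¹ * X j) l i) := by
  have hu : ∀ j, h.Good 2 ((X i0)⁻¹ * X j) := fun j => (h.good_X i0).inv.mul (h.good_X j)
  suffices H : ∃ m, m + 4 = 6 * 2 ^ l.length ∧ h.Good m (cw (fun j => (X i0)⁻¹ * X j) l i) by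
    obtain ⟨m, h1, h2⟩ := H
    exact h2.mono (by omega)
  induction l with
  | nil => exact ⟨2, rfl, hu i⟩
  | cons j l ih =>
    obtain ⟨m, h1, h2⟩ := ih
    exact ⟨2 + m + 2 + m, by rw [List.length_cons, pow_succ]; omega,
      (((hu j).mul h2).mul (hu j).inv).mul h2.inv⟩

/-- `σ (w p - p) = T⁻¹ (ρ w - 1) T (σ p)`. -/
theorem Iso.coord (h : Iso X p η C) (w : (Matrix (Fin n) (Fin n) K)ˣ) (σ : K →+* ℂ) (k : Fin n) :
    ‖σ ((w.val *ᵥ p - p) k)‖ ≤ C * ‖(h.ρ σ w).val - 1‖ := by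
  have e : ((h.T σ)⁻¹).val *ᵥ (((h.ρ σ w).val - 1) *ᵥ ((h.T σ).val *ᵥ fun k => σ (p k))) =
      w.val.map σ *ᵥ (fun k => σ (p k)) - fun k => σ (p k) := by
    rw [h.ρ_val, mulVec_mulVec, mulVec_mulVec, Matrix.mul_sub, Matrix.sub_mul, Matrix.mul_one,
      Units.inv_mul, sub_mulVec, one_mulVec, ← Matrix.mul_assoc, ← Matrix.mul_assoc, Units.inv_mul,
      Matrix.one_mul, Matrix.mul_assoc, Units.inv_mul, Matrix.mul_one]
  have e' : σ ((w.val *ᵥ p - p) k) = (w.val.map σ *ᵥ (fun k => σ (p k)) - fun k => σ (p k)) k := by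
    rw [Pi.sub_apply, map_sub, RingHom.map_mulVec]
    rfl
  rw [e', ← e]
  refine (le_nrm _ k).trans ((nrm_mulVec _ _).trans (mul_le_mul (h.inv σ)
    ((nrm_mulVec _ _).trans (mul_le_of_le_one_right (norm_nonneg _) (h.pt σ))) (norm_nonneg _)
    ((norm_nonneg _).trans (h.inv σ))))

theorem Iso.Good.int {h : Iso X p η C} {l : ℕ} {w : (Matrix (Fin n) (Fin n) K)ˣ} (hw : h.Good l w)
    (k : Fin n) : ∀ a ∈ h.I ^ l, ∃ c : 𝓞 K, (a : K) * (w.val *ᵥ p - p) k = c := by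
  intro a ha
  have h1 := h.Λ.sub_mem (hw.2 a ha p h.pΛ).1 (h.Λ.smul_mem a h.pΛ)
  rw [← smul_sub] at h1
  exact h.int _ h1 k

end Pool.Agent.GR.MP
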