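import Pool.Agent.Lib.MP_aa40d3_nt.MP.ADef

/-! The finite places. -/

open Matrix NumberField

namespace Pool.Agent.GR.MP

variable {n : ℕ} {K : Type} [Field K] [NumberField K] {P P' : Set (Fin n → 𝓞 K)}

theorem dId_mono (h : P ⊆ P') : dId P ≤ dId P' := by
  refine Ideal.span_mono ?_
  rintro d ⟨B, hB, rfl⟩
  exact ⟨B, fun i => h (hB i), rfl⟩

theorem dId_ne {B : Matrix (Fin n) (Fin n) (𝓞 K)} (hB : ∀ i, B i ∈ P) (hd : B.det ≠ 0) :
    dId P ≠ ⊥ := by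
  intro h
  have h1 : B.det ∈ dId P := Ideal.subset_span ⟨B, hB, rfl⟩
  rw [h] at h1
  exact hd h1

theorem lat_int {x : Fin n → K} (hx : x ∈ lat P) (k : Fin n) : ∃ c : 𝓞 K, x k = c := by
  induction hx using Submodule.span_induction with
  | mem x hx => obtain ⟨b, -, rfl⟩ := hx; exact ⟨b k, rfl⟩
  | zero => exact ⟨0, by simp⟩
  | add x y _ _ hx hy =>
    obtain ⟨c, hc⟩ := hx
    obtain ⟨d, hd⟩ := hy
    exact ⟨c + d, by simp [hc, hd]⟩
  | smul a x _ hx =>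
    obtain ⟨c, hc⟩ := hx
    exact ⟨a * c, by simp [hc, Algebra.smul_def]⟩

/-- A matrix over the field as a linear map over the integers. -/
noncomputable def fina_L (G : Matrix (Fin n) (Fin n) K) : (Fin n → K) →ₗ[𝓞 K] Fin n → K :=
  G.mulVecLin.restrictScalars (𝓞 K)

theorem fina_unit {G : (Matrix (Fin n) (Fin n) K)ˣ} (hG : IsOfFinOrder G) :
    ∃ u : 𝓞 K, (u : K) * G.val.det = 1 := by
  obtain ⟨m, hm, h⟩ := isOfFinOrder_iff_pow_eq_one.1 hG.inv
  have h1 : (G⁻¹).val.det ^ m = 1 := by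
    rw [← Matrix.det_pow, ← Units.val_pow_eq_pow_val, h, Units.val_one, Matrix.det_one]
  refine ⟨⟨(G⁻¹).val.det, IsIntegral.of_pow hm (h1 ▸ isIntegral_one)⟩, ?_⟩
  show (G⁻¹).val.det * G.val.det = 1
  rw [← Matrix.det_mul, Units.inv_mul, Matrix.det_one]

theorem fina_cramer (B : Matrix (Fin n) (Fin n) (𝓞 K)) (x : Fin n → 𝓞 K) :
    B.det • kv x = ∑ i, (B.updateRow i x).det • kv (B i) := by
  funext k
  have h := congrFun (Matrix.mulVec_cramer Bᵀ x) k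
  simp only [Matrix.mulVec, dotProduct, Matrix.cramer_transpose_apply, Matrix.transpose_apply,
    Matrix.det_transpose, Pi.smul_apply, smul_eq_mul] at h
  have h1 := congrArg (algebraMap (𝓞 K) K) h
  simp only [map_sum, map_mul] at h1
  simp only [Finset.sum_apply, Pi.smul_apply, Algebra.smul_def, kv]
  exact h1.symm.trans (Finset.sum_congr rfl fun _ _ => mul_comm _ _)

theorem fina_le {G : (Matrix (Fin n) (Fin n) K)ˣ} (hG : IsOfFinOrder G)
    (ha : ∀ b ∈ P, ∃ b' ∈ P', G.val *ᵥ kv b = kv b') :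
    dId P • lat P' ≤ dId P' • (lat P).map (fina_L G.val) := by
  obtain ⟨u, hu⟩ := fina_unit hG
  rw [dId, lat, Submodule.span_smul_span, Submodule.span_le]
  rintro _ ⟨_, ⟨B, hB, rfl⟩, _, ⟨x, hx, rfl⟩, rfl⟩
  choose b hb hb' using fun i => ha _ (hB i)
  have h1 : (Matrix.of b).map (algebraMap (𝓞 K) K) = B.map (algebraMap (𝓞 K) K) * G.valᵀ := by
    ext i k
    have h := congrFun (hb' i) k
    simp only [Matrix.mulVec, dotProduct, kv] at h
    simp only [Matrix.map_apply, Matrix.of_apply, Matrix.mul_apply, Matrix.transpose_apply]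
    exact h.symm.trans (Finset.sum_congr rfl fun _ _ => mul_comm _ _)
  have h2 : B.det = u * (Matrix.of b).det := by
    apply FaithfulSMul.algebraMap_injective (𝓞 K) K
    rw [map_mul, RingHom.map_det, RingHom.map_det, RingHom.mapMatrix_apply,
      RingHom.mapMatrix_apply, h1, Matrix.det_mul, Matrix.det_transpose]
    linear_combination -(B.map (algebraMap (𝓞 K) K)).det * hu
  show B.det • kv x ∈ _
  rw [h2, mul_smul, fina_cramer]
  refine Submodule.smul_mem _ _ (Submodule.sum_mem _ fun i _ => Submodule.smul_mem_smul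
    (Ideal.subset_span ⟨_, fun j => ?_, rfl⟩)
    ⟨kv (B i), Submodule.subset_span ⟨_, hB i, rfl⟩, hb' i⟩)
  by_cases hj : j = i
  · rw [hj, Matrix.updateRow_self]; exact hx
  · rw [Matrix.updateRow_ne hj]; exact hb j

/-- Paper A3. Cramer: for rows `b i ∈ P`, `G (b i) = b' i ∈ P'` and `x ∈ P'`,
`det b' • x = ∑ det (b' with row i replaced by x) • b' i`, and `det b' = det G * det b` with the unit
`det G` of `𝓞 K`. So `dId P • lat P' ≤ dId P' • (lat P).map G`. For `c ≠ 0` in `dId P'` write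
`span {c} = dId P' * J`, multiply by `J` and cancel `c`. -/
theorem fin_cramer {I : Ideal (𝓞 K)} (h : dId P = dId P' * I) (h0 : dId P' ≠ ⊥)
    {G : (Matrix (Fin n) (Fin n) K)ˣ} (hG : IsOfFinOrder G)
    (ha : ∀ b ∈ P, ∃ b' ∈ P', G.val *ᵥ kv b = kv b') {a : 𝓞 K} (haI : a ∈ I) {x : Fin n → K}
    (hx : x ∈ lat P') : ∃ y ∈ lat P, a • x = G.val *ᵥ y := by
  obtain ⟨c, hc, hc0⟩ := (Submodule.ne_bot_iff _).1 h0
  obtain ⟨J, hJ⟩ := Ideal.dvd_iff_le.2 ((Ideal.span_singleton_le_iff_mem _).2 hc)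
  have h1 : Ideal.span {c} • I • lat P' ≤ Ideal.span {c} • (lat P).map (fina_L G.val) := by
    rw [hJ, mul_comm, Submodule.mul_smul, Submodule.mul_smul, ← Submodule.mul_smul (dId P'), ← h]
    exact Submodule.smul_mono le_rfl (fina_le hG ha)
  have h2 := h1 (Submodule.smul_mem_smul (Ideal.mem_span_singleton_self c)
    (Submodule.smul_mem_smul haI hx))
  rw [Submodule.ideal_span_singleton_smul, Submodule.mem_smul_pointwise_iff_exists] at h2
  obtain ⟨_, ⟨y, hy, rfl⟩, h3⟩ := h2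
  exact ⟨y, hy, (smul_right_injective _ hc0 h3).symm⟩

/-- `fin_cramer` for `1` and for `G`. -/
theorem fin_lat (hle : P ⊆ P') {I : Ideal (𝓞 K)} (h : dId P = dId P' * I) (h0 : dId P' ≠ ⊥)
    {G : (Matrix (Fin n) (Fin n) K)ˣ} (hG : IsOfFinOrder G)
    (ha : ∀ b ∈ P, ∃ b' ∈ P', G.val *ᵥ kv b = kv b') {a : 𝓞 K} (haI : a ∈ I) {x : Fin n → K}
    (hx : x ∈ lat P') : a • (G.val *ᵥ x) ∈ lat P' ∧ a • ((G⁻¹).val *ᵥ x) ∈ lat P' := by
  constructor
  · obtain ⟨y, hy, h1⟩ := fin_cramer h h0 IsOfFinOrder.one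
      (fun b hb => ⟨b, hle hb, Matrix.one_mulVec _⟩) haI hx
    rw [Units.val_one, Matrix.one_mulVec] at h1
    have h2 : (lat P).map (fina_L G.val) ≤ lat P' := by
      rw [lat, Submodule.map_span, Submodule.span_le]
      rintro _ ⟨_, ⟨b, hb, rfl⟩, rfl⟩
      obtain ⟨b', hb', h3⟩ := ha b hb
      exact Submodule.subset_span ⟨b', hb', h3.symm⟩
    exact h2 ⟨y, hy, h1 ▸ (fina_L G.val).map_smul a x⟩
  · obtain ⟨y, hy, h1⟩ := fin_cramer h h0 hG ha haI hx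
    have h2 : a • ((G⁻¹).val *ᵥ x) = y := by
      rw [← Matrix.mulVec_smul, h1, Matrix.mulVec_mulVec, Units.inv_mul, Matrix.one_mulVec]
    exact h2 ▸ Submodule.span_mono (Set.image_mono hle) hy

/-- `absNorm (span {c}) = |norm c| = ∏ σ, ‖σ c‖`. -/
theorem log_absNorm {c : 𝓞 K} (hc : c ≠ 0) :
    Real.log (Ideal.absNorm (Ideal.span {c})) = ∑ σ : K →+* ℂ, Real.log ‖σ c‖ := by
  have h1 := congrArg (‖·‖) (Algebra.norm_eq_prod_embeddings ℚ ℂ (c : K))
  simp only [norm_prod] at h1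
  rw [← Fintype.prod_equiv (RingHom.equivRatAlgHom K ℂ) (fun f => ‖f (c : K)‖) _
    fun _ => by simp [RingHom.equivRatAlgHom_apply], ← Algebra.coe_norm_int, eq_ratCast,
    Rat.cast_intCast, Complex.norm_intCast] at h1
  rw [Ideal.absNorm_span_singleton, Nat.cast_natAbs, Int.cast_abs, h1, Real.log_prod]
  exact fun σ _ => norm_ne_zero_iff.2 ((map_ne_zero σ).2 (RingOfIntegers.coe_ne_zero_iff.2 hc))

theorem finb_pos {I : Ideal (𝓞 K)} (hI : I ≠ ⊥) : 0 < Ideal.absNorm I :=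
  Nat.pos_of_ne_zero fun h => hI (Ideal.absNorm_eq_zero_iff.1 h)

theorem finb_le {I J : Ideal (𝓞 K)} (h : I ≤ J) (hI : I ≠ ⊥) :
    Real.log (Ideal.absNorm J) ≤ Real.log (Ideal.absNorm I) :=
  Real.log_le_log (Nat.cast_pos.2 (finb_pos fun e => hI (le_bot_iff.1 (e ▸ h))))
    (Nat.cast_le.2 (Nat.le_of_dvd (finb_pos hI) (Ideal.absNorm_dvd_absNorm_of_le h)))

/-- Write `α = p / q`; `I * span {p} ≤ span {q}`, `Ideal.absNorm_dvd_absNorm_of_le`. -/
theorem fin_norm {α : K} (hα : α ≠ 0) {I : Ideal (𝓞 K)} (hI : I ≠ ⊥)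
    (h : ∀ a ∈ I, ∃ c : 𝓞 K, (a : K) * α = c) :
    0 ≤ Real.log (Ideal.absNorm I) + ∑ σ : K →+* ℂ, Real.log ‖σ α‖ := by
  obtain ⟨p, q, hq, rfl⟩ := IsFractionRing.div_surjective (A := 𝓞 K) α
  have hq0 : q ≠ 0 := nonZeroDivisors.ne_zero hq
  have hq1 : (q : K) ≠ 0 := RingOfIntegers.coe_ne_zero_iff.2 hq0
  have hp1 : (p : K) ≠ 0 := (div_ne_zero_iff.1 hα).1
  have hp0 : p ≠ 0 := RingOfIntegers.coe_ne_zero_iff.1 hp1
  have hp : Ideal.span {p} ≠ ⊥ := mt Ideal.span_singleton_eq_bot.1 hp0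
  have h1 : I * Ideal.span {p} ≤ Ideal.span {q} := by
    rw [mul_comm, Ideal.span_singleton_mul_le_iff]
    intro a ha
    obtain ⟨c, hc⟩ := h a ha
    refine Ideal.mem_span_singleton'.2 ⟨c, RingOfIntegers.ext ?_⟩
    change (c : K) * q = p * a
    rw [← hc]
    change (a : K) * (p / q) * q = p * a
    rw [mul_assoc, div_mul_cancel₀ _ hq1, mul_comm]
  have h2 := finb_le h1 (mul_ne_zero hI hp)
  rw [map_mul, Nat.cast_mul, Real.log_mul (Nat.cast_pos.2 (finb_pos hI)).ne'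
    (Nat.cast_pos.2 (finb_pos hp)).ne', log_absNorm hp0, log_absNorm hq0] at h2
  have h3 : ∀ σ : K →+* ℂ, Real.log ‖σ ((p : K) / q)‖ = Real.log ‖σ p‖ - Real.log ‖σ q‖ :=
    fun σ => by
      rw [map_div₀, norm_div, Real.log_div (norm_ne_zero_iff.2 ((map_ne_zero σ).2 hp1))
        (norm_ne_zero_iff.2 ((map_ne_zero σ).2 hq1))]
  change 0 ≤ _ + ∑ σ : K →+* ℂ, Real.log ‖σ ((p : K) / q)‖
  rw [Finset.sum_congr rfl fun σ _ => h3 σ, Finset.sum_sub_distrib]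
  linarith

/-- `span {B.det} ≤ dId P` and `Matrix.det_le`. -/
theorem fin_bound {B : Matrix (Fin n) (Fin n) (𝓞 K)} (hB : ∀ i, B i ∈ P) (hd : B.det ≠ 0) {C : ℝ}
    (hP : ∀ b ∈ P, ∀ (σ : K →+* ℂ) (k : Fin n), ‖σ (b k)‖ ≤ C) :
    Real.log (Ideal.absNorm (dId P)) ≤
      Fintype.card (K →+* ℂ) * Real.log (n.factorial * C ^ n) := by
  have h1 : Ideal.span {B.det} ≤ dId P :=
    Ideal.span_mono (Set.singleton_subset_iff.2 ⟨B, hB, rfl⟩)
  refine (finb_le h1 (mt Ideal.span_singleton_eq_bot.1 hd)).trans ?_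
  rw [log_absNorm hd, ← nsmul_eq_mul]
  refine Finset.sum_le_card_nsmul _ _ _ fun σ _ => Real.log_le_log
    (norm_pos_iff.2 ((map_ne_zero σ).2 (RingOfIntegers.coe_ne_zero_iff.2 hd))) ?_
  have h2 := Matrix.det_le (A := (σ.comp (algebraMap (𝓞 K) K)).mapMatrix B)
    (abv := NormedField.toAbsoluteValue ℂ) (x := C) fun i j => hP _ (hB i) σ j
  rw [← RingHom.map_det, Fintype.card_fin, nsmul_eq_mul] at h2
  exact h2

end Pool.Agent.GR.MP
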