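import Pool.Agent.Lib.MP_aa40d3_nt.MP.CommA
import Pool.Agent.Lib.MP_aa40d3_nt.MP.CommB
import Pool.Agent.Lib.MP_aa40d3_nt.MP.Fin

/-! The product formula kills long commutators. -/

open Matrix NumberField
open scoped Matrix.Norms.L2Operator

namespace Pool.Agent.GR.MP

theorem comm_half {α : Type} [Fintype α] {ψ : α → ℝ} (h1 : ∀ σ, 1 ≤ ψ σ)
    (h : ∑ σ, Real.log (ψ σ) ≤ Real.log 2 / 2 * Fintype.card α) :
    (Fintype.card α : ℝ) / 2 ≤ (Finset.univ.filter fun σ => ψ σ ≤ 2).card := by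
  have h2 : 0 < Real.log 2 := Real.log_pos one_lt_two
  have h3 := Finset.card_nsmul_le_sum (Finset.univ.filter fun σ => ¬ ψ σ ≤ 2)
    (fun σ => Real.log (ψ σ)) (Real.log 2) fun σ hσ =>
      Real.log_le_log two_pos (not_le.1 (Finset.mem_filter.1 hσ).2).le
  have h4 : ∑ σ ∈ Finset.univ.filter fun σ => ¬ ψ σ ≤ 2, Real.log (ψ σ) ≤ ∑ σ, Real.log (ψ σ) :=
    Finset.sum_le_sum_of_subset_of_nonneg (Finset.filter_subset _ _) fun σ _ _ =>
      Real.log_nonneg (h1 σ)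
  have h5 := Finset.card_filter_add_card_filter_not (s := (Finset.univ : Finset α))
    fun σ => ψ σ ≤ 2
  rw [Finset.card_univ] at h5
  rw [nsmul_eq_mul] at h3
  rw [← h5, Nat.cast_add] at h ⊢
  nlinarith

/-- Paper A6. `M` from `comm_small`, `θ = 1 / 2 ^ (M + 1)`, `J` with `θ * J * log 2 > log (2 C) + 1`,
`η ≤ log 2 / 2` with `2 * (6 * 2 ^ J) * η ≤ 1`. At least half of the `σ` have `ψ σ ≤ 2`; these are
coloured by the set `T σ`, one colour has at least `θ * d` members. For `α = (w p - p) k ≠ 0` use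
`fin_norm` with `I ^ len`: `‖σ α‖ ≤ 2 C ψ ^ len` always, times `(1 / 2) ^ J` for that colour. -/
theorem comm_kill (n t : ℕ) [NeZero n] {C : ℝ} (hC : 1 ≤ C) : ∃ (M J : ℕ) (η : ℝ), 0 < η ∧
    ∀ (K : Type) [Field K] [NumberField K] (X : Fin M → (Matrix (Fin n) (Fin n) K)ˣ)
      (p : Fin n → K), Iso X p η C → ∃ T : Finset (Fin M), T.card = t ∧
        ∀ i0 ∈ T, ∀ (l : List (Fin M)) (i : Fin M), l.length = J → (∀ j ∈ l, j ∈ T) → i ∈ T →
          (cw (fun j => (X i0)⁻¹ * X j) l i).val *ᵥ p = p := by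
  classical
  obtain ⟨M, hM⟩ := comm_small n t
  have l2 : 0 < Real.log 2 := Real.log_pos one_lt_two
  obtain ⟨θ, hθ⟩ : ∃ θ : ℝ, θ = 1 / 2 ^ (M + 1) := ⟨_, rfl⟩
  have θ0 : 0 < θ := by rw [hθ]; positivity
  obtain ⟨J, hJ⟩ := exists_nat_gt ((Real.log (2 * C) + 1) / (θ * Real.log 2))
  rw [div_lt_iff₀ (mul_pos θ0 l2)] at hJ
  obtain ⟨N, hN⟩ : ∃ N : ℕ, N = 6 * 2 ^ J := ⟨_, rfl⟩
  have N0 : (0 : ℝ) < N := by rw [hN]; positivity
  obtain ⟨η, η0, η1, η2⟩ : ∃ η : ℝ, 0 < η ∧ η ≤ Real.log 2 / 2 ∧ 2 * N * η ≤ 1 :=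
    ⟨min (Real.log 2 / 2) (1 / (2 * N)), by positivity, min_le_left _ _,
      (le_div_iff₀' (by positivity)).1 (min_le_right _ _)⟩
  refine ⟨M, J, η, η0, fun K _ _ X p h => ?_⟩
  have d0 : (0 : ℝ) < Fintype.card (K →+* ℂ) := Nat.cast_pos.2 Fintype.card_pos
  have hG := comm_half h.ψ1 (h.ψs.trans (mul_le_mul_of_nonneg_right η1 d0.le))
  have key : ∀ σ, ∃ T : Finset (Fin M), h.ψ σ ≤ 2 → T.card = t ∧
      ∀ i0 ∈ T, ∀ (l : List (Fin M)) (i : Fin M), (∀ j ∈ l, j ∈ T) → i ∈ T →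
        ‖(h.ρ σ (cw (fun j => (X i0)⁻¹ * X j) l i)).val - 1‖ ≤ (1 / 2) ^ l.length := by
    intro σ
    by_cases hσ : h.ψ σ ≤ 2
    · obtain ⟨T, h1, h2⟩ := hM (fun i => h.ρ σ (X i)) fun i =>
        ⟨(h.iso σ i).1.trans hσ, by rw [← map_inv]; exact (h.iso σ i).2.trans hσ⟩
      refine ⟨T, fun _ => ⟨h1, fun i0 h0 l i hl hi => ?_⟩⟩
      simpa only [map_cw, map_mul, map_inv] using h2 i0 h0 l i hl hi
    · exact ⟨∅, fun e => absurd e hσ⟩
  choose T hT using key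
  obtain ⟨T0, -, hF⟩ := Finset.exists_le_card_fiber_of_nsmul_le_card_of_maps_to
    (s := Finset.univ.filter fun σ => h.ψ σ ≤ 2) (t := Finset.univ) (f := T)
    (b := θ * Fintype.card (K →+* ℂ)) (fun _ _ => Finset.mem_univ _) Finset.univ_nonempty (by
      refine le_trans (le_of_eq ?_) hG
      rw [Finset.card_univ, Fintype.card_finset, Fintype.card_fin, nsmul_eq_mul, hθ]
      push_cast
      field_simp
      ring)
  obtain ⟨F, hFe⟩ : ∃ F, F = (Finset.univ.filter fun σ => h.ψ σ ≤ 2).filter fun σ => T σ = T0 :=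
    ⟨_, rfl⟩
  rw [← hFe] at hF
  have hF' : ∀ σ ∈ F, h.ψ σ ≤ 2 ∧ T σ = T0 := fun σ hσ => by simpa [hFe] using hσ
  obtain ⟨σ0, hσ0⟩ : F.Nonempty :=
    Finset.card_pos.1 (Nat.cast_pos.1 ((mul_pos θ0 d0).trans_le hF))
  refine ⟨T0, (hF' σ0 hσ0).2 ▸ (hT σ0 (hF' σ0 hσ0).1).1, fun i0 h0 l i hl hl' hi => ?_⟩
  have hg := h.good_cw i0 l i
  rw [hl, ← hN] at hg
  have hs : ∀ σ ∈ F, ‖(h.ρ σ (cw (fun j => (X i0)⁻¹ * X j) l i)).val - 1‖ ≤ (1 / 2) ^ J := by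
    intro σ hσ
    obtain ⟨h1, rfl⟩ := hF' σ hσ
    exact hl ▸ (hT σ h1).2 i0 h0 l i hl' hi
  generalize cw (fun j => (X i0)⁻¹ * X j) l i = w at hg hs ⊢
  rw [← sub_eq_zero]
  funext k
  by_contra hα
  have h1 := fin_norm hα (pow_ne_zero N h.I0) (hg.int k)
  have h2 : ∀ σ : K →+* ℂ, Real.log ‖σ ((w.val *ᵥ p - p) k)‖ ≤
      Real.log (2 * C) + N * Real.log (h.ψ σ) - if σ ∈ F then J * Real.log 2 else 0 := by
    intro σ
    have a1 : 0 < ‖σ ((w.val *ᵥ p - p) k)‖ := norm_pos_iff.2 ((map_ne_zero σ).2 hα)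
    have a2 := h.coord w σ k
    have a3 : 1 ≤ h.ψ σ ^ N := one_le_pow₀ (h.ψ1 σ)
    have a4 : 0 < C := one_pos.trans_le hC
    rw [← Real.log_pow, ← Real.log_mul (by positivity) (by positivity)]
    split_ifs with hσ
    · rw [← Real.log_pow, ← Real.log_div (by positivity) (by positivity)]
      refine Real.log_le_log a1 (a2.trans ?_)
      rw [div_eq_mul_one_div, ← _root_.one_div_pow]
      exact mul_le_mul (by nlinarith) (hs σ hσ) (norm_nonneg _) (by positivity)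
    · rw [sub_zero]
      refine Real.log_le_log a1 (a2.trans ?_)
      have a5 := norm_sub_le (h.ρ σ w).val 1
      rw [CStarRing.norm_one] at a5
      have a6 := (hg.1 σ).1
      rw [mul_comm 2, mul_assoc]
      exact mul_le_mul_of_nonneg_left (by linarith) a4.le
  have h3 := Finset.sum_le_sum fun σ (_ : σ ∈ Finset.univ) => h2 σ
  rw [Finset.sum_sub_distrib, Finset.sum_add_distrib, Finset.sum_const, Finset.card_univ,
    ← Finset.mul_sum, Finset.sum_ite_mem, Finset.univ_inter, Finset.sum_const, nsmul_eq_mul,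
    nsmul_eq_mul] at h3
  rw [map_pow, Nat.cast_pow, Real.log_pow] at h1
  have h4 := mul_le_mul_of_nonneg_left h.IN N0.le
  have h5 := mul_le_mul_of_nonneg_left h.ψs N0.le
  have h6 := mul_le_mul_of_nonneg_right hF (mul_nonneg (Nat.cast_nonneg J) l2.le)
  have h7 := mul_lt_mul_of_pos_left hJ d0
  have h8 := mul_le_mul_of_nonneg_left η2 d0.le
  linarith

end Pool.Agent.GR.MP
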