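import Pool.Agent.Lib.MP_aa40d3_nt.MP.ADef

/-! Commutators of close elements are small. -/

open Matrix
open scoped Matrix.Norms.L2Operator

namespace Pool.Agent.GR.MP

theorem comma_inv {A : Type} [NormedRing A] [NormOneClass A] (a : Aˣ)
    (h : ‖a.val - 1‖ ≤ 1 / 16) : ‖(a⁻¹).val‖ ≤ 2 := by
  have e : (a⁻¹).val = 1 - (a⁻¹).val * (a.val - 1) := by
    rw [mul_sub, Units.inv_mul, mul_one, sub_sub_cancel]
  have h1 : ‖(a⁻¹).val‖ ≤ 1 + ‖(a⁻¹).val‖ * (1 / 16) := by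
    calc ‖(a⁻¹).val‖ = ‖1 - (a⁻¹).val * (a.val - 1)‖ := congrArg norm e
      _ ≤ ‖(1 : A)‖ + ‖(a⁻¹).val * (a.val - 1)‖ := norm_sub_le _ _
      _ ≤ 1 + ‖(a⁻¹).val‖ * (1 / 16) := by
        rw [norm_one]
        exact add_le_add le_rfl ((norm_mul_le _ _).trans
          (mul_le_mul_of_nonneg_left h (norm_nonneg _)))
  linarith

theorem comma_comm {A : Type} [NormedRing A] [NormOneClass A] (a b : Aˣ)
    (ha : ‖a.val - 1‖ ≤ 1 / 16) (hb : ‖b.val - 1‖ ≤ 1 / 16) :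
    ‖(a * b * a⁻¹ * b⁻¹).val - 1‖ ≤ ‖b.val - 1‖ / 2 := by
  have e : (a * b * a⁻¹ * b⁻¹).val - 1 =
      ((a.val - 1) * (b.val - 1) - (b.val - 1) * (a.val - 1)) * (a⁻¹).val * (b⁻¹).val := by
    have e1 : (a.val - 1) * (b.val - 1) - (b.val - 1) * (a.val - 1) =
        a.val * b.val - b.val * a.val := by noncomm_ring
    rw [e1, sub_mul, sub_mul, Units.mul_inv_cancel_right, Units.mul_inv]
    simp only [Units.val_mul]
  have h1 := comma_inv a ha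
  have h2 := comma_inv b hb
  have hb0 := norm_nonneg (b.val - 1)
  have h3 : ‖(a.val - 1) * (b.val - 1) - (b.val - 1) * (a.val - 1)‖ ≤ ‖b.val - 1‖ / 8 := by
    have h4 : ‖(a.val - 1) * (b.val - 1)‖ ≤ 1 / 16 * ‖b.val - 1‖ :=
      (norm_mul_le _ _).trans (mul_le_mul_of_nonneg_right ha hb0)
    have h5 : ‖(b.val - 1) * (a.val - 1)‖ ≤ ‖b.val - 1‖ * (1 / 16) :=
      (norm_mul_le _ _).trans (mul_le_mul_of_nonneg_left ha hb0)
    have h6 := norm_sub_le ((a.val - 1) * (b.val - 1)) ((b.val - 1) * (a.val - 1))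
    linarith
  rw [e]
  calc _ ≤ ‖(a.val - 1) * (b.val - 1) - (b.val - 1) * (a.val - 1)‖ * ‖(a⁻¹).val‖ *
        ‖(b⁻¹).val‖ :=
        (norm_mul_le _ _).trans (mul_le_mul_of_nonneg_right (norm_mul_le _ _) (norm_nonneg _))
    _ ≤ ‖b.val - 1‖ / 8 * 2 * 2 := by gcongr
    _ = ‖b.val - 1‖ / 2 := by ring

theorem comma_cw {A ι : Type} [NormedRing A] [NormOneClass A] {u : ι → Aˣ} {T : Set ι}
    (hu : ∀ j ∈ T, ‖(u j).val - 1‖ ≤ 1 / 16) {i : ι} (hi : i ∈ T) (l : List ι)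
    (hl : ∀ j ∈ l, j ∈ T) : ‖(cw u l i).val - 1‖ ≤ (1 / 2) ^ l.length / 16 := by
  induction l with
  | nil => simpa [cw] using hu i hi
  | cons j l ih =>
    have h1 := ih fun k hk => hl k (List.mem_cons_of_mem _ hk)
    have h2 : ((1 : ℝ) / 2) ^ l.length ≤ 1 := pow_le_one₀ (by norm_num) (by norm_num)
    have h3 := comma_comm (u j) (cw u l i) (hu j (hl j List.mem_cons_self)) (by linarith)
    rw [List.length_cons, pow_succ]
    show ‖(u j * cw u l i * (u j)⁻¹ * (cw u l i)⁻¹).val - 1‖ ≤ _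
    linarith

/-- `‖u j - 1‖ ≤ 1 / 16` gives `‖(u j)⁻¹‖ ≤ 2`, and `a b a⁻¹ b⁻¹ - 1 =
((a - 1) (b - 1) - (b - 1) (a - 1)) a⁻¹ b⁻¹`; prove the bound `(1 / 2) ^ l.length / 16`. -/
theorem cw_small {A ι : Type} [NormedRing A] [NormOneClass A] {u : ι → Aˣ} {T : Set ι}
    (hu : ∀ j ∈ T, ‖(u j).val - 1‖ ≤ 1 / 16) {l : List ι} (hl : ∀ j ∈ l, j ∈ T) {i : ι}
    (hi : i ∈ T) : ‖(cw u l i).val - 1‖ ≤ (1 / 2) ^ l.length := by
  have h1 := comma_cw hu hi l hl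
  have h2 : (0 : ℝ) ≤ (1 / 2) ^ l.length := by positivity
  linarith

/-- Cover the closed ball of radius two by `N` balls of radius `1 / 64`, `M = N * t`; pigeonhole. -/
theorem comm_small (n t : ℕ) [NeZero n] : ∃ M : ℕ, ∀ x : Fin M → (Matrix (Fin n) (Fin n) ℂ)ˣ,
    (∀ i, ‖(x i).val‖ ≤ 2 ∧ ‖((x i)⁻¹).val‖ ≤ 2) → ∃ T : Finset (Fin M), T.card = t ∧
      ∀ i0 ∈ T, ∀ (l : List (Fin M)) (i : Fin M), (∀ j ∈ l, j ∈ T) → i ∈ T →
        ‖(cw (fun j => (x i0)⁻¹ * x j) l i).val - 1‖ ≤ (1 / 2) ^ l.length := by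
  classical
  have : ProperSpace (Matrix (Fin n) (Fin n) ℂ) := FiniteDimensional.proper ℂ _
  obtain ⟨c, hcf, hc⟩ := Metric.totallyBounded_iff.1
    (isCompact_closedBall (0 : Matrix (Fin n) (Fin n) ℂ) 2).totallyBounded (1 / 64) (by norm_num)
  have hc' : ∀ y : Matrix (Fin n) (Fin n) ℂ, ‖y‖ ≤ 2 → ∃ z ∈ hcf.toFinset, ‖y - z‖ < 1 / 64 := by
    intro y hy
    have h1 := hc (mem_closedBall_zero_iff.2 hy)
    simp only [Set.mem_iUnion, Metric.mem_ball, dist_eq_norm] at h1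
    obtain ⟨z, hz, h2⟩ := h1
    exact ⟨z, hcf.mem_toFinset.2 hz, h2⟩
  have hne : hcf.toFinset.Nonempty := by
    obtain ⟨z, hz, -⟩ := hc' 0 (by simp)
    exact ⟨z, hz⟩
  refine ⟨hcf.toFinset.card * t, fun x hx => ?_⟩
  choose f hf1 hf2 using fun i => hc' (x i).val (hx i).1
  obtain ⟨z, -, hz⟩ := Finset.exists_le_card_fiber_of_mul_le_card_of_maps_to
    (s := Finset.univ) (t := hcf.toFinset) (f := f) (n := t) (fun i _ => hf1 i) hne (by simp)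
  obtain ⟨T, hT, hTc⟩ := Finset.exists_subset_card_eq hz
  refine ⟨T, hTc, fun i0 hi0 l i hl hi => ?_⟩
  refine cw_small (T := (T : Set _)) (fun j hj => ?_) hl hi
  have e0 : f i0 = z := (Finset.mem_filter.1 (hT hi0)).2
  have ej : f j = z := (Finset.mem_filter.1 (hT hj)).2
  have h0 := hf2 i0
  have hj' := hf2 j
  rw [e0] at h0
  rw [ej] at hj'
  have h1 : ‖(x j).val - (x i0).val‖ ≤ 1 / 32 := by
    have h2 := norm_sub_le ((x j).val - z) ((x i0).val - z)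
    rw [sub_sub_sub_cancel_right] at h2
    linarith
  have e : ((x i0)⁻¹ * x j).val - 1 = ((x i0)⁻¹).val * ((x j).val - (x i0).val) := by
    rw [mul_sub, Units.inv_mul, Units.val_mul]
  rw [e]
  calc _ ≤ ‖((x i0)⁻¹).val‖ * ‖(x j).val - (x i0).val‖ := norm_mul_le _ _
    _ ≤ 2 * (1 / 32) := mul_le_mul (hx i0).2 h1 (norm_nonneg _) (by norm_num)
    _ = 1 / 16 := by norm_num

end Pool.Agent.GR.MP
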