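import Pool.Agent.Lib.MP_aa40d3_nt.MP.Stmt
import Pool.Agent.Lib.MP_aa40d3_nt.MR.PrimA

/-! Affine changes of the variable; multiplicities. -/

open Polynomial Matrix

namespace Pool.Agent.GR.MP

variable {n r : ℕ}

/-- Model: `Prim.aff` (MR/PrimA.lean). The rank is preserved by the semilinear bijection
(`rank_eq_of_equiv_equiv`). -/
theorem Fac.aff {t t' : Fin n → ℂ} {c b : ℂ} (hc : c ≠ 0) (ht : ∀ i, t i = c * t' i + b)
    {A : Fin n → Matrix (Fin r) (Fin r) ℂ} {s : ℕ} (h : Fac t' A s) : Fac t A s := by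
  obtain ⟨W', hW', hmul, hrk⟩ := h
  have : Invertible c := invertibleOfNonzero hc
  let φ : ℂ[X] →+* ℂ[X] := compRingHom (C c * X + C b)
  have hφ : ∀ q, φ q = q.comp (C c * X + C b) := fun q => rfl
  have hψ : ∀ q : ℂ[X], algEquivCMulXAddC c b q = φ q := fun q => by
    rw [algEquivCMulXAddC_apply, hφ, comp_eq_aeval]
  let M : Matrix (Fin r) (Fin r) ℂ[X] →+* Matrix (Fin r) (Fin r) ℂ[X] := φ.mapMatrix
  have hM : ∀ Φ x y, M Φ x y = φ (Φ x y) := fun Φ x y => rfl
  have hsm : ∀ (q : ℂ[X]) Φ, M (q • Φ) = φ q • M Φ := fun q Φ => Matrix.ext fun x y => by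
    rw [hM, Matrix.smul_apply, Matrix.smul_apply, smul_eq_mul, smul_eq_mul, map_mul, hM]
  have hs : ∀ Ψ, ∃ Φ, M Φ = Ψ := fun Ψ =>
    ⟨Ψ.map (algEquivCMulXAddC c b).symm, Matrix.ext fun x y => by
      rw [hM, Matrix.map_apply, ← hψ, AlgEquiv.apply_symm_apply]⟩
  have hi : Function.Injective M := fun Φ Ψ e => Matrix.ext fun x y =>
    (algEquivCMulXAddC c b).injective (by rw [hψ, hψ, ← hM, ← hM, e])
  have h2 : (C c : ℂ[X]) • M (pm t A) = (C c ^ n : ℂ[X]) • pm t' A :=
    Matrix.ext fun x y => aff_pm ht A x y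
  have h3 : ∀ Φ, (M Φ).map derivative = (C c : ℂ[X]) • M (Φ.map derivative) := fun Φ =>
    Matrix.ext fun x y => by
      rw [Matrix.map_apply, Matrix.smul_apply, hM, hM, Matrix.map_apply, hφ, hφ, derivative_comp,
        derivative_add, derivative_C, derivative_C_mul_X, add_zero, smul_eq_mul]
  let W : Submodule ℂ[X] (Matrix (Fin r) (Fin r) ℂ[X]) :=
    { carrier := {Φ | M Φ ∈ W'}
      add_mem' := fun {u v} hu hv => by
        change M (u + v) ∈ W'
        rw [map_add]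
        exact W'.add_mem hu hv
      zero_mem' := by
        change M 0 ∈ W'
        rw [map_zero]
        exact W'.zero_mem
      smul_mem' := fun q u hu => by
        change M (q • u) ∈ W'
        rw [hsm]
        exact W'.smul_mem _ hu }
  have hmem : ∀ Φ, Φ ∈ W ↔ M Φ ∈ W' := fun Φ => Iff.rfl
  refine ⟨W, fun Φ hΦ => ?_, fun Φ hΦ Ψ hΨ => ?_, ?_⟩
  · rw [hmem] at hΦ ⊢
    have h1 := W'.smul_mem (C c⁻¹) (W'.smul_mem (C c ^ n) (hW' _ hΦ))
    have e : (C c ^ n : ℂ[X]) • (dl t' • (M Φ).map derivative - (pm t' A * M Φ - M Φ * pm t' A)) =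
        (C c : ℂ[X]) • M (dl t • Φ.map derivative - (pm t A * Φ - Φ * pm t A)) := by
      rw [map_sub, map_sub, map_mul, map_mul, hsm, hφ, aff_dl ht, h3, smul_sub, smul_sub, smul_sub,
        smul_sub, ← Matrix.smul_mul, ← Matrix.smul_mul (C c), ← Matrix.mul_smul,
        ← Matrix.mul_smul _ (C c), h2, smul_smul, smul_smul, smul_smul, mul_comm (C c)]
    rwa [e, smul_smul, ← map_mul, inv_mul_cancel₀ hc, map_one, one_smul] at h1
  · rw [hmem, map_mul]
    exact hmul _ hΦ _ hΨ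
  · let j : W →+ W' :=
      { toFun := fun Φ => ⟨M Φ.1, Φ.2⟩
        map_zero' := Subtype.ext (map_zero M)
        map_add' := fun u v => Subtype.ext (map_add M u.1 v.1) }
    have hj : Function.Bijective j := ⟨fun u v e => Subtype.ext (hi (congrArg Subtype.val e)),
      fun Ψ => (hs Ψ.1).elim fun Φ e => ⟨⟨Φ, (hmem Φ).2 (e ▸ Ψ.2)⟩, Subtype.ext e⟩⟩
    rw [← hrk, Module.finrank, Module.finrank, rank_eq_of_equiv_equiv (algEquivCMulXAddC c b)
      (AddEquiv.ofBijective j hj) (algEquivCMulXAddC c b).bijective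
      fun q u => Subtype.ext ((hsm q u.1).trans (by rw [hψ]; rfl))]

theorem faca_roots (b : Fin r → ℂ) : (∏ j, (X - C (b j))).roots = Finset.univ.val.map b := by
  rw [← roots_multiset_prod_X_sub_C (Finset.univ.val.map b), Multiset.map_map]
  rfl

/-- The eigenvalues of `A` are the `a j / D` (`charpoly_affine`, see `eps_prod_ne`), and
`exp (2 π i x) = exp (2 π i lam)` iff `x ∈ lam + ℤ`. -/
theorem mult_eq {A : Matrix (Fin r) (Fin r) ℂ} {D : ℕ} (hD : 0 < D) {a : Fin r → ℤ}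
    (h : ((D : ℂ) • A).charpoly = ∏ j, (X - C (a j : ℂ))) (lam : ℂ) :
    mult A lam = (∏ j, (X - C (Complex.exp (2 * Real.pi * Complex.I *
      (((a j : ℚ) / D : ℚ) : ℂ))))).rootMultiplicity
        (Complex.exp (2 * Real.pi * Complex.I * lam)) := by
  classical
  have hD' : (D : ℂ) ≠ 0 := Nat.cast_ne_zero.2 hD.ne'
  have h1 := charpoly_affine (inv_ne_zero hD') 0 h
  rw [smul_smul, inv_mul_cancel₀ hD', one_smul, zero_smul, add_zero] at h1
  have e : ∀ j, (((a j : ℚ) / D : ℚ) : ℂ) = (D : ℂ)⁻¹ * a j + 0 := fun j => by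
    push_cast
    ring
  simp only [e]
  rw [mult, h1, ← count_roots, faca_roots, faca_roots, Multiset.count_map, Multiset.countP_map]
  refine congrArg _ (Multiset.filter_congr fun j _ => ?_)
  rw [eq_comm (a := Complex.exp _), Complex.exp_eq_exp_iff_exists_int]
  refine exists_congr fun z => ⟨fun k => by rw [k]; ring, fun k => ?_⟩
  exact mul_left_cancel₀ Complex.two_pi_I_ne_zero (k.trans (by ring))

end Pool.Agent.GR.MP
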