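import Pool.Agent.Lib.MP_aa40d3_nt.MR.Frame
import Pool.Agent.Lib.MP_aa40d3_nt.MR.Jordan
import Pool.Agent.Lib.MP_aa40d3_nt.MP.ADef

/-! Many points: definitions for the group theoretic part. -/

open Polynomial Matrix

namespace Pool.Agent.GR.MP

variable {r : ℕ}

/-- A space of matrices that is invariant under conjugation. -/
def InvS (Γ : Subgroup (GLr r)) (B : Submodule ℂ (Matrix (Fin r) (Fin r) ℂ)) : Prop :=
  ∀ γ ∈ Γ, ∀ x ∈ B, γ.val * x * (γ⁻¹).val ∈ B

/-- An invariant algebra of dimension `s ^ 2`. -/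
def FacT (Γ : Subgroup (GLr r)) (s : ℕ) : Prop :=
  ∃ B : Submodule ℂ (Matrix (Fin r) (Fin r) ℂ), InvS Γ B ∧ (∀ x ∈ B, ∀ y ∈ B, x * y ∈ B) ∧
    Module.finrank ℂ B = s ^ 2

/-- The multiplicities of the eigenvalues are not all divisible by the rank of a tensor factor. -/
def Cop (Γ : Subgroup (GLr r)) (x : GLr r) : Prop :=
  ∀ s, 2 ≤ s → FacT Γ s → ∃ μ : ℂ, ¬ s ∣ x.val.charpoly.rootMultiplicity μ

/-- The intersection of the spans of the subgroups of finite index. -/
noncomputable def Bsp (H : Subgroup (GLr r)) : Submodule ℂ (Matrix (Fin r) (Fin r) ℂ) :=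
  ⨅ H' ∈ {H' : Subgroup (GLr r) | H' ≤ H ∧ H'.relIndex H ≠ 0}, spn H'

/-- The span of the elements that are close to scalars. -/
noncomputable def Nsp (H : Subgroup (GLr r)) : Submodule ℂ (Matrix (Fin r) (Fin r) ℂ) :=
  Submodule.span ℂ (Units.val '' {x | x ∈ H ∧ Near x})

/-- Contains an element with the property `Cop`. -/
def OkC (Γ H : Subgroup (GLr r)) : Prop := ∃ x ∈ H, Cop Γ x

open Classical in
/-- The level. -/
noncomputable def nuC (J : ℕ) (H : Subgroup (GLr r)) : ℕ :=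
  if Finite H then (if pc H ≤ J then pc H else J + Module.finrank ℂ (Nsp H))
  else J + r * r + Module.finrank ℂ (Bsp H)

open Classical in
/-- The invariant. -/
noncomputable def invC (J : ℕ) (H : Subgroup (GLr r)) : Set (Matrix (Fin r) (Fin r) ℂ) :=
  if Finite H then (if pc H ≤ J then cone H else Nsp H) else Bsp H

/-- `B` is a full matrix algebra. -/
structure MA (B : Submodule ℂ (Matrix (Fin r) (Fin r) ℂ)) (s : ℕ) where
  e : Matrix (Fin s) (Fin s) ℂ →ₐ[ℂ] Matrix (Fin r) (Fin r) ℂ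
  inj : Function.Injective e
  mem : ∀ x, x ∈ B ↔ ∃ y, e y = x

/-- `b` induces the same automorphism of the matrix algebra as `γ`. -/
def MA.Lf {B : Submodule ℂ (Matrix (Fin r) (Fin r) ℂ)} {s : ℕ} (m : MA B s) (γ : GLr r)
    (b : GLr s) : Prop :=
  ∀ y, γ.val * m.e y * (γ⁻¹).val = m.e (b.val * y * (b⁻¹).val)

end Pool.Agent.GR.MP
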