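import Pool.Agent.Lib.MP_aa40d3_nt.MP.Stmt
import Pool.Agent.Lib.MP_aa40d3_nt.MP.GDef
import Pool.Agent.Lib.MP_aa40d3_nt.MR.PrimT

/-! Invariant algebras of the monodromy group give tensor factors. -/

open Polynomial Matrix Set Filter Topology
open scoped Matrix.Norms.Operator

namespace Pool.Agent.GR.MP

variable {n r : ℕ} [NeZero r]

/-- The first part of the proof of `primT_of_prim` (MR/PrimT.lean), copied. -/
theorem fact_onto {t : Fin n → ℂ} {g : Fin n → (Mat r)ˣ} {D : ℕ} (hD : 0 < D)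
    (hζ : ∀ a, (g a).val ^ D = 1) {U : Set ℂ} {x₀ : ℂ} (hx₀ : x₀ ∈ U) (hne : ∀ i, x₀ ≠ t i)
    {Y : ℂ → Mat r} (hY0 : Y x₀ = 1) (he : ExtProp t g U Y) {Z : Submodule ℂ (Mat r)}
    (hZ : InvS (Subgroup.closure (Set.range g)) Z) {z₀ : Mat r} (hz₀ : z₀ ∈ Z) :
    ∃ Φ ∈ primW U Y Z, ∃ c : ℂ, c ≠ 0 ∧ Φ.map (eval x₀) = c • z₀ := by
  obtain ⟨Q, hQ1, hQ2⟩ := mono_proj (Z.map (vecL r))
  have hQ : Q * Q = Q := by
    refine Matrix.ext_iff_mulVec.2 fun v => ?_
    rw [← mulVec_mulVec, hQ2 _ (hQ1 v)]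
  have hV : ∀ a, ∀ v ∈ Z.map (vecL r), adM (g a).val *ᵥ v ∈ Z.map (vecL r) := by
    rintro a _ ⟨x, hx, rfl⟩
    refine ⟨(g a).val * x * (g a).val.adjugate, ?_, (adM_mulVec _ x).symm⟩
    have e : (g a).val.adjugate = (g a).val.det • ((g a)⁻¹).val := by
      rw [← one_mul (g a).val.adjugate, ← (g a).inv_mul, Matrix.mul_assoc, mul_adjugate,
        mul_smul_comm, mul_one]
    rw [e, mul_smul_comm]
    exact Z.smul_mem _ (hZ _ (Subgroup.subset_closure ⟨a, rfl⟩) x hx)
  have hg : ∀ a, Q * adM (g a).val * Q = adM (g a).val * Q := fun a => by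
    refine Matrix.ext_iff_mulVec.2 fun v => ?_
    rw [← mulVec_mulVec, ← mulVec_mulVec, ← mulVec_mulVec, hQ2 _ (hV a _ (hQ1 v))]
  have hd : ∀ a, (Q * adM (g a).val * Q + (1 - Q)).det ^ D = 1 := fun a =>
    mono_deth2 hQ (hg a) (by rw [adM_pow, hζ, adM_one])
  obtain ⟨m, q, hq⟩ := mono_unif (ι := Fin (r * r)) (U := U) (dl t)
    (fun p x => (monoP Q D (adM (Y x)) *ᵥ vecM z₀) p) fun p =>
      he _ (primt_P Q D (vecM z₀) p) fun M a => by
        rw [Units.val_mul, adM_mul, mono_P_inv hD hQ (hg a) (hd a)]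
  let Φ : Matrix (Fin r) (Fin r) ℂ[X] := Matrix.of fun a b => q (finProdFinEquiv (a, b))
  have hΦ : Φ ∈ primW U Y Z := by
    intro x hx
    obtain ⟨z, hz, e⟩ := hQ1 ((adM (Y x) * Q + (1 - Q)).adjugate *ᵥ vecM z₀)
    have e' : vecM z = Q *ᵥ ((adM (Y x) * Q + (1 - Q)).adjugate *ᵥ vecM z₀) := e
    refine ⟨((dl t).eval x ^ m * (adM (Y x) * Q + (1 - Q)).det ^ (D - 1) * (Y x).det) • z,
      Z.smul_mem _ hz, ?_⟩
    have e2 : Φ.map (eval x) = ((dl t).eval x ^ m * (adM (Y x) * Q + (1 - Q)).det ^ (D - 1)) •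
        (Y x * z * (Y x).adjugate) := by
      ext a b
      change (q (finProdFinEquiv (a, b))).eval x = _
      rw [← hq _ x hx, monoP, smul_mulVec, ← mulVec_mulVec,
        ← mulVec_mulVec, ← e', adM_mulVec, Pi.smul_apply, vecM_apply, Matrix.smul_apply,
        smul_eq_mul, smul_eq_mul, ← mul_assoc]
    rw [e2, smul_mul_assoc, Matrix.mul_assoc, adjugate_mul, mul_smul_comm, mul_one, smul_smul,
      mul_smul_comm]
  refine ⟨Φ, hΦ, (dl t).eval x₀ ^ m, pow_ne_zero m (mono_dl_ne t hne), ?_⟩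
  ext a b
  have h1 := hq (finProdFinEquiv (a, b)) x₀ hx₀
  have e2 : monoP Q D (adM (Y x₀)) = Q := by simp [monoP, hY0, adM_one]
  rw [e2, hQ2 (vecM z₀) ⟨z₀, hz₀, rfl⟩, vecM_apply] at h1
  exact h1.symm

section Rows

variable {ι κ : Type} [Fintype ι] [Fintype κ] [DecidableEq ι]

theorem factb_inv {K : Type} [Field K] (A : Matrix ι κ K) (h : LinearIndependent K A.row) :
    ∃ B : Matrix κ ι K, A * B = 1 := by
  obtain ⟨g, hg⟩ := A.vecMulLinear.exists_leftInverse_of_injective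
    (LinearMap.ker_eq_bot.2 (Matrix.vecMul_injective_iff.2 h))
  classical
  refine ⟨LinearMap.toMatrixRight' g, LinearMap.toMatrixRight'.symm.injective ?_⟩
  rw [← Matrix.toLinearMapRight', Matrix.toLinearMapRight'_mul, Matrix.toLinearMapRight'_one, ← hg,
    Matrix.toLinearMapRight', LinearEquiv.symm_apply_apply]
  rfl

theorem factb_li {R : Type} [CommRing R] [IsDomain R] (A : Matrix ι κ R) (B : Matrix κ ι R)
    (h : (A * B).det ≠ 0) : LinearIndependent R A.row := by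
  refine Matrix.vecMul_injective_iff.1 fun v w e => sub_eq_zero.1
    (Matrix.eq_zero_of_vecMul_eq_zero h ?_)
  have e' : v ᵥ* A = w ᵥ* A := e
  rw [← Matrix.vecMul_vecMul, Matrix.sub_vecMul, e', sub_self, Matrix.zero_vecMul]

theorem factb_den {R : Type} [CommRing R] [IsDomain R] (A : Matrix ι κ R)
    (h : LinearIndependent R A.row) : ∃ B : Matrix κ ι R, (A * B).det ≠ 0 := by
  obtain ⟨B, hB⟩ := factb_inv (A.map (algebraMap R (FractionRing R)))
    ((linearIndependent_algebraMap_comp_iff (S := FractionRing R) (v := A.row)).2 h)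
  obtain ⟨b, hb⟩ := IsLocalization.exist_integer_multiples_of_finite (nonZeroDivisors R)
    fun p : κ × ι => B p.1 p.2
  choose f hf using hb
  refine ⟨Matrix.of fun k i => f (k, i), fun e => ?_⟩
  have e1 : (Matrix.of fun k i => f (k, i)).map (algebraMap R (FractionRing R)) =
      algebraMap R (FractionRing R) b • B := by
    ext k i
    exact (hf (k, i)).trans (Algebra.smul_def _ _)
  have e2 := congrArg (algebraMap R (FractionRing R)) e
  rw [RingHom.map_det, RingHom.mapMatrix_apply, Matrix.map_mul, e1, Matrix.mul_smul, hB,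
    Matrix.det_smul, Matrix.det_one, mul_one, map_zero] at e2
  exact pow_ne_zero _ (IsFractionRing.to_map_ne_zero_of_mem_nonZeroDivisors b.2) e2

omit [NeZero r] [Fintype ι] [DecidableEq ι] in
theorem factb_unc {R : Type} [CommRing R] (Φ : ι → Matrix (Fin r) (Fin r) R) :
    LinearIndependent R (Matrix.of fun i (p : Fin r × Fin r) => Φ i p.1 p.2).row ↔
      LinearIndependent R Φ := by
  let f : Matrix (Fin r) (Fin r) R →ₗ[R] (Fin r × Fin r → R) :=
    { toFun := fun M p => M p.1 p.2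
      map_add' := fun _ _ => rfl
      map_smul' := fun _ _ => rfl }
  exact f.linearIndependent_iff
    (LinearMap.ker_eq_bot.2 fun M N e => Matrix.ext fun a b => congrFun e (a, b))

omit [NeZero r] in
theorem factb_up {Φ : ι → Matrix (Fin r) (Fin r) ℂ[X]} {x : ℂ}
    (h : LinearIndependent ℂ fun i => (Φ i).map (eval x)) : LinearIndependent ℂ[X] Φ := by
  obtain ⟨B, hB⟩ := factb_inv _ ((factb_unc _).2 h)
  refine (factb_unc Φ).1 (factb_li _ (B.map C) fun e => ?_)
  have e2 := congrArg (evalRingHom x) e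
  have e3 : (B.map C).map (evalRingHom x) = B := by
    ext k i
    exact eval_C
  rw [RingHom.map_det, RingHom.mapMatrix_apply, Matrix.map_mul, e3, map_zero] at e2
  exact one_ne_zero (Matrix.det_one.symm.trans ((congrArg Matrix.det hB).symm.trans e2))

omit [NeZero r] in
theorem factb_down {Φ : ι → Matrix (Fin r) (Fin r) ℂ[X]} (h : LinearIndependent ℂ[X] Φ)
    {U : Set ℂ} (hU : U.Infinite) :
    ∃ x ∈ U, LinearIndependent ℂ fun i => (Φ i).map (eval x) := by
  obtain ⟨B, hB⟩ := factb_den _ ((factb_unc Φ).2 h)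
  obtain ⟨x, hx, h0⟩ := hU.exists_notMem_finite (finite_setOfPred_isRoot hB)
  refine ⟨x, hx, (factb_unc _).1 (factb_li _ (B.map (evalRingHom x)) fun e => h0 ?_)⟩
  change evalRingHom x _ = 0
  rw [RingHom.map_det, RingHom.mapMatrix_apply, Matrix.map_mul]
  exact e

end Rows

/-- Lower bound: lifts of a basis of `Z` are independent over `ℂ[X]` (divide a relation by a power
of `X - x₀`). Upper bound: at every `x ∈ U` the values lie in a space of dimension `finrank Z`, so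
more than `finrank Z` members are dependent over `ℂ[X]` (a nonzero minor has finitely many
roots). -/
theorem fact_rank {U : Set ℂ} (hU : U.Infinite) {x₀ : ℂ} {Y : ℂ → Mat r}
    (hY : ∀ x ∈ U, (Y x).det ≠ 0) {Z : Submodule ℂ (Mat r)}
    (h : ∀ z₀ ∈ Z, ∃ Φ ∈ primW U Y Z, ∃ c : ℂ, c ≠ 0 ∧ Φ.map (eval x₀) = c • z₀) :
    Module.finrank ℂ[X] (primW U Y Z) = Module.finrank ℂ Z := by
  refine le_antisymm ?_ ?_
  · obtain ⟨f, hf⟩ := exists_linearIndependent_of_le_finrank (R := ℂ[X]) (M := primW U Y Z) le_rfl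
    obtain ⟨x, hx, h1⟩ := factb_down (hf.map' (primW U Y Z).subtype (Submodule.ker_subtype _)) hU
    choose z hz e using fun i => (f i).2 x hx
    have hu : IsUnit (Y x).det := (hY x hx).isUnit
    let L : Z →ₗ[ℂ] Mat r :=
      (LinearMap.mulRight ℂ (Y x)⁻¹) ∘ₗ (LinearMap.mulLeft ℂ (Y x)) ∘ₗ Z.subtype
    have h2 : LinearIndependent ℂ fun i => (⟨z i, hz i⟩ : Z) := by
      have h3 : (L ∘ fun i => (⟨z i, hz i⟩ : Z)) = fun i => (f i).1.map (eval x) := by
        funext i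
        change Y x * z i * (Y x)⁻¹ = _
        rw [← e i, Matrix.mul_nonsing_inv_cancel_right _ _ hu]
      exact LinearIndependent.of_comp L (h3 ▸ h1)
    simpa using h2.fintype_card_le_finrank
  · let b := Module.finBasis ℂ Z
    choose Φ hΦ c hc e using fun i => h (b i) (b i).2
    have h1 : LinearIndependent ℂ fun i => (Φ i).map (eval x₀) := by
      have h2 := (b.linearIndependent.map' Z.subtype (Submodule.ker_subtype _)).units_smul
        fun i => Units.mk0 (c i) (hc i)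
      rw [_root_.funext e]
      exact h2
    have h2 : LinearIndependent ℂ[X] fun i => (⟨Φ i, hΦ i⟩ : primW U Y Z) :=
      LinearIndependent.of_comp (primW U Y Z).subtype (factb_up h1)
    simpa using h2.fintype_card_le_finrank

theorem fac_of_facT {t : Fin n → ℂ} {A : Fin n → Mat r} {g : Fin n → (Mat r)ˣ} {D : ℕ} (hD : 0 < D)
    (hζ : ∀ a, (g a).val ^ D = 1) {U : Set ℂ} (hU : IsOpen U) {x₀ : ℂ} (hx₀ : x₀ ∈ U) {Y : ℂ → Mat r}
    (hY0 : Y x₀ = 1) (hY : ∀ x ∈ U, (∀ i, x ≠ t i) ∧ (Y x).det ≠ 0 ∧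
      HasDerivAt Y (sys t A x * Y x) x) (he : ExtProp t g U Y) {s : ℕ}
    (h : FacT (Subgroup.closure (Set.range g)) s) : Fac t A s := by
  obtain ⟨B, hB, hm, hr⟩ := h
  refine ⟨primW U Y B, primt_stable hU hY B, fun Φ hΦ Ψ hΨ x hx => ?_, ?_⟩
  · obtain ⟨z, hz, e⟩ := hΦ x hx
    obtain ⟨z', hz', e'⟩ := hΨ x hx
    refine ⟨z * z', hm z hz z' hz', ?_⟩
    have e2 : (Φ * Ψ).map (eval x) = Φ.map (eval x) * Ψ.map (eval x) :=
      Matrix.map_mul (f := evalRingHom x)
    rw [e2, Matrix.mul_assoc, e', ← Matrix.mul_assoc, e, Matrix.mul_assoc]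
  · rw [fact_rank (x₀ := x₀) (infinite_of_mem_nhds x₀ (hU.mem_nhds hx₀))
      (fun x hx => (hY x hx).2.1) fun z₀ hz₀ =>
        fact_onto hD hζ hx₀ (hY x₀ hx₀).1 hY0 he hB hz₀, hr]

end Pool.Agent.GR.MP
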