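import Pool.Agent.Lib.MP_aa40d3_nt.MP.GDef

/-! Multiplicities for matrices that commute with a matrix algebra. -/

open Polynomial Matrix

namespace Pool.Agent.GR.MP

variable {r s : ℕ} {B : Submodule ℂ (Matrix (Fin r) (Fin r) ℂ)}

theorem MA.finrank (m : MA B s) : Module.finrank ℂ B = s ^ 2 := by
  have h : B = LinearMap.range m.e.toLinearMap := Submodule.ext fun x => m.mem x
  rw [h, LinearMap.finrank_range_of_inj m.inj, Module.finrank_matrix]
  simp [sq]

theorem MA.scalar (m : MA B 1) : ∀ x ∈ B, ∃ c : ℂ, x = c • (1 : Matrix (Fin r) (Fin r) ℂ) := by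
  intro x hx
  obtain ⟨y, rfl⟩ := (m.mem x).1 hx
  refine ⟨y 0 0, ?_⟩
  have h : y = y 0 0 • (1 : Matrix (Fin 1) (Fin 1) ℂ) := by
    ext i j
    obtain rfl := Subsingleton.elim i 0
    obtain rfl := Subsingleton.elim j 0
    simp
  conv_lhs => rw [h, map_smul, map_one]

/-- The idempotents `e (single i i 1)` restricted to `U` have the same trace, a natural number
(`LinearMap.IsProj.trace` or `IsIdempotentElem`), and their sum is the identity. -/
theorem div_finrank (e : Matrix (Fin s) (Fin s) ℂ →ₐ[ℂ] Matrix (Fin r) (Fin r) ℂ)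
    (U : Submodule ℂ (Fin r → ℂ)) (hU : ∀ y, ∀ v ∈ U, e y *ᵥ v ∈ U) : s ∣ Module.finrank ℂ U := by
  let ρ : Matrix (Fin s) (Fin s) ℂ → Module.End ℂ U := fun y =>
    (toLin' (e y)).restrict fun v hv => hU y v hv
  have h0 : ∀ y (v : U), ((ρ y v : U) : Fin r → ℂ) = e y *ᵥ (v : Fin r → ℂ) := fun _ _ => rfl
  have h1 : ∀ y y', ρ (y * y') = ρ y * ρ y' := fun y y' => by
    ext v k
    rw [Module.End.mul_apply, h0, h0, h0, map_mul, mulVec_mulVec]
  have h2 : ∑ i, ρ (single i i 1) = 1 := by
    ext v k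
    have h : ∑ i, e (single i i 1) = 1 := by
      rw [← map_sum, sum_single_one, map_one]
    have h' : (∑ i, e (single i i 1)) *ᵥ (v : Fin r → ℂ) = v := by rw [h, one_mulVec]
    rw [sum_mulVec] at h'
    simpa [h0] using congrFun h' k
  have h3 : ∀ i j, LinearMap.trace ℂ U (ρ (single i i 1)) =
      LinearMap.trace ℂ U (ρ (single j j 1)) := fun i j => by
    have := LinearMap.trace_mul_comm ℂ (ρ (single i j 1)) (ρ (single j i 1))
    rwa [← h1, ← h1, single_mul_single_same, single_mul_single_same, mul_one] at this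
  have h4 : (Module.finrank ℂ U : ℂ) = ∑ i, LinearMap.trace ℂ U (ρ (single i i 1)) := by
    rw [← map_sum, h2, LinearMap.trace_one]
  rcases Nat.eq_zero_or_pos s with rfl | hs
  · simpa using h4
  · let i0 : Fin s := ⟨0, hs⟩
    have h5 : IsIdempotentElem (ρ (single i0 i0 1)) := by
      rw [IsIdempotentElem, ← h1, single_mul_single_same, mul_one]
    have := Module.Free.of_divisionRing ℂ (LinearMap.range (ρ (single i0 i0 1)))
    have := Module.Free.of_divisionRing ℂ (LinearMap.ker (ρ (single i0 i0 1)))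
    rw [Finset.sum_congr rfl fun i _ => h3 i i0,
      (LinearMap.IsIdempotentElem.isProj_range _ h5).trace, Finset.sum_const, Finset.card_fin,
      nsmul_eq_mul] at h4
    exact ⟨_, by exact_mod_cast h4⟩

/-- `U` = the generalised eigenspace (`LinearMap.finrank_maxGenEigenspace` and `charpoly_toLin'`). -/
theorem div_of_comm (e : Matrix (Fin s) (Fin s) ℂ →ₐ[ℂ] Matrix (Fin r) (Fin r) ℂ)
    {x : Matrix (Fin r) (Fin r) ℂ} (h : ∀ y, e y * x = x * e y) (μ : ℂ) :
    s ∣ x.charpoly.rootMultiplicity μ := by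
  rw [← charpoly_toLin', ← LinearMap.finrank_maxGenEigenspace_eq]
  refine div_finrank e _ fun y v hv => ?_
  have hc : Commute (toLin' x : Module.End ℂ (Fin r → ℂ)) (toLin' (e y)) := by
    rw [Commute, SemiconjBy, Module.End.mul_eq_comp, Module.End.mul_eq_comp, ← toLin'_mul,
      ← toLin'_mul, h]
  exact Module.End.mapsTo_maxGenEigenspace_of_comm hc μ hv

theorem Cop.conj {Γ : Subgroup (GLr r)} {x y : GLr r} (hx : Cop Γ x) (h : IsConj x y) :
    Cop Γ y := by
  obtain ⟨c, rfl⟩ := isConj_iff.1 h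
  intro s hs hF
  have := charpoly_units_conj c x.val
  rw [Units.val_mul, Units.val_mul, coe_units_inv, this]
  exact hx s hs hF

end Pool.Agent.GR.MP
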