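import Pool.Agent.Lib.MP_aa40d3_nt.MP.GDef

/-! Invariant algebras of a primitive group are matrix algebras. -/

open Polynomial Matrix

namespace Pool.Agent.GR.MP

variable {r s : ℕ} {Γ : Subgroup (GLr r)} {B : Submodule ℂ (Matrix (Fin r) (Fin r) ℂ)}

theorem simple_nil {R : Type} [Ring R] [IsArtinianRing R]
    (h : ∀ x ∈ Ring.jacobson R, (∀ y ∈ Ring.jacobson R, x * y = 0) → x = 0) :
    IsSemisimpleRing R := by
  rw [IsArtinianRing.isSemisimpleRing_iff_jacobson]
  obtain ⟨n, hn⟩ := IsArtinianRing.isNilpotent_jacobson_bot (R := R)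
  rw [Ideal.jacobson_bot] at hn
  have key : ∀ k, Ring.jacobson R ^ (k + 1) = ⊥ → Ring.jacobson R = ⊥ := by
    intro k
    induction k with
    | zero => intro h0; rwa [zero_add, Submodule.pow_one] at h0
    | succ k ih =>
      intro h0
      refine ih ((Submodule.eq_bot_iff _).2 fun x hx => ?_)
      refine h x (Ideal.pow_le_self k.succ_ne_zero hx) fun y hy => ?_
      have h2 := Ideal.mul_mem_mul hx hy
      rw [← Submodule.pow_succ, h0] at h2
      exact h2
  refine key n ?_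
  rw [Submodule.pow_succ, hn]
  exact Ideal.bot_mul _

/-- Conjugation as a ring homomorphism of an invariant subalgebra. -/
def simple_cj (A : Subalgebra ℂ (Matrix (Fin r) (Fin r) ℂ)) (γ : GLr r)
    (h : ∀ x ∈ A, γ.val * x * (γ⁻¹).val ∈ A) : A →+* A where
  toFun x := ⟨γ.val * x.1 * (γ⁻¹).val, h _ x.2⟩
  map_one' := Subtype.ext (by simp)
  map_mul' x y := Subtype.ext (by simp [mul_assoc])
  map_zero' := Subtype.ext (by simp)
  map_add' x y := Subtype.ext (by simp [mul_add, add_mul])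

theorem simple_jac (A : Subalgebra ℂ (Matrix (Fin r) (Fin r) ℂ))
    (h : ∀ γ ∈ Γ, ∀ x ∈ A, γ.val * x * (γ⁻¹).val ∈ A) {γ : GLr r} (hγ : γ ∈ Γ) {x : A}
    (hx : x ∈ Ring.jacobson A) : simple_cj A γ (h γ hγ) x ∈ Ring.jacobson A := by
  have : RingHomSurjective (simple_cj A γ (h γ hγ)) := ⟨fun y =>
    ⟨simple_cj A γ⁻¹ (h _ (Γ.inv_mem hγ)) y, Subtype.ext (by simp [simple_cj, mul_assoc])⟩⟩
  exact Ring.le_comap_jacobson (simple_cj A γ (h γ hγ)) hx

theorem simple_ss [NeZero r] (hP : PrimT Γ) (A : Subalgebra ℂ (Matrix (Fin r) (Fin r) ℂ))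
    (h : ∀ γ ∈ Γ, ∀ x ∈ A, γ.val * x * (γ⁻¹).val ∈ A) : IsSemisimpleRing A := by
  have : IsArtinianRing A := IsArtinianRing.of_finite ℂ A
  refine simple_nil fun x hx hxy => ?_
  let Z : Submodule ℂ (Matrix (Fin r) (Fin r) ℂ) :=
    { carrier := {z | ∃ u : A, u.1 = z ∧ u ∈ Ring.jacobson A ∧ ∀ y ∈ Ring.jacobson A, u * y = 0}
      add_mem' := by
        rintro _ _ ⟨u, rfl, hu, hu'⟩ ⟨v, rfl, hv, hv'⟩
        exact ⟨u + v, rfl, add_mem hu hv, fun y hy => by
          rw [add_mul, hu' y hy, hv' y hy, add_zero]⟩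
      zero_mem' := ⟨0, rfl, zero_mem _, fun y _ => zero_mul y⟩
      smul_mem' := by
        rintro c _ ⟨u, rfl, hu, hu'⟩
        refine ⟨c • u, rfl, ?_, fun y hy => by rw [smul_mul_assoc, hu' y hy, smul_zero]⟩
        rw [Algebra.smul_def]
        exact Ideal.mul_mem_left _ _ hu }
  obtain ⟨c, hc⟩ := hP Z (by
    rintro γ hγ _ ⟨u, rfl, hu, hu'⟩
    refine ⟨simple_cj A γ (h γ hγ) u, rfl, simple_jac A h hγ hu, fun y hy => ?_⟩
    have h2 := congrArg (simple_cj A γ (h γ hγ)) (hu' _ (simple_jac A h (Γ.inv_mem hγ) hy))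
    rw [map_mul, map_zero] at h2
    rw [← h2]
    congr 1
    exact Subtype.ext (by simp [simple_cj, mul_assoc])) (by
    rintro _ ⟨u, rfl, hu, hu'⟩ _ ⟨v, rfl, hv, hv'⟩
    have h2 := congrArg Subtype.val ((hu' v hv).trans (hv' u hu).symm)
    exact h2) x.1 ⟨x, rfl, hx, hxy⟩
  have h2 : x.1 * x.1 = 0 := congrArg Subtype.val (hxy x hx)
  rw [hc, smul_mul_smul_comm, mul_one, smul_eq_zero, mul_self_eq_zero] at h2
  rcases h2 with h2 | h2
  · exact Subtype.ext (by rw [hc, h2, zero_smul]; rfl)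
  · exact absurd h2 one_ne_zero

theorem simple_centre (hP : PrimT Γ) (A : Subalgebra ℂ (Matrix (Fin r) (Fin r) ℂ))
    (h : ∀ γ ∈ Γ, ∀ x ∈ A, γ.val * x * (γ⁻¹).val ∈ A) (x : A) (hx : ∀ y : A, x * y = y * x) :
    ∃ c : ℂ, x = c • 1 := by
  let Z : Submodule ℂ (Matrix (Fin r) (Fin r) ℂ) :=
    { carrier := {z | z ∈ A ∧ ∀ y ∈ A, z * y = y * z}
      add_mem' := fun hu hv => ⟨add_mem hu.1 hv.1, fun y hy => by
        rw [add_mul, mul_add, hu.2 y hy, hv.2 y hy]⟩
      zero_mem' := ⟨zero_mem _, fun y _ => by rw [zero_mul, mul_zero]⟩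
      smul_mem' := fun c u hu => ⟨A.smul_mem hu.1 c, fun y hy => by
        rw [smul_mul_assoc, mul_smul_comm, hu.2 y hy]⟩ }
  obtain ⟨c, hc⟩ := hP Z (fun γ hγ u hu => ⟨h γ hγ u hu.1, fun y hy => by
    have h2 := congrArg (fun z => γ.val * z * (γ⁻¹).val) (hu.2 _ (h _ (Γ.inv_mem hγ) y hy))
    simpa [mul_assoc] using h2⟩) (fun u hu v hv => hu.2 v hv.1) x.1
    ⟨x.2, fun y hy => congrArg Subtype.val (hx ⟨y, hy⟩)⟩
  exact ⟨c, Subtype.ext hc⟩

/-- View `B` as a `Subalgebra`. The Jacobson radical is nilpotent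
(`IsArtinianRing.isNilpotent_jacobson_bot`) and invariant under the automorphisms induced by `Γ`;
its last nonzero power has zero products, so it consists of scalars, which are nilpotent. So `B` is
semisimple, a product of matrix algebras
(`IsSemisimpleRing.exists_algEquiv_pi_matrix_of_isAlgClosed`); its centre is commutative and
invariant, so scalar, and there is exactly one factor. -/
theorem exists_MA [NeZero r] (hP : PrimT Γ) (hB : InvS Γ B) (h1 : 1 ∈ B)
    (hm : ∀ x ∈ B, ∀ y ∈ B, x * y ∈ B) : ∃ s, 0 < s ∧ Nonempty (MA B s) := by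
  let A : Subalgebra ℂ (Matrix (Fin r) (Fin r) ℂ) := B.toSubalgebra h1 fun x y hx hy =>
    hm x hx y hy
  have hA : ∀ γ ∈ Γ, ∀ x ∈ A, γ.val * x * (γ⁻¹).val ∈ A := hB
  have := simple_ss hP A hA
  obtain ⟨n, d, hd, ⟨e⟩⟩ := IsSemisimpleRing.exists_algEquiv_pi_matrix_of_isAlgClosed ℂ A
  have hn : Nonempty (Fin n) := by
    by_contra h0
    have := not_nonempty_iff.1 h0
    exact one_ne_zero (e.injective (Subsingleton.elim (e 1) (e 0)))
  obtain ⟨i⟩ := hn
  have hi : ∀ j, j = i := fun j => by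
    by_contra hj
    obtain ⟨c, hc⟩ := simple_centre hP A hA (e.symm (Pi.single i 1)) fun y => e.injective (by
      rw [map_mul, map_mul, e.apply_symm_apply]
      funext k
      by_cases hk : k = i
      · subst hk
        simp
      · simp [Pi.single_eq_of_ne hk])
    have h2 := congrArg e hc
    rw [e.apply_symm_apply, map_smul, map_one] at h2
    have h3 := congrFun h2 i
    have h4 := congrFun h2 j
    rw [Pi.single_eq_same] at h3
    rw [Pi.single_eq_of_ne hj] at h4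
    simp only [Pi.smul_apply, Pi.one_apply] at h3 h4
    have := hd i
    have := hd j
    rcases smul_eq_zero.1 h4.symm with h5 | h5
    · rw [h5, zero_smul] at h3
      exact one_ne_zero h3
    · exact one_ne_zero h5
  have hb : Function.Bijective
      (Pi.evalAlgHom ℂ (fun k => Matrix (Fin (d k)) (Fin (d k)) ℂ) i) :=
    ⟨fun u v huv => funext fun j => by rw [hi j]; exact huv,
      fun u => ⟨Pi.single i u, by simp⟩⟩
  let f := e.trans (AlgEquiv.ofBijective _ hb)
  refine ⟨d i, Nat.pos_of_ne_zero (hd i).ne, ⟨⟨A.val.comp f.symm.toAlgHom,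
    Subtype.val_injective.comp f.symm.injective, fun x => ⟨fun hx => ⟨f ⟨x, hx⟩, ?_⟩, ?_⟩⟩⟩⟩
  · exact congrArg Subtype.val (f.symm_apply_apply ⟨x, hx⟩)
  · rintro ⟨y, rfl⟩
    exact (f.symm y).2

end Pool.Agent.GR.MP
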