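import Pool.Agent.Lib.MP_aa40d3_nt.MP.Bsp
import Pool.Agent.Lib.MP_aa40d3_nt.MP.Div
import Pool.Agent.Lib.MP_aa40d3_nt.MP.Simple

/-! The two finite regimes. -/

open Matrix

namespace Pool.Agent.GR.MP

variable {r : ℕ} {Γ H : Subgroup (GLr r)}

theorem ends_roots {m : ℕ} (hm : 0 < m) : {c : ℂ | c ^ m = 1}.Finite :=
  (Polynomial.nthRoots m (1 : ℂ)).finite_toSet.subset fun _ hc =>
    (Polynomial.mem_nthRoots hm).2 hc

theorem ends_class [NeZero r] [Finite H] (hf : ∀ γ ∈ Γ, actM γ (cone H) = cone H) {x : GLr r}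
    (hx : x ∈ H) : {y | ∃ γ ∈ Γ, γ.val * x.val * (γ⁻¹).val = y}.Finite := by
  have hr : 0 < r := Nat.pos_of_ne_zero (NeZero.ne r)
  have hN : 0 < Nat.card H := Nat.card_pos
  have hdet : ∀ y ∈ H, y.val.det ^ Nat.card H = 1 := fun y hy => by
    have h1 : y ^ Nat.card H = 1 := congrArg Subtype.val (pow_card_eq_one' (x := (⟨y, hy⟩ : H)))
    rw [← det_pow, ← Units.val_pow_eq_pow_val, h1, Units.val_one, det_one]
  have hF := (ends_roots (Nat.mul_pos hr hN)).image2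
    (fun (c : ℂ) (y : GLr r) => c • y.val) (Set.toFinite (H : Set (GLr r)))
  refine hF.subset ?_
  rintro _ ⟨γ, hγ, rfl⟩
  obtain ⟨y', hy', c, hc⟩ : γ.val * x.val * (γ⁻¹).val ∈ cone H :=
    hf γ hγ ▸ ⟨x.val, ⟨x, hx, 1, (one_smul _ _).symm⟩, rfl⟩
  refine ⟨c, ?_, y', hy', hc.symm⟩
  have h1 := congrArg (fun x => x.det ^ Nat.card H) hc
  simp only [det_units_conj, det_smul, Fintype.card_fin, mul_pow] at h1
  rwa [hdet _ hx, hdet _ hy', mul_one, ← pow_mul, eq_comm] at h1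

/-- Paper B0. The conjugates of `x ∈ H` are `c • y`, `y ∈ H`, `c ^ (r * card H) = 1` (as in
`finite_of_cone`, MR/GMain.lean); `bsp_comm`, `exists_MA` for `Bsp Γ`, `div_of_comm`, `MA.finrank`,
`MA.scalar`, `finite_of_bsp`. -/
theorem end_cone [NeZero r] [Finite H] (hP : PrimT Γ) (hO : OkC Γ H) {E : ℕ} (hE : 0 < E)
    (hd : ∀ γ ∈ Γ, γ.val.det ^ E = 1) (hf : ∀ γ ∈ Γ, actM γ (cone H) = cone H) : Finite Γ := by
  obtain ⟨x, hx, hc⟩ := hO
  obtain ⟨s, hs, ⟨m⟩⟩ := exists_MA hP (bsp_inv Γ) (bsp_one Γ) (bsp_mul Γ)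
  have hcm := bsp_comm (ends_class hf hx)
  by_cases h2 : 2 ≤ s
  · obtain ⟨μ, hμ⟩ := hc s h2 ⟨Bsp Γ, bsp_inv Γ, bsp_mul Γ, m.finrank⟩
    exact (hμ (div_of_comm m.e (fun y => hcm _ ((m.mem _).2 ⟨y, rfl⟩)) μ)).elim
  · obtain rfl : s = 1 := by omega
    exact finite_of_bsp hE hd m.scalar

/-- Paper B1. The members of `Nsp H` that commute with `Nsp H` form a commutative invariant space
that contains `z`. -/
theorem end_near (hP : PrimT Γ) (hz : ∃ z ∈ Zc H, ¬ IsSc z)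
    (hf : ∀ γ ∈ Γ, actM γ (Nsp H) = Nsp H) : False := by
  let Z : Submodule ℂ (Matrix (Fin r) (Fin r) ℂ) :=
    { carrier := {x | x ∈ Nsp H ∧ ∀ y ∈ Nsp H, x * y = y * x}
      add_mem' := fun ha hb => ⟨(Nsp H).add_mem ha.1 hb.1, fun y hy => by
        rw [add_mul, mul_add, ha.2 y hy, hb.2 y hy]⟩
      zero_mem' := ⟨(Nsp H).zero_mem, fun y _ => by rw [zero_mul, mul_zero]⟩
      smul_mem' := fun c x hx => ⟨(Nsp H).smul_mem c hx.1, fun y hy => by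
        rw [smul_mul_assoc, mul_smul_comm, hx.2 y hy]⟩ }
  obtain ⟨z, hz, hs⟩ := hz
  refine hs (hP Z (fun γ hγ x hx => ⟨?_, fun y hy => ?_⟩) (fun x hx y hy => hx.2 y hy.1) z.val
    ⟨Submodule.subset_span ⟨z, ⟨hz.1, hz.2.1⟩, rfl⟩, fun y hy => ?_⟩)
  · have h1 : γ.val * x * (γ⁻¹).val ∈ actM γ (Nsp H) := ⟨x, hx.1, rfl⟩
    rwa [hf γ hγ] at h1
  · have h1 : y ∈ actM γ (Nsp H) := by
      rw [hf γ hγ]
      exact hy
    obtain ⟨w, hw, rfl⟩ := h1
    have h2 : ∀ a b : Matrix (Fin r) (Fin r) ℂ,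
        γ.val * a * (γ⁻¹).val * (γ.val * b * (γ⁻¹).val) = γ.val * (a * b) * (γ⁻¹).val := by
      intro a b
      simp only [mul_assoc, Units.inv_mul_cancel_left]
    simp only [h2, hx.2 w hw]
  · induction hy using Submodule.span_induction with
    | mem y hy =>
      obtain ⟨w, hw, rfl⟩ := hy
      exact congrArg Units.val (hz.2.2 w hw.1 hw.2)
    | zero => rw [zero_mul, mul_zero]
    | add a b _ _ ha hb => rw [add_mul, mul_add, ha, hb]
    | smul c a _ ha => rw [smul_mul_assoc, mul_smul_comm, ha]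

end Pool.Agent.GR.MP
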