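import Pool.Agent.Lib.MP_aa40d3_nt.MP.Bsp
import Pool.Agent.Lib.MP_aa40d3_nt.MP.Div

/-! The level function. -/

open Matrix

namespace Pool.Agent.GR.MP

variable {n r : ℕ}

theorem nsp_one (H : Subgroup (GLr r)) : (1 : Matrix (Fin r) (Fin r) ℂ) ∈ Nsp H := by
  refine Submodule.subset_span ⟨1, ⟨H.one_mem, ?_⟩, rfl⟩
  rw [Near, Units.val_one, Matrix.trace_one, Fintype.card_fin, Complex.norm_natCast]
  linarith

theorem nsp_mono {H H' : Subgroup (GLr r)} (hle : H ≤ H') : Nsp H ≤ Nsp H' := by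
  exact Submodule.span_mono (Set.image_mono fun x hx => ⟨hle hx.1, hx.2⟩)

theorem nsp_cj (γ : GLr r) (H : Subgroup (GLr r)) :
    Nsp (cj γ H) = (Nsp H).map (spanCj γ).toLinearMap := by
  rw [Nsp, Nsp, Submodule.map_span]
  congr 1
  ext x
  constructor
  · rintro ⟨_, ⟨⟨y, hy, rfl⟩, h⟩, rfl⟩
    refine ⟨_, ⟨y, ⟨hy, ?_⟩, rfl⟩, rfl⟩
    have h1 := frame_near γ⁻¹ h
    change Near (γ⁻¹ * (γ * y * γ⁻¹) * γ⁻¹⁻¹) at h1
    rwa [show γ⁻¹ * (γ * y * γ⁻¹) * γ⁻¹⁻¹ = y by group] at h1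
  · rintro ⟨_, ⟨y, hy, rfl⟩, rfl⟩
    exact ⟨γ * y * γ⁻¹, ⟨frame_mem_cj γ hy.1, frame_near γ hy.2⟩, rfl⟩

/-- Models: `levA` (MR/Span), `levB` (MR/GMain). The three regimes have levels in
`[0, J]`, `[J + 1, J + r * r]`, `[J + r * r + 1, J + 2 * (r * r)]`. -/
theorem levC [NeZero r] (Γ : Subgroup (GLr r)) (J : ℕ) (Mov : Finset (Fin n)) (L0 : List (Fin n))
    (g : Fin n → GLr r) : Lev Mov L0 g (OkC Γ) (nuC J) (invC J) actM (J + 2 * (r * r)) := by
  have hf : ∀ (γ : GLr r) (H : Subgroup (GLr r)), Finite (cj γ H) ↔ Finite H := fun γ H =>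
    (Subgroup.equivMapOfInjective H _ (MulAut.conj γ).injective).toEquiv.finite_iff.symm
  have hle : ∀ B : Submodule ℂ (Matrix (Fin r) (Fin r) ℂ), Module.finrank ℂ B ≤ r * r :=
    fun B => by simpa [Module.finrank_matrix] using B.finrank_le
  have hpos : ∀ B : Submodule ℂ (Matrix (Fin r) (Fin r) ℂ), 1 ∈ B → 0 < Module.finrank ℂ B :=
    fun B h => Submodule.one_le_finrank_iff.2 fun e => one_ne_zero ((Submodule.mem_bot ℂ).1 (e ▸ h))
  have hfin : ∀ H H' : Subgroup (GLr r), H ≤ H' → Finite H' → Finite H := fun H H' h _ =>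
    Finite.of_injective _ (Subgroup.inclusion_injective h)
  refine ⟨actM_one, actM_mul, ?_, fun γ H _ => ?_, fun γ H _ => ?_, fun H _ => ?_,
    fun H H' _ _ h => ?_, fun H H' _ _ h e => ?_, ?_⟩
  · rintro γ H ⟨x, hx, hx'⟩
    exact ⟨γ * x * γ⁻¹, ⟨x, hx, rfl⟩, hx'.conj (isConj_iff.2 ⟨γ, rfl⟩)⟩
  · unfold nuC
    rw [hf γ H, pc_cj, nsp_cj, bsp_cj, LinearEquiv.finrank_map_eq, LinearEquiv.finrank_map_eq]
  · unfold invC
    rw [hf γ H, pc_cj]
    split_ifs
    · exact cone_cj γ H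
    · rw [nsp_cj]
      rfl
    · rw [bsp_cj]
      rfl
  · have := hle (Nsp H)
    have := hle (Bsp H)
    unfold nuC
    split_ifs <;> omega
  · have a1 := hle (Nsp H)
    have a2 := Submodule.finrank_mono (nsp_mono h)
    have a3 := Submodule.finrank_mono (bsp_mono h)
    unfold nuC
    by_cases f' : Finite H'
    · have a4 := pc_mono h
      rw [if_pos f', if_pos (hfin H H' h f')]
      split_ifs <;> omega
    · rw [if_neg f']
      split_ifs <;> omega
  · have a1 := hle (Nsp H)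
    have a2 := hpos _ (nsp_one H')
    have a3 := hpos _ (bsp_one H')
    unfold nuC at e
    unfold invC
    by_cases f' : Finite H'
    · have a4 := pc_mono h
      rw [if_pos f', if_pos (hfin H H' h f')] at e ⊢
      split_ifs at e ⊢
      · exact cone_eq h e
      · omega
      · omega
      · exact congrArg _ (Submodule.eq_of_le_of_finrank_eq (nsp_mono h) (by omega))
    · rw [if_neg f'] at e ⊢
      split_ifs at e ⊢
      · omega
      · omega
      · exact congrArg _ (Submodule.eq_of_le_of_finrank_eq (bsp_mono h) (by omega))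
  · rintro L₁ A B L₂ h - - - ⟨x, hx, hx'⟩ -
    exact ⟨x, cl_mono (fun a ha => List.mem_append_left B ha) hx, hx'⟩

end Pool.Agent.GR.MP
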