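import Pool.Agent.Lib.MP_aa40d3_nt.MP.Lift

/-! The lifted atoms escape. -/

open Matrix

namespace Pool.Agent.GR.MP

variable {n r s : ℕ} {B : Submodule ℂ (Matrix (Fin r) (Fin r) ℂ)}

section

open scoped Pointwise

theorem lifte_smul (b : GLr s) (W : Submodule ℂ (Matrix (Fin s) (Fin s) ℂ)) :
    b • W = W.map (LinearMap.mulLeft ℂ b.val) := rfl

theorem lifte_idx {G X : Type} [Group G] [MulAction G X] {F : Set X} (hF : F.Finite) {W : X}
    (hW : W ∈ F) {K : Subgroup G} (hK : K ≤ MulAction.stabilizer G F) :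
    (MulAction.stabilizer G W).relIndex K ≠ 0 := by
  have e : (MulAction.stabilizer G W).subgroupOf K = MulAction.stabilizer K W := by
    ext x
    rfl
  rw [Subgroup.relIndex, e, MulAction.index_stabilizer]
  refine Set.ncard_ne_zero_of_mem (MulAction.mem_orbit_self W) (hF.subset ?_)
  rintro _ ⟨x, rfl⟩
  exact (MulAction.mem_stabilizer_set' hF).1 (hK x.2) hW

theorem lifte_sub (m : MA B s) {h : Fin n → GLr r} {b : Fin n → GLr s} {A : List (Fin n)}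
    (hl : ∀ a ∈ A, m.Lf (h a) (b a)) {F : Set (Submodule ℂ (Matrix (Fin s) (Fin s) ℂ))}
    (hF : F.Finite) (hs : ∀ a ∈ A, ∀ W ∈ F, W.map (LinearMap.mulLeft ℂ (b a).val) ∈ F)
    {W : Submodule ℂ (Matrix (Fin s) (Fin s) ℂ)} (hW : W ∈ F) :
    ∃ S : Subgroup (GLr r), S.relIndex (cl h A) ≠ 0 ∧
      ∀ γ ∈ S, ∃ β : GLr s, m.Lf γ β ∧ ∀ x ∈ W, β.val * x ∈ W := by
  let P : Subgroup (GLr r × GLr s) :=
    { carrier := {x | m.Lf x.1 x.2}
      one_mem' := MA.Lf.one m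
      mul_mem' := fun h1 h2 => MA.Lf.mul h1 h2
      inv_mem' := fun h1 => MA.Lf.inv h1 }
  let K : Subgroup (GLr r × GLr s) := Subgroup.closure ((fun a => (h a, b a)) '' {a | a ∈ A})
  have hKP : K ≤ P := by
    refine (Subgroup.closure_le _).2 ?_
    rintro _ ⟨a, ha, rfl⟩
    exact hl a ha
  have hK1 : K.map (MonoidHom.fst _ _) = cl h A := by
    rw [MonoidHom.map_closure, Set.image_image]
    rfl
  have hK2 : K.map (MonoidHom.snd _ _) ≤ MulAction.stabilizer (GLr s) F := by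
    rw [MonoidHom.map_closure, Subgroup.closure_le]
    rintro _ ⟨_, ⟨a, ha, rfl⟩, rfl⟩
    exact (MulAction.mem_stabilizer_set' hF).2 fun V hV => hs a ha V hV
  have h1 := lifte_idx hF hW hK2
  rw [← Subgroup.relIndex_comap, ← Subgroup.inf_relIndex_right] at h1
  refine ⟨(P ⊓ (MulAction.stabilizer (GLr s) W).comap (MonoidHom.snd _ _)).map
    (MonoidHom.fst _ _), ?_, ?_⟩
  · rw [← hK1, ← Subgroup.relIndex_comap]
    refine fun e => h1 (Subgroup.relIndex_eq_zero_of_le_left ?_ e)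
    exact fun x hx => ⟨x, ⟨hKP hx.2, hx.1⟩, rfl⟩
  · rintro _ ⟨x, ⟨h2, h3⟩, rfl⟩
    refine ⟨x.2, h2, fun y hy => ?_⟩
    have h4 : x.2 • W = W := h3
    rw [← h4, lifte_smul]
    exact ⟨y, hy, rfl⟩

end

theorem lifte_unit (m : MA B s) {γ : GLr r} (h1 : γ.val ∈ B) (h2 : (γ⁻¹).val ∈ B) :
    ∃ β : GLr s, m.e β.val = γ.val ∧ m.Lf γ β := by
  obtain ⟨y, hy⟩ := (m.mem _).1 h1
  obtain ⟨y', hy'⟩ := (m.mem _).1 h2
  refine ⟨⟨y, y', m.inj ?_, m.inj ?_⟩, hy, fun z => ?_⟩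
  · rw [map_mul, map_one, hy, hy', Units.mul_inv]
  · rw [map_mul, map_one, hy, hy', Units.inv_mul]
  · show γ.val * m.e z * (γ⁻¹).val = m.e (y * z * y')
    rw [map_mul, map_mul, hy, hy']

/-- Paper B2. Suppose all `b a` map the finite family `F` into itself (hence onto, and so do the
inverses). The `γ` that have a lift permuting `F` form a subgroup that contains `H = cl h A`. For
`W ∈ F` the `γ ∈ H` with a lift that maps `W` onto `W` form a subgroup `H₁` of finite index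
(`MA.Lf.unique`; the cosets inject into `F`). With `H₀` from `bsp_ex`, `B ≤ spn (H₀ ⊓ H₁)`, and
`γ = m.e y ∈ H₀ ⊓ H₁` has the lift `y`, so `y W ≤ W` for a spanning set of `y`; `W` contains a
unit, `W = ⊤`. -/
theorem lift_esc (m : MA B s) {h : Fin n → GLr r} {b : Fin n → GLr s} {A : List (Fin n)}
    (hl : ∀ a ∈ A, m.Lf (h a) (b a)) (hB : Bsp (cl h A) = B) : Esc (A.map b) := by
  intro F ⟨W, hW⟩ hF
  by_contra hn
  have hs : ∀ a ∈ A, ∀ V ∈ (F : Set (Submodule ℂ (Matrix (Fin s) (Fin s) ℂ))),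
      V.map (LinearMap.mulLeft ℂ (b a).val) ∈ (F : Set _) := fun a ha V hV => by
    by_contra k
    exact hn ⟨b a, List.mem_map_of_mem ha, V, hV, k⟩
  obtain ⟨S, hS, h1⟩ := lifte_sub m hl F.finite_toSet hs hW
  obtain ⟨H₀, h2, h3, h4⟩ := bsp_ex (cl h A)
  have h5 : B ≤ spn (H₀ ⊓ S) :=
    hB ▸ bsp_le (inf_le_left.trans h2) (Subgroup.relIndex_inf_ne_zero h3 hS)
  have h6 : ∀ γ ∈ H₀, γ.val ∈ B := fun γ hγ => by
    rw [← hB, ← h4]
    exact Submodule.subset_span ⟨γ, hγ, rfl⟩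
  have h7 : ∀ x ∈ spn (H₀ ⊓ S), ∃ y, m.e y = x ∧ ∀ w ∈ W, y * w ∈ W := by
    intro x hx
    induction hx using Submodule.span_induction with
    | mem x hx =>
      obtain ⟨γ, hγ, rfl⟩ := hx
      obtain ⟨β, k1, k2⟩ := lifte_unit m (h6 γ hγ.1) (h6 _ (H₀.inv_mem hγ.1))
      obtain ⟨β', k3, k4⟩ := h1 γ hγ.2
      obtain ⟨c, hc⟩ := k3.unique k2
      refine ⟨β.val, k1, fun w hw => ?_⟩
      rw [hc, smul_mul_assoc]
      exact W.smul_mem c (k4 w hw)
    | zero => exact ⟨0, map_zero _, fun w _ => by rw [zero_mul]; exact W.zero_mem⟩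
    | add x x' _ _ k1 k2 =>
      obtain ⟨y, rfl, k1⟩ := k1
      obtain ⟨y', rfl, k2⟩ := k2
      exact ⟨y + y', map_add _ _ _, fun w hw => by
        rw [add_mul]; exact W.add_mem (k1 w hw) (k2 w hw)⟩
    | smul c x _ k1 =>
      obtain ⟨y, rfl, k1⟩ := k1
      exact ⟨c • y, map_smul _ _ _, fun w hw => by
        rw [smul_mul_assoc]; exact W.smul_mem c (k1 w hw)⟩
  obtain ⟨hne, u, hu⟩ := hF W hW
  refine hne (eq_top_iff.2 fun z _ => ?_)
  obtain ⟨y, k1, k2⟩ := h7 _ (h5 ((m.mem _).2 ⟨z * (u⁻¹).val, rfl⟩))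
  have := k2 _ hu
  rwa [m.inj k1, Units.inv_mul_cancel_right] at this

end Pool.Agent.GR.MP
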