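import Pool.Agent.Lib.MP_aa40d3_nt.MP.ADef

/-! Escape from finitely many subspaces; general position. -/

open Matrix

namespace Pool.Agent.GR.MP

variable {s : ℕ}

open Classical in
/-- The members of dimension `d` that contain a unit. -/
noncomputable def escaTop (d : ℕ) (F : Finset (Submodule ℂ (Matrix (Fin s) (Fin s) ℂ))) :
    Finset (Submodule ℂ (Matrix (Fin s) (Fin s) ℂ)) :=
  F.filter fun W => Module.finrank ℂ W = d ∧ ∃ u : (Matrix (Fin s) (Fin s) ℂ)ˣ, u.val ∈ W

theorem esca_mem {d : ℕ} {F : Finset (Submodule ℂ (Matrix (Fin s) (Fin s) ℂ))}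
    {W : Submodule ℂ (Matrix (Fin s) (Fin s) ℂ)} : W ∈ escaTop d F ↔
      W ∈ F ∧ Module.finrank ℂ W = d ∧ ∃ u : (Matrix (Fin s) (Fin s) ℂ)ˣ, u.val ∈ W := by
  classical
  unfold escaTop
  rw [Finset.mem_filter]

theorem esca_rank (f : (Matrix (Fin s) (Fin s) ℂ)ˣ) (W : Submodule ℂ (Matrix (Fin s) (Fin s) ℂ)) :
    Module.finrank ℂ (W.map (LinearMap.mulLeft ℂ f.val)) = Module.finrank ℂ W := by
  have hf : Function.Injective (LinearMap.mulLeft ℂ f.val) := fun x y h =>
    (Units.mul_right_inj f).1 h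
  exact (Submodule.equivMapOfInjective _ hf W).finrank_eq.symm

theorem esca_step (d : ℕ)
    (ih : ∀ a : ℕ, ∃ l : ℕ, ∀ As : List (List (Matrix (Fin s) (Fin s) ℂ)ˣ),
      l ≤ As.length → (∀ A ∈ As, Esc A) → ∀ F : Finset (Submodule ℂ (Matrix (Fin s) (Fin s) ℂ)),
        F.card ≤ a → (∀ W ∈ F, W ≠ ⊤) → (∀ W ∈ F, Module.finrank ℂ W < d) →
          ∃ x ∈ Mon As.flatten, ∀ W ∈ F, x.val ∉ W) (c : ℕ) :
    ∀ a : ℕ, ∃ l : ℕ, ∀ As : List (List (Matrix (Fin s) (Fin s) ℂ)ˣ),
      l ≤ As.length → (∀ A ∈ As, Esc A) → ∀ F : Finset (Submodule ℂ (Matrix (Fin s) (Fin s) ℂ)),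
        F.card ≤ a → (∀ W ∈ F, W ≠ ⊤) → (∀ W ∈ F, Module.finrank ℂ W ≤ d) →
          (escaTop d F).card ≤ c → ∃ x ∈ Mon As.flatten, ∀ W ∈ F, x.val ∉ W := by
  classical
  induction c with
  | zero =>
    intro a
    obtain ⟨l, hl⟩ := ih a
    refine ⟨l, fun As h1 h2 F h3 h4 h5 h6 => ?_⟩
    obtain ⟨x, hx, h⟩ := hl As h1 h2 (F.filter fun W => Module.finrank ℂ W < d)
      ((Finset.card_filter_le _ _).trans h3) (fun W hW => h4 W (Finset.mem_filter.1 hW).1)
      fun W hW => (Finset.mem_filter.1 hW).2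
    refine ⟨x, hx, fun W hW hxW => ?_⟩
    rcases (h5 W hW).lt_or_eq with e | e
    · exact h W (Finset.mem_filter.2 ⟨hW, e⟩) hxW
    · have hm : W ∈ escaTop d F := esca_mem.2 ⟨hW, e, x, hxW⟩
      rw [Finset.card_eq_zero.1 (Nat.le_zero.1 h6)] at hm
      exact Finset.notMem_empty _ hm
  | succ c ihc =>
    intro a
    obtain ⟨l, hl⟩ := ihc (a * a)
    refine ⟨l + 1, fun As h1 h2 F h3 h4 h5 h6 => ?_⟩
    by_cases hc : (escaTop d F).card ≤ c
    · exact hl As (by omega) h2 F (h3.trans (Nat.le_mul_self a)) h4 h5 hc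
    obtain _ | ⟨A, As⟩ := As
    · simp at h1
    have hne : (escaTop d F).Nonempty := Finset.card_pos.1 (by omega)
    obtain ⟨f, hf, W0, hW0, hesc⟩ := h2 A List.mem_cons_self (escaTop d F) hne fun W hW =>
      ⟨h4 W (esca_mem.1 hW).1, (esca_mem.1 hW).2.2⟩
    let F' : Finset (Submodule ℂ (Matrix (Fin s) (Fin s) ℂ)) :=
      (F ×ˢ F).image fun p => p.1 ⊓ p.2.comap (LinearMap.mulLeft ℂ f.val)
    have hF' : ∀ V ∈ F', ∃ W ∈ F, ∃ W' ∈ F, V = W ⊓ W'.comap (LinearMap.mulLeft ℂ f.val) := by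
      intro V hV
      obtain ⟨p, hp, rfl⟩ := Finset.mem_image.1 hV
      exact ⟨p.1, (Finset.mem_product.1 hp).1, p.2, (Finset.mem_product.1 hp).2, rfl⟩
    have hsub : escaTop d F' ⊆ (escaTop d F).erase W0 := by
      intro V hV
      obtain ⟨hV1, hV2, u, hu⟩ := esca_mem.1 hV
      obtain ⟨W, hW, W', hW', rfl⟩ := hF' V hV1
      have e1 : W ⊓ W'.comap (LinearMap.mulLeft ℂ f.val) = W :=
        Submodule.eq_of_le_of_finrank_le inf_le_left (by rw [hV2]; exact h5 W hW)
      have e2 : W ≤ W'.comap (LinearMap.mulLeft ℂ f.val) := inf_eq_left.1 e1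
      rw [e1] at hV2 hu ⊢
      have e3 : W.map (LinearMap.mulLeft ℂ f.val) = W' :=
        Submodule.eq_of_le_of_finrank_le (Submodule.map_le_iff_le_comap.2 e2)
          (by rw [esca_rank, hV2]; exact h5 W' hW')
      refine Finset.mem_erase.2 ⟨?_, esca_mem.2 ⟨hW, hV2, u, hu⟩⟩
      rintro rfl
      refine hesc (esca_mem.2 ⟨e3 ▸ hW', by rw [esca_rank, hV2], f * u, ?_⟩)
      exact ⟨u.val, hu, rfl⟩
    obtain ⟨x, hx, h⟩ := hl As (by simpa using h1) (fun B hB => h2 B (List.mem_cons_of_mem _ hB))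
      F' (Finset.card_image_le.trans (by
        rw [Finset.card_product]
        exact Nat.mul_le_mul h3 h3))
      (fun V hV hT => by
        obtain ⟨W, hW, W', -, rfl⟩ := hF' V hV
        exact h4 W hW (top_le_iff.1 (hT ▸ inf_le_left)))
      (fun V hV => by
        obtain ⟨W, hW, W', -, rfl⟩ := hF' V hV
        exact (Submodule.finrank_mono inf_le_left).trans (h5 W hW))
      (by
        have := Finset.card_le_card hsub
        rw [Finset.card_erase_of_mem hW0] at this
        omega)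
    rw [List.flatten_cons]
    by_cases hall : ∀ W ∈ F, x.val ∉ W
    · exact ⟨x, Mon.mono (List.sublist_append_right _ _) hx, hall⟩
    · push Not at hall
      obtain ⟨W, hW, hxW⟩ := hall
      have hfm : f ∈ Mon A := ⟨[f], List.singleton_sublist.2 hf, List.prod_singleton⟩
      refine ⟨f * x, Mon.mul hfm hx, fun W' hW' hfx => ?_⟩
      refine h (W ⊓ W'.comap (LinearMap.mulLeft ℂ f.val))
        (Finset.mem_image.2 ⟨(W, W'), Finset.mem_product.2 ⟨hW, hW'⟩, rfl⟩) ⟨hxW, ?_⟩
      exact hfx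

theorem esca_all (d : ℕ) : ∀ a : ℕ, ∃ l : ℕ, ∀ As : List (List (Matrix (Fin s) (Fin s) ℂ)ˣ),
    l ≤ As.length → (∀ A ∈ As, Esc A) → ∀ F : Finset (Submodule ℂ (Matrix (Fin s) (Fin s) ℂ)),
      F.card ≤ a → (∀ W ∈ F, W ≠ ⊤) → (∀ W ∈ F, Module.finrank ℂ W < d) →
        ∃ x ∈ Mon As.flatten, ∀ W ∈ F, x.val ∉ W := by
  induction d with
  | zero =>
    intro a
    exact ⟨0, fun As _ _ F _ _ h => ⟨1, Mon.one _, fun W hW => absurd (h W hW) (Nat.not_lt_zero _)⟩⟩
  | succ d ih =>
    intro a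
    obtain ⟨l, hl⟩ := esca_step d ih a a
    refine ⟨l, fun As h1 h2 F h3 h4 h5 => hl As h1 h2 F h3 h4
      (fun W hW => Nat.lt_succ_iff.1 (h5 W hW)) (le_trans (Finset.card_le_card ?_) h3)⟩
    exact fun W hW => (esca_mem.1 hW).1

/-- Paper A1. Induction on a strict bound `d` for the dimensions (for all `a`), inside on the number
`c` of members of dimension `d - 1` that contain a unit (for all `a`). Step: `Esc` of the first atom
for the family of these members gives `f` and `W₀`; pass to all `W ⊓ W'.comap (mulLeft f)` and to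
the tail of `As`; the answer is `x` or `f * x`. -/
theorem esc_one (s a : ℕ) : ∃ l : ℕ, ∀ As : List (List (Matrix (Fin s) (Fin s) ℂ)ˣ),
    l ≤ As.length → (∀ A ∈ As, Esc A) → ∀ F : Finset (Submodule ℂ (Matrix (Fin s) (Fin s) ℂ)),
      F.card ≤ a → (∀ W ∈ F, W ≠ ⊤) → ∃ x ∈ Mon As.flatten, ∀ W ∈ F, x.val ∉ W := by
  obtain ⟨l, hl⟩ := esca_all (s := s) (Module.finrank ℂ (Matrix (Fin s) (Fin s) ℂ) + 1) a
  exact ⟨l, fun As h1 h2 F h3 h4 => hl As h1 h2 F h3 h4 fun W _ =>
    Nat.lt_succ_of_le (Submodule.finrank_le W)⟩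

/-- Induction on `M`: the new element avoids all proper spans of subfamilies (at most `2 ^ M`). -/
theorem esc_gp (s M : ℕ) : ∃ l : ℕ, ∀ As : List (List (Matrix (Fin s) (Fin s) ℂ)ˣ),
    l ≤ As.length → (∀ A ∈ As, Esc A) →
      ∃ x : Fin M → (Matrix (Fin s) (Fin s) ℂ)ˣ, (∀ i, x i ∈ Mon As.flatten) ∧ GP x := by
  classical
  induction M with
  | zero =>
    refine ⟨0, fun As _ _ => ⟨fun i => i.elim0, fun i => i.elim0, fun W _ T _ => ?_⟩⟩
    have : T = ∅ := Finset.eq_empty_of_isEmpty T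
    simp [this]
  | succ M ih =>
    obtain ⟨l1, h1⟩ := ih
    obtain ⟨l2, h2⟩ := esc_one s (Fintype.card (Finset (Fin M)))
    refine ⟨max l1 l2, fun As hl hE => ?_⟩
    obtain ⟨x, hx, hg⟩ := h1 As (le_trans (le_max_left _ _) hl) hE
    let sp : Finset (Fin M) → Submodule ℂ (Matrix (Fin s) (Fin s) ℂ) :=
      fun T => Submodule.span ℂ ((fun i => (x i).val) '' (T : Set (Fin M)))
    obtain ⟨y, hy, hav⟩ := h2 As (le_trans (le_max_right _ _) hl) hE
      ((Finset.univ.image sp).filter fun W => W ≠ ⊤)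
      (le_trans (Finset.card_filter_le _ _) (le_trans Finset.card_image_le (by simp)))
      (fun W hW => (Finset.mem_filter.1 hW).2)
    refine ⟨Fin.cons y x, fun i => ?_, fun W hW T hT => ?_⟩
    · refine Fin.cases ?_ (fun i => ?_) i
      · simpa using hy
      · simpa using hx i
    · let T' : Finset (Fin M) := Finset.univ.filter fun i => i.succ ∈ T
      have hT' : ∀ i ∈ T', (x i).val ∈ W := fun i hi => by
        simpa using hT i.succ (Finset.mem_filter.1 hi).2
      by_cases h0 : (0 : Fin (M + 1)) ∈ T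
      · have hle : sp T' ≤ W := by
          refine Submodule.span_le.2 ?_
          rintro _ ⟨i, hi, rfl⟩
          exact hT' i hi
        have hne : sp T' ≠ ⊤ := fun h => hW (top_le_iff.1 (h ▸ hle))
        have hyn : y.val ∉ sp T' :=
          hav _ (Finset.mem_filter.2 ⟨Finset.mem_image_of_mem _ (Finset.mem_univ _), hne⟩)
        have hyW : y.val ∈ W := by simpa using hT 0 h0
        have hlt : sp T' < W := lt_of_le_of_ne hle fun h => hyn (h ▸ hyW)
        have h3 := Submodule.finrank_lt_finrank_of_lt hlt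
        have h4 := hg (sp T') hne T' fun i hi => Submodule.subset_span ⟨i, hi, rfl⟩
        have h5 : T ⊆ insert 0 (T'.image Fin.succ) := by
          intro i hi
          revert hi
          refine Fin.cases (fun _ => Finset.mem_insert_self _ _) (fun i hi => ?_) i
          exact Finset.mem_insert_of_mem
            (Finset.mem_image_of_mem _ (Finset.mem_filter.2 ⟨Finset.mem_univ _, hi⟩))
        have h6 := Finset.card_le_card h5
        have h7 := Finset.card_insert_le (0 : Fin (M + 1)) (T'.image Fin.succ)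
        have h8 : (T'.image Fin.succ).card ≤ T'.card := Finset.card_image_le
        omega
      · have h4 := hg W hW T' hT'
        have h5 : T ⊆ T'.image Fin.succ := by
          intro i hi
          revert hi
          refine Fin.cases (fun h => absurd h h0) (fun i hi => ?_) i
          exact Finset.mem_image_of_mem _ (Finset.mem_filter.2 ⟨Finset.mem_univ _, hi⟩)
        have h6 := Finset.card_le_card h5
        have h8 : (T'.image Fin.succ).card ≤ T'.card := Finset.card_image_le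
        omega

/-- A proper subspace has dimension less than `s * s`. -/
theorem GP.spans {M : ℕ} {x : Fin M → (Matrix (Fin s) (Fin s) ℂ)ˣ} (h : GP x) (hM : s * s ≤ M)
    {L : List (Matrix (Fin s) (Fin s) ℂ)ˣ} (hx : ∀ i, x i ∈ Mon L) : Spans L := by
  by_contra hn
  have h1 := h _ hn Finset.univ fun i _ => Submodule.subset_span ⟨x i, hx i, rfl⟩
  have h2 := Submodule.finrank_lt hn
  rw [Module.finrank_matrix] at h2
  simp only [Finset.card_univ, Fintype.card_fin, Module.finrank_self, mul_one] at h1 h2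
  omega

end Pool.Agent.GR.MP
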