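import Pool.Agent.Lib.MP_aa40d3_nt.MP.SetUp
import Pool.Agent.Lib.MP_aa40d3_nt.MP.Esc

/-! Many strongly irreducible atoms have a monotone product of infinite order. -/

open Matrix

namespace Pool.Agent.GR.MP

variable {s : ℕ}

theorem thma_lt {W : Submodule ℂ (Matrix (Fin s) (Fin s) ℂ)} (hW : W ≠ ⊤) :
    Module.finrank ℂ W < s * s := by
  have h := Submodule.finrank_lt hW
  rwa [Module.finrank_matrix, Fintype.card_fin, Module.finrank_self, mul_one] at h

theorem thma_root {u z : (Matrix (Fin s) (Fin s) ℂ)ˣ} {c : ℂ}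
    (h : u.val * z.val = c • (z.val * u.val)) : c ^ s = 1 := by
  have h1 := congrArg Matrix.det h
  rw [det_smul, det_mul, det_mul, Fintype.card_fin, mul_comm u.val.det] at h1
  have h2 : z.val.det * u.val.det ≠ 0 :=
    mul_ne_zero (Matrix.isUnits_det_units z).ne_zero (Matrix.isUnits_det_units u).ne_zero
  exact (mul_right_cancel₀ h2 (by rw [one_mul]; exact h1)).symm

theorem thma_step (hs : 2 ≤ s) {M : ℕ} {x : Fin M → (Matrix (Fin s) (Fin s) ℂ)ˣ} (hx : GP x)
    {T : Finset (Fin M)} (hT : T.card = s * (s * s)) (a z : (Matrix (Fin s) (Fin s) ℂ)ˣ)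
    (h : ∀ k ∈ T, ∃ c : ℂ, (a⁻¹ * x k * z * (a⁻¹ * x k)⁻¹ * z⁻¹).val = c • 1) :
    ∃ c : ℂ, z.val = c • 1 := by
  classical
  by_contra hz
  have h1 : ∀ k, ∃ c : ℂ, k ∈ T →
      (a⁻¹ * x k).val * z.val = c • (z.val * (a⁻¹ * x k).val) := by
    intro k
    by_cases hk : k ∈ T
    · obtain ⟨c, hc⟩ := h k hk
      refine ⟨c, fun _ => ?_⟩
      have h2 : a⁻¹ * x k * z = a⁻¹ * x k * z * (a⁻¹ * x k)⁻¹ * z⁻¹ * (z * (a⁻¹ * x k)) := by
        group
      rw [← Units.val_mul, h2, Units.val_mul _ (z * _), hc, smul_mul_assoc, one_mul,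
        Units.val_mul z]
    · exact ⟨0, fun h => absurd h hk⟩
  choose c hc using h1
  have hs0 : 0 < s := by omega
  have h2 : T.card ≤ (s * s - 1) * (Polynomial.nthRootsFinset s (1 : ℂ)).card := by
    refine Finset.card_le_mul_card_image_of_maps_to (f := c) (fun k hk => ?_) _ fun b _ => ?_
    · exact (Polynomial.mem_nthRootsFinset hs0 1).2 (thma_root (hc k hk))
    · let f : Matrix (Fin s) (Fin s) ℂ →ₗ[ℂ] Matrix (Fin s) (Fin s) ℂ :=
        (LinearMap.mulRight ℂ z.val - b • LinearMap.mulLeft ℂ z.val) ∘ₗ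
          LinearMap.mulLeft ℂ (a⁻¹).val
      have hf : ∀ y, y ∈ LinearMap.ker f ↔
          (a⁻¹).val * y * z.val = b • (z.val * ((a⁻¹).val * y)) := by
        intro y
        exact LinearMap.mem_ker.trans sub_eq_zero
      have hW : LinearMap.ker f ≠ ⊤ := by
        intro hW
        have h3 : ∀ w, w * z.val = b • (z.val * w) := by
          intro w
          have h4 := (hf (a.val * w)).1 (hW ▸ Submodule.mem_top)
          rwa [Units.inv_mul_cancel_left] at h4
        have h4 : ∀ w, Commute w z.val := by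
          intro w
          have h5 := h3 1
          rw [one_mul, mul_one] at h5
          rw [Commute, SemiconjBy, h3 w, ← smul_mul_assoc, ← h5]
        obtain ⟨d, hd⟩ := Matrix.mem_range_scalar_iff_commute_single'.2 fun i j => h4 _
        exact hz ⟨d, by rw [← hd, scalar_apply, smul_one_eq_diagonal]⟩
      have h3 := hx _ hW (T.filter fun k => c k = b) fun k hk => by
        obtain ⟨hk1, hk2⟩ := Finset.mem_filter.1 hk
        exact (hf _).2 (hk2 ▸ hc k hk1)
      have h4 := thma_lt hW
      omega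
  have h3 : (Polynomial.nthRootsFinset s (1 : ℂ)).card ≤ s := by
    rw [Polynomial.nthRootsFinset_def]
    exact (Multiset.toFinset_card_le _).trans (Polynomial.card_nthRoots s 1)
  have h4 : (s * s - 1) * s < s * s * s :=
    Nat.mul_lt_mul_of_pos_right (Nat.sub_lt (Nat.mul_pos hs0 hs0) one_pos) hs0
  have h5 := h2.trans (Nat.mul_le_mul_left _ h3)
  rw [hT, mul_comm] at h5
  omega

/-- Paper A7. Take the least length `J'` for which all commutators are scalar; `J' ≠ 0` because a
line contains at most one `x i`. For a non scalar `z` of length `J' - 1`, `u i * z = c i • (z * u i)`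
with `c i ^ s = 1`; the subspace `{y | (x i0)⁻¹ y z = c • z (x i0)⁻¹ y}` is proper, so each of the
at most `s` values of `c` occurs less than `s * s` times. -/
theorem not_nil (hs : 2 ≤ s) {M J : ℕ} {x : Fin M → (Matrix (Fin s) (Fin s) ℂ)ˣ} (hx : GP x)
    {T : Finset (Fin M)} (hT : T.card = s * (s * s)) {i0 : Fin M}
    (h : ∀ (l : List (Fin M)) (i : Fin M), l.length = J → (∀ k ∈ l, k ∈ T) → i ∈ T →
      cw (fun k => (x i0)⁻¹ * x k) l i = 1) : False := by
  have h1 : ∀ n, (∀ (l : List (Fin M)) (i : Fin M), l.length = n → (∀ k ∈ l, k ∈ T) → i ∈ T →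
      ∃ c : ℂ, (cw (fun k => (x i0)⁻¹ * x k) l i).val = c • 1) → False := by
    intro n
    induction n with
    | zero =>
      intro h0
      have h4 : 4 ≤ s * s := Nat.mul_le_mul hs hs
      have hr : Module.finrank ℂ (Submodule.span ℂ {(x i0).val}) ≤ 1 := by
        simpa using finrank_span_le_card (R := ℂ) {(x i0).val}
      have hW : Submodule.span ℂ {(x i0).val} ≠ ⊤ := by
        intro hW
        rw [hW, finrank_top, Module.finrank_matrix, Fintype.card_fin, Module.finrank_self] at hr
        omega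
      have h2 := hx _ hW T fun i hi => by
        obtain ⟨c, hc⟩ := h0 [] i rfl (fun _ hk => absurd hk List.not_mem_nil) hi
        refine Submodule.mem_span_singleton.2 ⟨c, ?_⟩
        have h3 : x i = x i0 * cw (fun k => (x i0)⁻¹ * x k) [] i := by
          rw [cw, mul_inv_cancel_left]
        rw [h3, Units.val_mul, hc, mul_smul_comm, mul_one]
      have h3 : 2 * 4 ≤ s * (s * s) := Nat.mul_le_mul hs h4
      omega
    | succ n ih =>
      intro h0
      refine ih fun l i hl hk hi => thma_step hs hx hT (x i0) _ fun k hk' => ?_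
      exact h0 (k :: l) i (by rw [List.length_cons, hl]) (List.forall_mem_cons.2 ⟨hk', hk⟩) hi
  refine h1 J fun l i hl hk hi => ⟨1, ?_⟩
  rw [h l i hl hk hi, one_smul, Units.val_one]

theorem thmb_congr {α : Type} {E E' : ℕ → List α} (L : ℕ) (h : ∀ j ≤ L, E j = E' j) :
    Dl E L = Dl E' L := by
  induction L with
  | zero => exact h 0 le_rfl
  | succ L ih =>
    simp only [Dl]
    rw [h _ le_rfl, ih fun j hj => h j (Nat.le_succ_of_le hj)]

/-- Cut `(L + 2) * l` atoms into blocks of `l` atoms: `As = E L ++ ... ++ E 0 ++ Y`. -/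
theorem exists_blocks {α : Type} (l L : ℕ) (As : List α) (h : As.length = (L + 2) * l) :
    ∃ (E : ℕ → List α) (Y : List α), (∀ j ≤ L, (E j).length = l) ∧ Y.length = l ∧
      Dl E L ++ Y = As := by
  induction L generalizing As with
  | zero =>
    refine ⟨fun _ => As.take l, As.drop l, fun j _ => ?_, ?_, List.take_append_drop l As⟩
    · rw [List.length_take]; omega
    · rw [List.length_drop]; omega
  | succ L ih =>
    have h' : As.length = (L + 2) * l + l := by rw [h]; ring
    obtain ⟨E, Y, h1, h2, h3⟩ := ih (As.drop l) (by rw [List.length_drop]; omega)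
    refine ⟨fun j => if j = L + 1 then As.take l else E j, Y, fun j hj => ?_, h2, ?_⟩
    · by_cases hj' : j = L + 1
      · simp only [hj', if_true]
        rw [List.length_take]; omega
      · simp only [hj', if_false]
        exact h1 j (by omega)
    · simp only [Dl, if_true]
      rw [thmb_congr (E' := E) L fun j hj => if_neg (by omega), List.append_assoc, h3,
        List.take_append_drop]

theorem Dl_flatten {α : Type} (E : ℕ → List (List α)) (j : ℕ) :
    Dl (fun i => (E i).flatten) j = (Dl E j).flatten := by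
  induction j with
  | zero => rfl
  | succ j ih => simp only [Dl, List.flatten_append, ih]

theorem mem_Dl {α : Type} {E : ℕ → List α} {i j : ℕ} (h : i ≤ j) {a : α} (ha : a ∈ E i) :
    a ∈ Dl E j := by
  induction j with
  | zero =>
    obtain rfl : i = 0 := by omega
    exact ha
  | succ j ih =>
    simp only [Dl, List.mem_append]
    rcases Nat.of_le_succ h with h | rfl
    · exact Or.inr (ih h)
    · exact Or.inl ha

/-- `setup` with `t = s * (s * s)`, `esc_gp` for `M` and for `s * s`, `GP.spans`, `not_nil`. -/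
theorem thmA (hs : 2 ≤ s) : ∃ m : ℕ, ∀ As : List (List (Matrix (Fin s) (Fin s) ℂ)ˣ),
    As.length = m → (∀ A ∈ As, Esc A) → (∀ g ∈ Mon As.flatten, IsOfFinOrder g) → False := by
  have : NeZero s := ⟨by omega⟩
  obtain ⟨M, L, J, hset⟩ := setup s (s * (s * s))
  obtain ⟨l1, h1⟩ := esc_gp s M
  obtain ⟨l2, h2⟩ := esc_gp s (s * s)
  refine ⟨(L + 2) * max l1 l2, fun As hl hE hf => ?_⟩
  obtain ⟨E, Y, hE1, hY1, hAs⟩ := exists_blocks _ L As hl
  have hEe : ∀ j ≤ L, ∀ A ∈ E j, Esc A := fun j hj A hA =>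
    hE A (hAs ▸ List.mem_append_left _ (mem_Dl hj hA))
  have hYe : ∀ A ∈ Y, Esc A := fun A hA => hE A (hAs ▸ List.mem_append_right _ hA)
  have hex : ∀ j : ℕ, ∃ x : Fin M → (Matrix (Fin s) (Fin s) ℂ)ˣ,
      j < L → (∀ i, x i ∈ Mon (E (j + 1)).flatten) ∧ GP x := by
    intro j
    by_cases hj : j < L
    · obtain ⟨x, hx⟩ := h1 (E (j + 1)) (by rw [hE1 _ hj]; exact le_max_left _ _) (hEe _ hj)
      exact ⟨x, fun _ => hx⟩
    · exact ⟨fun _ => 1, fun h => absurd h hj⟩
  choose x hx using hex
  obtain ⟨y0, hy0, hg0⟩ := h2 (E 0) (by rw [hE1 _ (Nat.zero_le _)]; exact le_max_right _ _)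
    (hEe _ (Nat.zero_le _))
  obtain ⟨y1, hy1, hg1⟩ := h2 Y (by rw [hY1]; exact le_max_right _ _) hYe
  obtain ⟨j, hj, T, hT, hc⟩ := hset (fun i => (E i).flatten) Y.flatten x (hg0.spans le_rfl hy0)
    (hg1.spans le_rfl hy1) (fun j hj => (hx j hj).1)
    (by rw [Dl_flatten, ← List.flatten_append, hAs]; exact hf)
  have hpos : 0 < T.card := by rw [hT]; positivity
  obtain ⟨i0, hi0⟩ := Finset.card_pos.1 hpos
  exact not_nil hs (hx j hj).2 hT (hc i0 hi0)

end Pool.Agent.GR.MP
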