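import Pool.Agent.Lib.MP_aa40d3_nt.MP.Dbl2
import Pool.Agent.Lib.MP_aa40d3_nt.MP.ThmA
import Pool.Agent.Lib.MP_aa40d3_nt.MP.LiftE
import Pool.Agent.Lib.MP_aa40d3_nt.MP.Lev
import Pool.Agent.Lib.MP_aa40d3_nt.MP.Ends
import Pool.Agent.Lib.MP_aa40d3_nt.MR.Link

/-! The monodromy group is finite. -/

open Polynomial Matrix

namespace Pool.Agent.GR.MP

variable {n r : ℕ}

theorem flat_single {α : Type} (l : List α) : (l.map fun a => [a]).flatten = l := by
  induction l with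
  | nil => rfl
  | cons a l ih => simp [ih]

theorem sub_fin {Mov : Finset (Fin n)} {L0 : List (Fin n)} {g h : Fin n → GLr r}
    {ε : Fin n → Fin r → ℂ} (h0 : L0.Nodup) (ho : LoopsS Mov L0 g ε) {L R l : List (Fin n)}
    (hs : St Mov L0 g (L ++ R) h) (hL : ∀ a ∈ L, a ∈ Mov) (hl : l.Sublist L) :
    IsOfFinOrder (l.map h).prod := by
  obtain ⟨R', h', k1, k2⟩ := St.sel (L₁ := []) (R := R) h0 (hl.map fun a => [a])
    (fun A hA a ha => by
      obtain ⟨b, hb, rfl⟩ := List.mem_map.1 hA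
      rw [List.mem_singleton.1 ha]
      exact hL b (hl.subset hb)) (by rwa [flat_single, List.nil_append])
  rw [flat_single, List.nil_append] at k1 k2
  rw [← List.map_congr_left k2]
  exact Units.isOfFinOrder_val.1 (ho l R' h' k1 fun a ha => hL a (hl.subset ha)).1

theorem thmA_le (r : ℕ) : ∃ m : ℕ, 0 < m ∧ ∀ s, 2 ≤ s → s ≤ r → ∀ As : List (List (GLr s)),
    As.length = m → (∀ A ∈ As, Esc A) → (∀ g ∈ Mon As.flatten, IsOfFinOrder g) → False := by
  classical
  choose! f hf using fun s => thmA (s := s)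
  refine ⟨(Finset.range (r + 1)).sup f + 1, Nat.succ_pos _, fun s h2 hr As hl hE hF => ?_⟩
  have h1 : f s ≤ (Finset.range (r + 1)).sup f := Finset.le_sup (Finset.mem_range.2 (by omega))
  refine hf s h2 (As.take (f s)) (by rw [List.length_take]; omega)
    (fun A hA => hE A (List.mem_of_mem_take hA)) fun x hx => hF x (Mon.mono ?_ hx)
  exact (List.take_sublist _ _).flatten

theorem group_finiteP (r : ℕ) [NeZero r] : ∃ k : ℕ, ∀ (n : ℕ) (Mov : Finset (Fin n))
    (g : Fin n → GLr r) (ε : Fin n → Fin r → ℂ) (ρ : Fin n → ℝ), k ≤ Mov.card →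
    Function.Injective ρ → (∀ a ∈ Mov, Cop (Subgroup.closure (Set.range g)) (g a)) →
    (∀ a, IsOfFinOrder (g a)) → PrimT (Subgroup.closure (Set.range g)) → LoopsM Mov ρ g ε →
    Finite (Subgroup.closure (Set.range g)) := by
  classical
  obtain ⟨J, hJ⟩ := jordan r
  obtain ⟨m, hm0, hm⟩ := thmA_le r
  refine ⟨Kf m (J + 2 * (r * r) + 1), fun n Mov g ε ρ hk hρ hc hfo hP ho => ?_⟩
  set Γ := Subgroup.closure (Set.range g) with hΓ
  obtain ⟨L0, h1, h2⟩ := exists_lowerL hρ Finset.univ fun _ _ _ _ => Finset.mem_univ _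
  have h0 : L0.Nodup := h1.1.imp fun hab e => hab.ne (congrArg _ e)
  have hall : ∀ a, a ∈ L0 := fun a => List.mem_toFinset.1 (h2 ▸ Finset.mem_univ a)
  have hS := ho.loopsS h1
  have hE : 0 < ∏ a, orderOf (g a) := Finset.prod_pos fun a _ => (hfo a).orderOf_pos
  have hd : ∀ γ ∈ Γ, γ.val.det ^ (∏ a, orderOf (g a)) = 1 := fun γ hγ => by
    refine (Subgroup.closure_le ((powMonoidHom (∏ a, orderOf (g a))).comp
      (detMonoidHom.comp (Units.coeHom (Matrix (Fin r) (Fin r) ℂ)))).ker).2 ?_ hγ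
    rintro _ ⟨a, rfl⟩
    change (g a).val.det ^ _ = 1
    rw [← det_pow, ← Units.val_pow_eq_pow_val, orderOf_dvd_iff_pow_eq_one.1
      (Finset.dvd_prod_of_mem (fun a => orderOf (g a)) (Finset.mem_univ a)), Units.val_one, det_one]
  obtain ⟨ξ, hξ, As, R, h, hs, hlen, hA⟩ := doubling2 h0 hall (levC Γ J Mov L0 g) m
    (front_init h0 hall hk fun a ha => ⟨g a, mem_cl (List.mem_singleton_self a), hc a ha⟩)
  by_cases hfin : ∃ A ∈ As, Finite (cl h A)
  · obtain ⟨A, hAs, hf⟩ := hfin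
    obtain ⟨-, h3, h4⟩ := hA A hAs
    rw [invC, if_pos hf] at h4
    by_cases h5 : pc (cl h A) ≤ J
    · rw [if_pos h5] at h4
      exact end_cone hP h3 hE hd (h4 ▸ hξ)
    · rw [if_neg h5] at h4
      exact (end_near hP (hJ _ hf (by omega)) (h4 ▸ hξ)).elim
  push Not at hfin
  obtain ⟨A0, hA0⟩ := List.exists_mem_of_length_pos (hlen ▸ hm0)
  have hB : ∀ A ∈ As, (Bsp (cl h A) : Set (Matrix (Fin r) (Fin r) ℂ)) = ξ := fun A hAs => by
    have := (hA A hAs).2.2
    rwa [invC, if_neg (hfin A hAs).not_finite] at this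
  have hI : InvS Γ (Bsp (cl h A0)) := fun γ hγ x hx => by
    have h3 : γ.val * x * (γ⁻¹).val ∈ actM γ ξ := ⟨x, hB A0 hA0 ▸ hx, rfl⟩
    rw [hξ γ hγ, ← hB A0 hA0] at h3
    exact h3
  obtain ⟨s, hs0, ⟨M⟩⟩ := exists_MA hP hI (bsp_one _) (bsp_mul _)
  have : NeZero s := ⟨hs0.ne'⟩
  have hs2 : 2 ≤ s := by
    by_contra hlt
    obtain rfl : s = 1 := by omega
    exact (hfin A0 hA0).not_finite
      (finite_of_bsp hE (fun γ hγ => hd γ (hs.cl_le h0 A0 hγ)) M.scalar)
  have hsr : s ≤ r := by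
    have h3 := Submodule.finrank_le (Bsp (cl h A0))
    rw [M.finrank, Module.finrank_matrix, Fintype.card_fin, Module.finrank_self, mul_one,
      ← pow_two] at h3
    exact (Nat.pow_le_pow_iff_left two_ne_zero).1 h3
  choose b hb1 hb2 using fun a => exists_lift M hI
    (hs.cl_le h0 [a] (mem_cl (List.mem_singleton_self a)))
  refine (hm s hs2 hsr (As.map (List.map b)) (by rw [List.length_map, hlen]) ?_ ?_).elim
  · intro A' hA'
    obtain ⟨A, hAs, rfl⟩ := List.mem_map.1 hA'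
    exact lift_esc M (fun a _ => hb2 a) (SetLike.coe_injective ((hB A hAs).trans (hB A0 hA0).symm))
  · rintro _ ⟨l', hl', rfl⟩
    rw [← List.map_flatten] at hl'
    obtain ⟨l, hl, rfl⟩ := List.sublist_map_iff.1 hl'
    refine (MA.Lf.prod l fun a _ => hb2 a).fin ?_ (sub_fin h0 hS hs (fun a ha => ?_) hl)
    · clear hl hl'
      induction l with
      | nil => simp
      | cons a l ih => rw [List.map_cons, List.prod_cons, Units.val_mul, det_mul, hb1, ih, mul_one]
    · obtain ⟨A, hAs, ha⟩ := List.mem_flatten.1 ha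
      exact (hA A hAs).1 a ha

end Pool.Agent.GR.MP
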