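import Pool.Agent.Lib.MP_aa40d3_nt.MR.Dbl

/-! The doubling lemma, with one invariant for all clusters. -/

namespace Pool.Agent.GR.MP

variable {n : ℕ} {G Y : Type} [Group G] {Mov : Finset (Fin n)} {L0 : List (Fin n)} {g : Fin n → G}
  {Ok : Subgroup G → Prop} {ν : Subgroup G → ℕ} {inv : Subgroup G → Y} {act : G → Y → Y} {Lm : ℕ}

theorem dbl_aux2 (h0 : L0.Nodup) (hall : ∀ a, a ∈ L0) (hL : Lev Mov L0 g Ok ν inv act Lm) (m : ℕ)
    (d : ℕ) : ∀ a, a + d = Lm + 1 → (Front Mov L0 g (Kf m d) fun H => Ok H ∧ a ≤ ν H) →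
    ∃ ξ, (∀ γ ∈ Subgroup.closure (Set.range g), act γ ξ = ξ) ∧
      Front Mov L0 g m fun H => Ok H ∧ inv H = ξ := by
  classical
  induction d with
  | zero =>
    rintro a ha ⟨As, R, h, -, hl, hA⟩
    obtain ⟨A, hAs⟩ := List.exists_mem_of_length_pos (l := As) (by rw [hl]; exact Nat.one_pos)
    obtain ⟨-, m2, m3⟩ := hA A hAs
    have := hL.le _ m2
    omega
  | succ d ih =>
    rintro a ha ⟨As, R, h, hs, hl, hA⟩
    have hm : ∀ A ∈ As, ∀ x ∈ A, x ∈ Mov := fun A hAs => (hA A hAs).1
    have ih' := ih (a + 1) (by omega)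
    rcases dbl_pigeon (fun A => if a + 1 ≤ ν (cl h A) then none else some (inv (cl h A)))
      (Kf m d) (2 * Kf m d + m) As (by rw [hl]; exact le_rfl) (dbl_Kf_pos m d) with
      ⟨ξ, Q, hQ, hQl, hc⟩ | ⟨Q₁, Q₂, hQ, h1, h2, hd⟩
    · cases ξ with
      | none =>
        refine ih' (dbl_front h0 hQ hm hs (by omega) fun A hAQ => ⟨(hA A (hQ.subset hAQ)).2.1, ?_⟩)
        have := hc A hAQ
        by_contra hne
        simp only [if_neg hne] at this
        exact absurd this (by simp)
      | some x =>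
        have hinv : ∀ A ∈ Q, inv (cl h A) = x := by
          intro A hAQ
          have := hc A hAQ
          by_cases hne : a + 1 ≤ ν (cl h A)
          · simp only [if_pos hne] at this
            exact absurd this (by simp)
          · simp only [if_neg hne] at this
            exact Option.some.inj this
        by_cases hn : ∃ γ ∈ Subgroup.closure (Set.range g), act γ x ≠ x
        · have hQ' : (Q.take (Kf m d) ++ (Q.drop (Kf m d)).take (Kf m d)).Sublist Q := by
            conv_rhs => rw [← List.take_append_drop (Kf m d) Q]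
            exact List.Sublist.append_left (List.take_sublist _ _) _
          obtain ⟨R', h', hs', he⟩ := dbl_sel h0 (hQ'.trans hQ) hm hs
          rw [List.flatten_append] at hs'
          refine ih' (dbl_twist h0 hall hL (ξ := x) hs' ?_ ?_ ?_ hn)
          · rw [List.length_take]; omega
          · rw [List.length_take, List.length_drop]; omega
          · intro A hAQ
            rw [he A hAQ]
            obtain ⟨m1, m2, m3⟩ := hA A (hQ.subset (hQ'.subset hAQ))
            exact ⟨m1, m2, m3, hinv A (hQ'.subset hAQ)⟩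
        · push Not at hn
          exact ⟨x, hn, dbl_front h0 hQ hm hs (by omega) fun A hAQ =>
            ⟨(hA A (hQ.subset hAQ)).2.1, hinv A hAQ⟩⟩
    · obtain ⟨R', h', hs', he⟩ := dbl_sel h0 hQ hm hs
      rw [List.flatten_append] at hs'
      refine ih' (dbl_pair h0 hL hs' h1 h2 ?_ ?_)
      · intro A hAQ
        rw [he A hAQ]
        exact hA A (hQ.subset hAQ)
      · intro A hAQ B hBQ
        rw [he A (List.mem_append_left _ hAQ), he B (List.mem_append_right _ hBQ)]
        have := hd A hAQ B hBQ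
        by_contra hc
        push Not at hc
        obtain ⟨c1, c2, c3⟩ := hc
        simp only [if_neg (not_le.2 c1), if_neg (not_le.2 c2), c3] at this
        exact this rfl

theorem doubling2 (h0 : L0.Nodup) (hall : ∀ a, a ∈ L0) (hL : Lev Mov L0 g Ok ν inv act Lm) (m : ℕ)
    (hf : Front Mov L0 g (Kf m (Lm + 1)) Ok) :
    ∃ ξ, (∀ γ ∈ Subgroup.closure (Set.range g), act γ ξ = ξ) ∧
      Front Mov L0 g m fun H => Ok H ∧ inv H = ξ := by
  obtain ⟨As, R, h, hs, hl, hA⟩ := hf
  exact dbl_aux2 h0 hall hL m (Lm + 1) 0 (by omega)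
    ⟨As, R, h, hs, hl, fun A hAs => ⟨(hA A hAs).1, (hA A hAs).2, Nat.zero_le _⟩⟩

end Pool.Agent.GR.MP
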