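import Pool.Agent.Lib.MP_aa40d3_nt.MP.Bsp

/-! Lifts of automorphisms of a matrix algebra. -/

open Matrix

namespace Pool.Agent.GR.MP

variable {n r s : ℕ} {Γ : Subgroup (GLr r)} {B : Submodule ℂ (Matrix (Fin r) (Fin r) ℂ)}
  {m : MA B s}

theorem MA.Lf.one (m : MA B s) : m.Lf 1 1 := by
  intro y
  simp

theorem MA.Lf.mul {γ γ' : GLr r} {b b' : GLr s} (h : m.Lf γ b) (h' : m.Lf γ' b') :
    m.Lf (γ * γ') (b * b') := by
  intro y
  have e : (γ * γ').val * m.e y * ((γ * γ')⁻¹).val =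
      γ.val * (γ'.val * m.e y * (γ'⁻¹).val) * (γ⁻¹).val := by
    simp only [_root_.mul_inv_rev, Units.val_mul, mul_assoc]
  rw [e, h', h]
  simp only [_root_.mul_inv_rev, Units.val_mul, mul_assoc]

theorem MA.Lf.inv {γ : GLr r} {b : GLr s} (h : m.Lf γ b) : m.Lf γ⁻¹ b⁻¹ := by
  intro y
  have e := h ((b⁻¹).val * y * b.val)
  simp only [mul_assoc, Units.mul_inv, mul_one, Units.mul_inv_cancel_left] at e
  rw [inv_inv, inv_inv, ← e]
  simp only [mul_assoc, Units.inv_mul, mul_one, Units.inv_mul_cancel_left]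

/-- `b⁻¹ * b'` commutes with all matrices. -/
theorem MA.Lf.unique {γ : GLr r} {b b' : GLr s} (h : m.Lf γ b) (h' : m.Lf γ b') :
    ∃ c : ℂ, b'.val = c • b.val := by
  have hc : ∀ y, Commute y ((b⁻¹).val * b'.val) := fun y => by
    have e := m.inj ((h y).symm.trans (h' y))
    have e2 := congrArg (fun z => (b⁻¹).val * z * b'.val) e
    simpa only [mul_assoc, Units.inv_mul, mul_one, Units.inv_mul_cancel_left, Commute,
      SemiconjBy] using e2
  obtain ⟨c, hc⟩ := Matrix.mem_range_scalar_iff_commute_single'.2 fun i j => hc (single i j 1)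
  refine ⟨c, ?_⟩
  rw [← Units.mul_inv_cancel_left b b'.val, ← hc, Matrix.scalar_apply, ← smul_one_eq_diagonal,
    mul_smul_comm, mul_one]

theorem lift_inner (f : Matrix (Fin s) (Fin s) ℂ ≃ₐ[ℂ] Matrix (Fin s) (Fin s) ℂ) :
    ∃ b : GLr s, ∀ y, f y = b.val * y * (b⁻¹).val := by
  let Φ : Matrix (Fin s) (Fin s) ℂ ≃ₐ[ℂ] Module.End ℂ (Fin s → ℂ) := Matrix.toLinAlgEquiv'
  obtain ⟨T, hT⟩ := ((Φ.symm.trans f).trans Φ).eq_linearEquivConjAlgEquiv
  have h1 : (T : Module.End ℂ (Fin s → ℂ)) * (T.symm : Module.End ℂ (Fin s → ℂ)) = 1 :=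
    LinearMap.ext fun v => T.apply_symm_apply v
  have h2 : (T.symm : Module.End ℂ (Fin s → ℂ)) * (T : Module.End ℂ (Fin s → ℂ)) = 1 :=
    LinearMap.ext fun v => T.symm_apply_apply v
  refine ⟨⟨Φ.symm T, Φ.symm T.symm, by rw [← map_mul, h1, map_one],
    by rw [← map_mul, h2, map_one]⟩, fun y => Φ.injective ?_⟩
  have h3 := congrArg (fun g => g (Φ y)) hT
  simp only [AlgEquiv.trans_apply, AlgEquiv.symm_apply_apply] at h3
  show Φ (f y) = Φ (Φ.symm T * y * Φ.symm T.symm)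
  rw [h3, map_mul, map_mul, Φ.apply_symm_apply, Φ.apply_symm_apply]
  rfl

/-- Conjugation by `γ` induces an algebra automorphism of the matrix algebra; it is inner
(`AlgEquiv.eq_linearEquivConjAlgEquiv`); rescale by an `s`-th root of the determinant. -/
theorem exists_lift [NeZero s] (m : MA B s) (hB : InvS Γ B) {γ : GLr r} (hγ : γ ∈ Γ) :
    ∃ b : GLr s, b.val.det = 1 ∧ m.Lf γ b := by
  choose F hF using fun y => (m.mem _).1 (hB γ hγ _ ((m.mem _).2 ⟨y, rfl⟩))
  let G : Matrix (Fin s) (Fin s) ℂ →ₐ[ℂ] Matrix (Fin s) (Fin s) ℂ :=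
    { toFun := F
      map_one' := m.inj (by simp [hF])
      map_mul' := fun x y => m.inj (by
        simp only [hF, map_mul, mul_assoc, Units.inv_mul_cancel_left])
      map_zero' := m.inj (by simp [hF])
      map_add' := fun x y => m.inj (by simp only [hF, map_add, mul_add, add_mul])
      commutes' := fun c => m.inj (by
        rw [hF, AlgHom.commutes, ← Algebra.commutes, mul_assoc, Units.mul_inv, mul_one]) }
  have hi : Function.Injective G := fun x y hxy => by
    have e : m.e (F x) = m.e (F y) := congrArg m.e hxy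
    rw [hF, hF, Units.mul_left_inj, Units.mul_right_inj] at e
    exact m.inj e
  have hs : Function.Surjective G :=
    (LinearMap.injective_iff_surjective (f := G.toLinearMap)).1 hi
  obtain ⟨b, hb⟩ := lift_inner (AlgEquiv.ofBijective G ⟨hi, hs⟩)
  obtain ⟨c, hc⟩ := IsAlgClosed.exists_pow_nat_eq b.val.det (NeZero.pos s)
  have hd : b.val.det ≠ 0 := ((Matrix.isUnit_iff_isUnit_det _).1 b.isUnit).ne_zero
  have h0 : c ≠ 0 := fun h0 => hd (by rw [← hc, h0, zero_pow (NeZero.ne s)])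
  refine ⟨⟨c⁻¹ • b.val, c • (b⁻¹).val, ?_, ?_⟩, ?_, fun y => ?_⟩
  · rw [smul_mul_smul_comm, inv_mul_cancel₀ h0, Units.mul_inv, one_smul]
  · rw [smul_mul_smul_comm, mul_inv_cancel₀ h0, Units.inv_mul, one_smul]
  · show (c⁻¹ • b.val).det = 1
    rw [det_smul, Fintype.card_fin, inv_pow, hc, inv_mul_cancel₀ hd]
  · show _ = m.e (c⁻¹ • b.val * y * c • (b⁻¹).val)
    rw [smul_mul_assoc, smul_mul_smul_comm, inv_mul_cancel₀ h0, one_smul, ← hb, ← hF]
    rfl

theorem lift_pow {γ : GLr r} {b : GLr s} (h : m.Lf γ b) (k : ℕ) : m.Lf (γ ^ k) (b ^ k) := by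
  induction k with
  | zero => simpa using MA.Lf.one m
  | succ k ih =>
    rw [pow_succ, pow_succ]
    exact ih.mul h

/-- `b ^ E` lifts `1`, so it is a scalar `c` with `c ^ s = 1`. -/
theorem MA.Lf.fin [NeZero s] {γ : GLr r} {b : GLr s} (h : m.Lf γ b) (hb : b.val.det = 1)
    (hγ : IsOfFinOrder γ) : IsOfFinOrder b := by
  obtain ⟨E, hE, h1⟩ := isOfFinOrder_iff_pow_eq_one.1 hγ
  have h2 := lift_pow h E
  rw [h1] at h2
  obtain ⟨c, hc⟩ := (MA.Lf.one m).unique h2
  have h3 : c ^ s = 1 := by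
    have := congrArg det hc
    rw [Units.val_pow_eq_pow_val, det_pow, hb, one_pow, det_smul, Fintype.card_fin, Units.val_one,
      det_one, mul_one] at this
    exact this.symm
  refine isOfFinOrder_iff_pow_eq_one.2 ⟨E * s, Nat.mul_pos hE (NeZero.pos s), Units.ext ?_⟩
  rw [pow_mul, Units.val_pow_eq_pow_val, hc, smul_pow, h3, one_smul, Units.val_one, one_pow]

theorem MA.Lf.prod {h : Fin n → GLr r} {b : Fin n → GLr s} (l : List (Fin n))
    (hl : ∀ a ∈ l, m.Lf (h a) (b a)) : m.Lf (l.map h).prod (l.map b).prod := by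
  induction l with
  | nil => exact MA.Lf.one m
  | cons a l ih =>
    rw [List.map_cons, List.map_cons, List.prod_cons, List.prod_cons]
    exact (hl a List.mem_cons_self).mul (ih fun x hx => hl x (List.mem_cons_of_mem _ hx))

end Pool.Agent.GR.MP
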