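import Pool.Agent.Lib.MP_aa40d3_nt.MP.Arch
import Pool.Agent.Lib.MP_aa40d3_nt.MP.Fin

/-! Some step of a long chain consists of almost isometries. -/

open Matrix NumberField
open scoped Matrix.Norms.L2Operator

namespace Pool.Agent.GR.MP

/-- A matrix of finite order has a determinant of size one. -/
theorem near_det {n : ℕ} {G : (Matrix (Fin n) (Fin n) ℂ)ˣ} (h : IsOfFinOrder G) :
    ‖G.val.det‖ = 1 := by
  obtain ⟨k, hk, h1⟩ := isOfFinOrder_iff_pow_eq_one.1 h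
  have h2 : ‖G.val.det‖ ^ k = 1 := by
    rw [← norm_pow, ← det_pow, ← Units.val_pow_eq_pow_val, h1, Units.val_one, det_one, norm_one]
  exact (pow_eq_one_iff_of_nonneg (norm_nonneg _) hk.ne').1 h2

/-- Pigeonhole on a telescoping sum. -/
theorem near_step (f : ℕ → ℝ) {L : ℕ} (hL : 0 < L) {e : ℝ} (h : f 0 - f L ≤ L * e) :
    ∃ j < L, f j - f (j + 1) ≤ e := by
  by_contra hn
  push Not at hn
  have h1 := Finset.sum_lt_sum_of_nonempty (s := Finset.range L) (f := fun _ => e)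
    (g := fun j => f j - f (j + 1)) (Finset.nonempty_range_iff.2 hL.ne')
    (fun j hj => hn j (Finset.mem_range.1 hj))
  rw [Finset.sum_range_sub', Finset.sum_const, Finset.card_range, nsmul_eq_mul] at h1
  linarith

theorem near_one {K : Type} [Field K] [NumberField K] {I : Ideal (𝓞 K)} (h : I ≠ ⊥) :
    (1 : ℝ) ≤ Ideal.absNorm I := by
  have h1 : Ideal.absNorm I ≠ 0 := fun h0 => h (Ideal.absNorm_eq_zero_iff.1 h0)
  exact_mod_cast Nat.one_le_iff_ne_zero.2 h1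

/-- Paper A5. For `j ≤ L` and `σ` take `T j σ` maximal for the image of `c.P j` under `σ`
(`arch_ex`; the determinant is not zero by `arch_low`). `Λ j = ∑ σ, 2 * log ‖det (T j σ)‖ +
log (absNorm (dId (c.P j)))` decreases in both parts and lies in an interval of length `C₀ * d`,
`d = card (K →+* ℂ)` (`arch_low`, `arch_up` with `log_absNorm` and `1 ≤ absNorm`, `fin_bound`), so
`Λ j - Λ (j + 1) ≤ C₀ / L * d` for some `j < L`. `dId (P j) = dId (P (j + 1)) * I`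
(`Ideal.dvd_iff_le`), `arch_iso`, `log_psi` with `η / 2`, `arch_inv`, `fin_lat`, `lat_int`. -/
theorem near (n : ℕ) [NeZero n] {C η : ℝ} (hC : 1 ≤ C) (hη : 0 < η) : ∃ L : ℕ,
    ∀ (K : Type) [Field K] [NumberField K] (M : ℕ) (c : Chain K n M L C),
      ∃ j < L, Nonempty (Iso (c.X j) (kv c.p) η (2 ^ n * (C * n))) := by
  have hn : (0 : ℝ) < n := Nat.cast_pos.2 (NeZero.pos n)
  have hf : (0 : ℝ) < n.factorial := Nat.cast_pos.2 n.factorial_pos
  have hl : (0 : ℝ) < ((C * n)⁻¹) ^ n := by positivity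
  obtain ⟨κ, hκ⟩ : ∃ κ : ℝ, κ = 1 + 1 / (2 * (η / 2)) := ⟨_, rfl⟩
  have hκ1 : 1 ≤ κ := by
    rw [hκ]
    exact le_add_of_nonneg_right (by positivity)
  obtain ⟨ε, hε, hεκ⟩ : ∃ ε : ℝ, 0 < ε ∧ ε * κ = η / 2 :=
    ⟨η / 2 / κ, by positivity, div_mul_cancel₀ _ (by positivity)⟩
  obtain ⟨C₀, hC₀⟩ : ∃ C₀ : ℝ, C₀ = 2 * Real.log n.factorial + Real.log (n.factorial * C ^ n) -
    2 * Real.log (((C * n)⁻¹) ^ n) := ⟨_, rfl⟩
  obtain ⟨L, hL0, hL⟩ : ∃ L : ℕ, 0 < L ∧ C₀ ≤ L * ε := by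
    obtain ⟨L, hL⟩ := exists_nat_ge (C₀ / ε)
    refine ⟨L + 1, L.succ_pos, ?_⟩
    rw [div_le_iff₀ hε] at hL
    push_cast
    linarith
  refine ⟨L, fun K _ _ M c => ?_⟩
  obtain ⟨Q, hQ⟩ : ∃ Q : ℕ → (K →+* ℂ) → Set (Fin n → ℂ),
    ∀ j σ, Q j σ = (fun b k => σ (kv b k)) '' c.P j := ⟨_, fun _ _ => rfl⟩
  have hrow : ∀ j i, c.B0 i ∈ c.P j := fun j i => c.mono (Nat.zero_le j) (c.row i)
  have hB : ∀ j (σ : K →+* ℂ) i,
      (c.B0.map (σ.comp (algebraMap (𝓞 K) K))) i ∈ Q j σ := fun j σ i => by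
    rw [hQ]
    exact ⟨c.B0 i, hrow j i, rfl⟩
  have hBd : ∀ σ : K →+* ℂ,
      (c.B0.map (σ.comp (algebraMap (𝓞 K) K))).det = σ (c.B0.det : 𝓞 K) := fun σ =>
    ((σ.comp (algebraMap (𝓞 K) K)).map_det c.B0).symm
  have hB0 : ∀ σ : K →+* ℂ, σ (c.B0.det : 𝓞 K) ≠ 0 := fun σ =>
    (map_ne_zero σ).2 (by exact_mod_cast c.det)
  choose T hT using fun j (σ : K →+* ℂ) => arch_ex (hB j σ) (by rw [hBd]; exact hB0 σ)
  have hbd : ∀ j ≤ L, ∀ σ : K →+* ℂ, ∀ b ∈ Q j σ, ∀ k, ‖b k‖ ≤ C := fun j hj σ b hb k => by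
    rw [hQ] at hb
    obtain ⟨b', hb', rfl⟩ := hb
    exact c.bd j hj b' hb' σ k
  have hlow : ∀ j ≤ L, ∀ σ, ((C * n)⁻¹) ^ n ≤ ‖(T j σ).det‖ := fun j hj σ =>
    arch_low hC (hbd j hj σ) (hT j σ)
  have hpos : ∀ j ≤ L, ∀ σ, 0 < ‖(T j σ).det‖ := fun j hj σ => hl.trans_le (hlow j hj σ)
  have hne : ∀ j, dId (c.P j) ≠ ⊥ := fun j => dId_ne (hrow j) c.det
  have hd : (0 : ℝ) ≤ Fintype.card (K →+* ℂ) := Nat.cast_nonneg _
  obtain ⟨j, hj, hstep⟩ := near_step (fun j => 2 * ∑ σ, Real.log ‖(T j σ).det‖ +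
      Real.log (Ideal.absNorm (dId (c.P j)))) hL0 (e := ε * Fintype.card (K →+* ℂ)) (by
    have e1 : ∑ σ, Real.log ‖(T 0 σ).det‖ + ∑ σ : K →+* ℂ, Real.log ‖σ (c.B0.det : 𝓞 K)‖ ≤
        Fintype.card (K →+* ℂ) * Real.log n.factorial := by
      rw [← Finset.sum_add_distrib, ← nsmul_eq_mul, ← Finset.card_univ]
      refine Finset.sum_le_card_nsmul _ _ _ fun σ _ => ?_
      have u := arch_up (hB 0 σ) (hT 0 σ).1
      have v := hpos 0 (Nat.zero_le L) σ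
      have w := norm_pos_iff.2 (hB0 σ)
      rw [hBd] at u
      rw [← Real.log_mul v.ne' w.ne']
      exact Real.log_le_log (mul_pos v w) u
    have e2 := Real.log_nonneg (near_one (I := Ideal.span {c.B0.det})
      (by rw [Ne, Ideal.span_singleton_eq_bot]; exact c.det))
    rw [log_absNorm c.det] at e2
    have e3 := fin_bound (hrow 0) c.det (c.bd 0 (Nat.zero_le L))
    have e4 : Fintype.card (K →+* ℂ) * Real.log (((C * n)⁻¹) ^ n) ≤
        ∑ σ, Real.log ‖(T L σ).det‖ := by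
      rw [← nsmul_eq_mul, ← Finset.card_univ]
      exact Finset.card_nsmul_le_sum _ _ _ fun σ _ => Real.log_le_log hl (hlow L le_rfl σ)
    have e5 := Real.log_nonneg (near_one (hne L))
    have e6 := mul_le_mul_of_nonneg_right hL hd
    rw [hC₀] at e6
    linarith)
  have hle : c.P j ⊆ c.P (j + 1) := c.mono (Nat.le_succ j)
  have hQle : ∀ σ, Q j σ ⊆ Q (j + 1) σ := fun σ => by
    rw [hQ, hQ]
    exact Set.image_mono hle
  obtain ⟨I, hI⟩ := Ideal.dvd_iff_le.2 (dId_mono hle)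
  have hI0 : I ≠ ⊥ := fun h => hne j (by rw [hI, h, Ideal.mul_bot])
  choose U hU using fun σ : K →+* ℂ => ((isUnit_iff_isUnit_det (T (j + 1) σ)).2
    (isUnit_iff_ne_zero.2 (norm_pos_iff.1 (hpos (j + 1) hj σ))) : ∃ u : (Matrix _ _ ℂ)ˣ, u.val = _)
  have hUm : ∀ σ, IsMx (Q (j + 1) σ) (U σ).val := fun σ => by
    rw [hU]
    exact hT (j + 1) σ
  have hρ : ∀ σ, 1 ≤ (‖(T j σ).det‖ / ‖(U σ).val.det‖) ^ 2 := fun σ =>
    (arch_iso (G := 1) (hQle σ) (hT j σ) (hUm σ).1 (by simp)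
      (fun b hb => by rw [Units.val_one, one_mulVec]; exact hQle σ hb)).1
  have f1 : ∑ σ, Real.log ((‖(T j σ).det‖ / ‖(U σ).val.det‖) ^ 2) =
      2 * ∑ σ, Real.log ‖(T j σ).det‖ - 2 * ∑ σ, Real.log ‖(T (j + 1) σ).det‖ := by
    rw [← mul_sub, ← Finset.sum_sub_distrib, Finset.mul_sum]
    refine Finset.sum_congr rfl fun σ _ => ?_
    rw [Real.log_pow, hU, Real.log_div (hpos j hj.le σ).ne' (hpos (j + 1) hj σ).ne']
    norm_num
  have f2 : 0 ≤ ∑ σ, Real.log ((‖(T j σ).det‖ / ‖(U σ).val.det‖) ^ 2) :=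
    Finset.sum_nonneg fun σ _ => Real.log_nonneg (hρ σ)
  have f3 : Real.log (Ideal.absNorm (dId (c.P j))) =
      Real.log (Ideal.absNorm (dId (c.P (j + 1)))) + Real.log (Ideal.absNorm I) := by
    rw [← Real.log_mul (one_pos.trans_le (near_one (hne (j + 1)))).ne'
      (one_pos.trans_le (near_one hI0)).ne', ← Nat.cast_mul, ← map_mul, ← hI]
  have f4 := Real.log_nonneg (near_one hI0)
  have f5 : ε * Fintype.card (K →+* ℂ) ≤ η * Fintype.card (K →+* ℂ) :=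
    mul_le_mul_of_nonneg_right (by nlinarith) hd
  refine ⟨j, hj, ⟨⟨I, U, fun σ => psi ((‖(T j σ).det‖ / ‖(U σ).val.det‖) ^ 2), lat (c.P (j + 1)),
    hI0, by linarith, fun σ => one_le_psi (hρ σ), ?_, fun σ i => ?_,
    fun σ => arch_inv hC (hbd (j + 1) hj σ) (hUm σ), fun σ => (hUm σ).1 _ ?_,
    Submodule.subset_span ⟨c.p, c.mono (Nat.zero_le _) c.hp, rfl⟩, fun x hx k => lat_int hx k,
    fun i a ha x hx => fin_lat hle hI (hne (j + 1)) (c.fin j hj i) (c.act j hj i) ha hx⟩⟩⟩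
  · have g1 := Finset.sum_le_sum fun σ (_ : σ ∈ Finset.univ) => log_psi (hρ σ) (half_pos hη)
    rw [Finset.sum_add_distrib, ← Finset.sum_mul, ← hκ, Finset.sum_const, Finset.card_univ,
      nsmul_eq_mul] at g1
    have g2 : (∑ σ, Real.log ((‖(T j σ).det‖ / ‖(U σ).val.det‖) ^ 2)) * κ ≤
        ε * Fintype.card (K →+* ℂ) * κ :=
      mul_le_mul_of_nonneg_right (by linarith) (by linarith)
    have g3 : ε * Fintype.card (K →+* ℂ) * κ = η / 2 * Fintype.card (K →+* ℂ) := by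
      rw [← hεκ]
      ring
    linarith
  · refine (arch_iso (G := Units.map (σ.mapMatrix (m := Fin n)).toMonoidHom (c.X j i)) (hQle σ)
      (hT j σ) (hUm σ).1 (near_det (MonoidHom.isOfFinOrder _ (c.fin j hj i))) fun b hb => ?_).2
    rw [hQ] at hb ⊢
    obtain ⟨b0, hb0, rfl⟩ := hb
    obtain ⟨b', hb', e⟩ := c.act j hj i b0 hb0
    refine ⟨b', hb', funext fun k => ?_⟩
    exact (congrArg (fun v => σ (v k)) e).symm.trans (σ.map_mulVec (c.X j i).val (kv b0) k)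
  · rw [hQ]
    exact ⟨c.p, c.mono (Nat.zero_le _) c.hp, rfl⟩

end Pool.Agent.GR.MP
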