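import Pool.Agent.Lib.MP_aa40d3_nt.MP.Tr
import Pool.Agent.Lib.MP_aa40d3_nt.MP.Near
import Pool.Agent.Lib.MP_aa40d3_nt.MP.Comm

/-! From monotone products to a chain. -/

open Matrix NumberField

namespace Pool.Agent.GR.MP

variable {s : ℕ}

theorem seta_sub {G : Type} (E : ℕ → List G) {j k : ℕ} (h : j ≤ k) :
    (Dl E j).Sublist (Dl E k) := by
  induction k, h using Nat.le_induction with
  | base => exact List.Sublist.refl _
  | succ k _ ih => exact ih.trans (List.sublist_append_right _ _)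

/-- Paper A2. `P j = {v | ∃ b ∈ Mon (Dl E (min j L)), ∀ k, ι (v k) = τ b k ∧ bounds}`; `p` stands
for `τ 1`; `X j i` descends `lam (x j i)` for `j < L` and is `1` otherwise. -/
theorem exists_chain [NeZero s] {M L : ℕ} (E : ℕ → List (Matrix (Fin s) (Fin s) ℂ)ˣ)
    (Y : List (Matrix (Fin s) (Fin s) ℂ)ˣ) (x : ℕ → Fin M → (Matrix (Fin s) (Fin s) ℂ)ˣ)
    (h0 : Spans (E 0)) (hY : Spans Y) (hx : ∀ j < L, ∀ i, x j i ∈ Mon (E (j + 1)))
    (hf : ∀ g ∈ Mon (Dl E L ++ Y), IsOfFinOrder g) :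
    ∃ (K : Type) (_ : Field K) (_ : NumberField K) (c : Chain K (s * s) M L s) (ι : K →+* ℂ)
      (τ : Matrix (Fin s) (Fin s) ℂ ≃ₗ[ℂ] (Fin (s * s) → ℂ))
      (lam : Matrix (Fin s) (Fin s) ℂ →* Matrix (Fin (s * s)) (Fin (s * s)) ℂ),
      (∀ g b, lam g *ᵥ τ b = τ (g * b)) ∧ (∀ k, ι (c.p k) = τ 1 k) ∧
        ∀ j < L, ∀ i, (c.X j i).val.map ι = lam (x j i).val := by
  classical
  obtain ⟨y, hyM, hy⟩ := hY.basis
  obtain ⟨z, hzM, hz⟩ := h0.basis
  obtain ⟨τ, lam, hτ, hlam⟩ := exists_coord hy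
  obtain ⟨K, _, _, ι, ha⟩ := exists_field (Mon.finite (Dl E L ++ Y)) hf
  choose! a ha1 ha2 using ha
  let v : (Matrix (Fin s) (Fin s) ℂ)ˣ → Fin (s * s) → 𝓞 K := fun b k => a (b * y k)
  have hv : ∀ j ≤ L, ∀ b ∈ Mon (Dl E j), (fun k => ι (v b k)) = τ b.val := by
    intro j hj b hb
    funext k
    rw [hτ, ha1 _ (Mon.mul (Mon.mono (seta_sub E hj) hb) (hyM k)), Units.val_mul]
  have hb : ∀ j ≤ L, ∀ b ∈ Mon (Dl E j), ∀ (σ : K →+* ℂ) (k : Fin (s * s)), ‖σ (v b k)‖ ≤ s :=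
    fun j hj b hb σ k => ha2 _ (Mon.mul (Mon.mono (seta_sub E hj) hb) (hyM k)) σ
  have hxm : ∀ j < L, ∀ i, ∀ b ∈ Mon (Dl E j), x j i * b ∈ Mon (Dl E (j + 1)) :=
    fun j hj i b hb => Mon.mul (hx j hj i) hb
  let B0 : Matrix (Fin (s * s)) (Fin (s * s)) (𝓞 K) := Matrix.of fun i => v (z i)
  have hz0 : ∀ i, z i ∈ Mon (Dl E 0) := hzM
  have hdetK : (B0.map (algebraMap (𝓞 K) K)).det ≠ 0 := by
    have h1 : LinearIndependent ℂ (Matrix.of fun i => τ (z i).val).row :=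
      hz.map' τ.toLinearMap τ.ker
    have h2 := (Matrix.isUnit_iff_isUnit_det _).1 (Matrix.linearIndependent_rows_iff_isUnit.1 h1)
    have h3 : (Matrix.of fun i => τ (z i).val) =
        ι.mapMatrix (B0.map (algebraMap (𝓞 K) K)) := by
      ext i k
      exact (congrFun (hv 0 (Nat.zero_le L) _ (hz0 i)) k).symm
    rw [h3, ← RingHom.map_det] at h2
    intro h
    rw [h, map_zero] at h2
    exact not_isUnit_zero h2
  have hdet : B0.det ≠ 0 := by
    intro h
    apply hdetK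
    have := RingHom.map_det (algebraMap (𝓞 K) K) B0
    rw [h, map_zero] at this
    exact this.symm
  have hX : ∀ j i, ∃ G : (Matrix (Fin (s * s)) (Fin (s * s)) K)ˣ, j < L →
      IsOfFinOrder G ∧ G.val.map ι = lam (x j i).val := by
    intro j i
    by_cases hj : j < L
    · have hfin : IsOfFinOrder (x j i) := by
        refine hf _ (Mon.mono ?_ (hx j hj i))
        exact ((List.sublist_append_left _ _).trans (seta_sub E (k := L) (j := j + 1) hj)).trans
          (List.sublist_append_left _ _)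
      obtain ⟨G, hG⟩ := exists_desc ι hdetK
        (B' := Matrix.of fun i' k => ((v (x j i * z i') k : 𝓞 K) : K))
        (g := Units.map lam (x j i)) ((Units.map lam).isOfFinOrder hfin) (fun i' => by
          have h1 := hv 0 (Nat.zero_le L) _ (hz0 i')
          have h2 := hv (j + 1) hj _ (hxm j hj i _ (Mon.mono (seta_sub E (Nat.zero_le j)) (hz0 i')))
          change lam (x j i).val *ᵥ (fun k => ι (v (z i') k)) = fun k => ι (v (x j i * z i') k)
          rw [h1, h2, hlam, Units.val_mul])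
      exact ⟨G, fun _ => hG⟩
    · exact ⟨1, fun h => absurd h hj⟩
  choose X hX using hX
  refine ⟨K, inferInstance, inferInstance,
    { P := fun j => v '' Mon (Dl E (min j L))
      X := X
      B0 := B0
      p := v 1
      mono := fun j k hjk => Set.image_mono (Mon.mono (seta_sub E (min_le_min_right L hjk)))
      bd := ?_
      row := fun i => ⟨z i, Mon.mono (seta_sub E (Nat.zero_le _)) (hz0 i), rfl⟩
      det := hdet
      hp := ⟨1, Mon.one _, rfl⟩
      fin := fun j hj i => (hX j i hj).1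
      act := ?_ }, ι, τ, lam, hlam, fun k => congrFun (hv L le_rfl 1 (Mon.one _)) k,
    fun j hj i => (hX j i hj).2⟩
  · rintro j hj _ ⟨b, hb', rfl⟩ σ k
    exact hb _ (min_le_right j L) b hb' σ k
  · rintro j hj i _ ⟨b, hb', rfl⟩
    rw [min_eq_left hj.le] at hb'
    have hm := hxm j hj i b hb'
    refine ⟨v (x j i * b), ⟨x j i * b, by rwa [min_eq_left (Nat.succ_le_of_lt hj)], rfl⟩, ?_⟩
    funext k
    apply ι.injective
    have h1 := hv j hj.le b hb'
    have h2 := congrFun (hv (j + 1) hj _ hm) k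
    rw [RingHom.map_mulVec, (hX j i hj).2]
    change (lam (x j i).val *ᵥ fun k => ι (v b k)) k = ι (v (x j i * b) k)
    rw [h1, h2, hlam, Units.val_mul]

/-- `comm_kill`, `near`, `exists_chain`; `map_cw` for `Units.map ι.mapMatrix` and `Units.map lam`;
`lam w *ᵥ τ 1 = τ 1` gives `w = 1`. -/
theorem setup (s t : ℕ) [NeZero s] : ∃ M L J : ℕ,
    ∀ (E : ℕ → List (Matrix (Fin s) (Fin s) ℂ)ˣ) (Y : List (Matrix (Fin s) (Fin s) ℂ)ˣ)
      (x : ℕ → Fin M → (Matrix (Fin s) (Fin s) ℂ)ˣ), Spans (E 0) → Spans Y →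
      (∀ j < L, ∀ i, x j i ∈ Mon (E (j + 1))) → (∀ g ∈ Mon (Dl E L ++ Y), IsOfFinOrder g) →
      ∃ j < L, ∃ T : Finset (Fin M), T.card = t ∧
        ∀ i0 ∈ T, ∀ (l : List (Fin M)) (i : Fin M), l.length = J → (∀ k ∈ l, k ∈ T) → i ∈ T →
          cw (fun k => (x j i0)⁻¹ * x j k) l i = 1 := by
  have hs : (1 : ℝ) ≤ s := Nat.one_le_cast.2 (NeZero.pos s)
  have hC : (1 : ℝ) ≤ 2 ^ (s * s) * ((s : ℝ) * ((s * s : ℕ) : ℝ)) := by
    have h1 : (1 : ℝ) ≤ ((s * s : ℕ) : ℝ) := Nat.one_le_cast.2 (NeZero.pos (s * s))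
    exact one_le_mul_of_one_le_of_one_le (one_le_pow₀ one_le_two)
      (one_le_mul_of_one_le_of_one_le hs h1)
  obtain ⟨M, J, η, hη, hk⟩ := comm_kill (s * s) t hC
  obtain ⟨L, hL⟩ := near (s * s) hs hη
  refine ⟨M, L, J, fun E Y x h0 hY hx hf => ?_⟩
  obtain ⟨K, _, _, c, ι, τ, lam, hlam, hp, hX⟩ := exists_chain E Y x h0 hY hx hf
  obtain ⟨j, hj, ⟨I⟩⟩ := hL K M c
  obtain ⟨T, hT, h⟩ := hk K (c.X j) (kv c.p) I
  refine ⟨j, hj, T, hT, fun i0 hi0 l i hl hm hi => ?_⟩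
  have h1 := h i0 hi0 l i hl hm hi
  have e : ∀ k, Units.map ι.mapMatrix.toMonoidHom (c.X j k) = Units.map lam (x j k) :=
    fun k => Units.ext (hX j hj k)
  have h2 : Units.map ι.mapMatrix.toMonoidHom (cw (fun k => (c.X j i0)⁻¹ * c.X j k) l i) =
      Units.map lam (cw (fun k => (x j i0)⁻¹ * x j k) l i) := by
    rw [map_cw, map_cw]
    simp only [map_mul, map_inv, e]
  have h3 : (cw (fun k => (c.X j i0)⁻¹ * c.X j k) l i).val.map ι =
      lam (cw (fun k => (x j i0)⁻¹ * x j k) l i).val := congrArg Units.val h2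
  have h4 : (fun k => ι (kv c.p k)) = τ 1 := funext hp
  have h5 : lam (cw (fun k => (x j i0)⁻¹ * x j k) l i).val *ᵥ τ 1 = τ 1 := by
    rw [← h3, ← h4]
    funext k
    have := RingHom.map_mulVec ι (cw (fun k => (c.X j i0)⁻¹ * c.X j k) l i).val (kv c.p) k
    rw [h1] at this
    exact this.symm
  rw [hlam, mul_one] at h5
  exact Units.ext (τ.injective h5)

end Pool.Agent.GR.MP
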