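import Pool.Agent.Lib.MP_aa40d3_nt.MP.ADef

/-! Singular values. -/

open Matrix
open scoped Matrix.Norms.L2Operator ComplexOrder

namespace Pool.Agent.GR.MP

variable {n : ℕ}

theorem one_le_psi {ρ : ℝ} (h : 1 ≤ ρ) : 1 ≤ psi ρ :=
  h.trans (le_add_of_nonneg_right (Real.sqrt_nonneg _))

/-- `psi ρ = ρ (1 + √(1 - ρ⁻²)) ≤ ρ * exp √(2 e)` with `e = log ρ`, and `√(2 e) ≤ η + e / (2 η)`. -/
theorem log_psi {ρ η : ℝ} (h : 1 ≤ ρ) (hη : 0 < η) :
    Real.log (psi ρ) ≤ η + Real.log ρ * (1 + 1 / (2 * η)) := by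
  have h0 : 0 < ρ := by linarith
  have he : 0 ≤ Real.log ρ := Real.log_nonneg h
  obtain ⟨x, hx⟩ : ∃ x, x = η + Real.log ρ * (1 / (2 * η)) := ⟨_, rfl⟩
  have hx0 : 0 ≤ x := by rw [hx]; positivity
  have h1 : 2 * Real.log ρ ≤ x ^ 2 := by
    have e : x ^ 2 - 2 * Real.log ρ = (η - Real.log ρ * (1 / (2 * η))) ^ 2 := by
      rw [hx]; field_simp; ring
    have := sq_nonneg (η - Real.log ρ * (1 / (2 * η)))
    linarith
  have h2 : 1 - (ρ ^ 2)⁻¹ ≤ 2 * Real.log ρ := by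
    have := Real.one_sub_inv_le_log_of_pos (pow_pos h0 2)
    rwa [Real.log_pow, Nat.cast_ofNat] at this
  have h3 : Real.sqrt (ρ ^ 2 - 1) ≤ ρ * x := by
    refine Real.sqrt_le_iff.2 ⟨by positivity, ?_⟩
    have e : ρ ^ 2 - 1 = ρ ^ 2 * (1 - (ρ ^ 2)⁻¹) := by field_simp
    rw [e, mul_pow]
    exact mul_le_mul_of_nonneg_left (h2.trans h1) (by positivity)
  have h4 : psi ρ ≤ ρ * (1 + x) := by
    unfold psi
    linarith
  have h5 := Real.log_le_log (by linarith [one_le_psi h]) h4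
  rw [Real.log_mul h0.ne' (by positivity)] at h5
  have h6 := Real.log_le_sub_one_of_pos (x := 1 + x) (by positivity)
  linarith

theorem spec_norm (U : unitary (Matrix (Fin n) (Fin n) ℂ)) (μ : Fin n → ℝ) {c : ℝ} (hc : 0 ≤ c)
    (h : ∀ i, |μ i| ≤ c) :
    ‖(U : Matrix (Fin n) (Fin n) ℂ) * diagonal (fun i => (μ i : ℂ)) *
      star (U : Matrix (Fin n) (Fin n) ℂ)‖ ≤ c := by
  rw [← Unitary.coe_star, CStarRing.norm_mul_coe_unitary, CStarRing.norm_coe_unitary_mul,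
    l2_opNorm_diagonal]
  exact (pi_norm_le_iff_of_nonneg hc).2 fun i => by simpa using h i

theorem spec_det (U : unitary (Matrix (Fin n) (Fin n) ℂ)) (D : Matrix (Fin n) (Fin n) ℂ) :
    ((U : Matrix (Fin n) (Fin n) ℂ) * D * star (U : Matrix (Fin n) (Fin n) ℂ)).det = D.det := by
  rw [det_mul, det_mul, mul_right_comm, ← det_mul, Unitary.mul_star_self_of_mem U.2, det_one,
    one_mul]

theorem spec_sq (T : Matrix (Fin n) (Fin n) ℂ) : (Tᴴ * T).det = ((‖T.det‖ ^ 2 : ℝ) : ℂ) := by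
  rw [det_mul, det_conjTranspose, Complex.star_def, Complex.conj_mul', Complex.ofReal_pow]

theorem spec_main {S T : Matrix (Fin n) (Fin n) ℂ}
    (hT : Tᴴ * T = (1 / 2 : ℂ) • (Sᴴ * S + 1)) :
    ∃ (U : unitary (Matrix (Fin n) (Fin n) ℂ)) (μ : Fin n → ℝ), (∀ i, 0 ≤ μ i) ∧
      Sᴴ * S = (U : Matrix (Fin n) (Fin n) ℂ) * diagonal (fun i => (μ i : ℂ)) *
        star (U : Matrix (Fin n) (Fin n) ℂ) ∧ ∏ i, μ i = ‖S.det‖ ^ 2 ∧
      ∏ i, (1 + μ i) / 2 = ‖T.det‖ ^ 2 := by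
  have hp := posSemidef_conjTranspose_mul_self S
  have h1 : Sᴴ * S = (hp.1.eigenvectorUnitary : Matrix (Fin n) (Fin n) ℂ) *
      diagonal (fun i => (hp.1.eigenvalues i : ℂ)) *
        star (hp.1.eigenvectorUnitary : Matrix (Fin n) (Fin n) ℂ) := hp.1.spectral_theorem
  refine ⟨hp.1.eigenvectorUnitary, hp.1.eigenvalues, hp.eigenvalues_nonneg, h1, ?_, ?_⟩
  · refine Complex.ofReal_injective ?_
    generalize hp.1.eigenvectorUnitary = U at h1
    generalize hp.1.eigenvalues = μ at h1 ⊢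
    rw [← spec_sq, h1, spec_det, det_diagonal, Complex.ofReal_prod]
  · refine Complex.ofReal_injective ?_
    generalize hp.1.eigenvectorUnitary = U at h1
    generalize hp.1.eigenvalues = μ at h1 ⊢
    have h2 : diagonal (fun i => (((1 + μ i) / 2 : ℝ) : ℂ)) =
        (1 / 2 : ℂ) • (diagonal (fun i => (μ i : ℂ)) + 1) := by
      rw [← diagonal_one, diagonal_add, ← diagonal_smul]
      refine congrArg diagonal (funext fun i => ?_)
      simp only [Pi.smul_apply, smul_eq_mul]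
      push_cast
      ring
    have h3 : Tᴴ * T = (U : Matrix (Fin n) (Fin n) ℂ) *
        diagonal (fun i => (((1 + μ i) / 2 : ℝ) : ℂ)) * star (U : Matrix (Fin n) (Fin n) ℂ) := by
      rw [hT, h2, h1, Matrix.mul_smul, Matrix.smul_mul, mul_add, add_mul, mul_one,
        Unitary.mul_star_self_of_mem U.2]
    rw [← spec_sq, h3, spec_det, det_diagonal, Complex.ofReal_prod]

theorem spec_psi {a ρ : ℝ} (h : 1 + a ^ 2 ≤ 2 * ρ * a) : a ≤ psi ρ := by
  have h2 : (a - ρ) ^ 2 ≤ ρ ^ 2 - 1 := by nlinarith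
  have := Real.le_sqrt_of_sq_le h2
  unfold psi
  linarith

theorem spec_le {A : Matrix (Fin n) (Fin n) ℂ} {c : ℝ} (hc : 0 ≤ c) (h : ‖Aᴴ * A‖ ≤ c ^ 2) :
    ‖A‖ ≤ c := by
  rw [l2_opNorm_conjTranspose_mul_self, ← sq] at h
  exact (pow_le_pow_iff_left₀ (norm_nonneg _) hc two_ne_zero).1 h

/-- The eigenvalues `μ i` of `Sᴴ * S` have product one and `∏ (1 + μ i) / 2 ≤ ρ`, so each
`(1 + μ i) / (2 √(μ i))` is at most `ρ`, and `√(μ i)`, `1 / √(μ i)` are at most `psi ρ`. -/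
theorem spec_one {S S' T : Matrix (Fin n) (Fin n) ℂ} (hS : S * S' = 1) (hd : ‖S.det‖ = 1)
    (hT : Tᴴ * T = (1 / 2 : ℂ) • (Sᴴ * S + 1)) {ρ : ℝ} (h1 : 1 ≤ ρ) (hρ : ‖T.det‖ ^ 2 ≤ ρ) :
    ‖S‖ ≤ psi ρ ∧ ‖S'‖ ≤ psi ρ := by
  obtain ⟨U, μ, h0, hU, h2, h3⟩ := spec_main hT
  rw [hd, one_pow] at h2
  have hpos : ∀ i, 0 < μ i := fun i => (h0 i).lt_of_ne fun e =>
    one_ne_zero (h2.symm.trans (Finset.prod_eq_zero (Finset.mem_univ i) e.symm))
  have hs : ∀ i, 0 < Real.sqrt (μ i) := fun i => Real.sqrt_pos.2 (hpos i)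
  have hq : ∀ i, Real.sqrt (μ i) ^ 2 = μ i := fun i => Real.sq_sqrt (h0 i)
  have h4 : ∏ i, Real.sqrt (μ i) = 1 := by
    have e : (∏ i, Real.sqrt (μ i)) ^ 2 = 1 := by
      rw [← Finset.prod_pow, ← h2]
      exact Finset.prod_congr rfl fun i _ => hq i
    exact (pow_eq_one_iff_of_nonneg (Finset.prod_nonneg fun i _ => (hs i).le) two_ne_zero).1 e
  have h5 : ∀ i, 1 ≤ (1 + μ i) / 2 / Real.sqrt (μ i) := fun i => by
    rw [one_le_div (hs i)]
    nlinarith [hq i, sq_nonneg (Real.sqrt (μ i) - 1)]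
  have h6 : ∀ i, 1 + μ i ≤ 2 * ρ * Real.sqrt (μ i) := fun i => by
    have e1 : (1 + μ i) / 2 / Real.sqrt (μ i) ≤ ∏ j, (1 + μ j) / 2 / Real.sqrt (μ j) := by
      rw [← Finset.mul_prod_erase _ _ (Finset.mem_univ i)]
      exact le_mul_of_one_le_right (by linarith [h5 i])
        (Finset.one_le_prod fun j _ => h5 j)
    rw [Finset.prod_div_distrib, h4, div_one, h3, div_le_iff₀ (hs i)] at e1
    nlinarith [mul_le_mul_of_nonneg_right hρ (hs i).le]
  have hψ : 0 ≤ psi ρ := by linarith [one_le_psi h1]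
  constructor
  · refine spec_le hψ ?_
    rw [hU]
    refine spec_norm U μ (by positivity) fun i => ?_
    rw [abs_of_nonneg (h0 i), ← hq i]
    exact pow_le_pow_left₀ (hs i).le (spec_psi (by rw [hq i]; exact h6 i)) 2
  · rw [← l2_opNorm_conjTranspose]
    refine spec_le hψ ?_
    have h7 : S' * S = 1 := mul_eq_one_comm.1 hS
    have h8 : S'ᴴᴴ * S'ᴴ * (Sᴴ * S) = 1 := by
      rw [conjTranspose_conjTranspose, mul_assoc, ← mul_assoc S'ᴴ, ← conjTranspose_mul, hS,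
        conjTranspose_one, one_mul, h7]
    have h9 : (Sᴴ * S) * ((U : Matrix (Fin n) (Fin n) ℂ) * diagonal (fun i => (((μ i)⁻¹ : ℝ) : ℂ)) *
        star (U : Matrix (Fin n) (Fin n) ℂ)) = 1 := by
      have e : diagonal (fun i => (μ i : ℂ)) * diagonal (fun i => (((μ i)⁻¹ : ℝ) : ℂ)) = 1 := by
        rw [diagonal_mul_diagonal, ← diagonal_one]
        refine congrArg diagonal (funext fun i => ?_)
        rw [← Complex.ofReal_mul, mul_inv_cancel₀ (hpos i).ne', Complex.ofReal_one]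
      rw [hU]
      simp only [mul_assoc]
      rw [← mul_assoc (star _), Unitary.star_mul_self_of_mem U.2, one_mul,
        ← mul_assoc (diagonal _), e, one_mul, Unitary.mul_star_self_of_mem U.2]
    rw [left_inv_eq_right_inv h8 h9]
    refine spec_norm U _ (by positivity) fun i => ?_
    rw [abs_of_nonneg (inv_nonneg.2 (h0 i)), ← hq i, ← inv_pow]
    refine pow_le_pow_left₀ (inv_nonneg.2 (hs i).le) (spec_psi ?_) 2
    have e : 1 + (Real.sqrt (μ i))⁻¹ ^ 2 = (1 + μ i) * (Real.sqrt (μ i))⁻¹ ^ 2 := by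
      have := (hs i).ne'
      field_simp
      rw [hq i, add_comm]
    have e2 : 2 * ρ * (Real.sqrt (μ i))⁻¹ = 2 * ρ * Real.sqrt (μ i) * (Real.sqrt (μ i))⁻¹ ^ 2 := by
      have := (hs i).ne'
      field_simp
    rw [e, e2]
    exact mul_le_mul_of_nonneg_right (h6 i) (sq_nonneg _)

/-- `∏ (1 + μ i) ≤ 2 ^ n`, so each `μ i ≤ 2 ^ n ≤ 4 ^ n`. -/
theorem spec_two {S T : Matrix (Fin n) (Fin n) ℂ}
    (hT : Tᴴ * T = (1 / 2 : ℂ) • (Sᴴ * S + 1)) (hρ : ‖T.det‖ ≤ 1) : ‖S‖ ≤ 2 ^ n := by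
  obtain ⟨U, μ, h0, hU, -, h3⟩ := spec_main hT
  refine spec_le (by positivity) ?_
  rw [hU]
  refine spec_norm U μ (by positivity) fun i => ?_
  have h4 : 1 + μ i ≤ ∏ j, (1 + μ j) := by
    rw [← Finset.mul_prod_erase _ _ (Finset.mem_univ i)]
    exact le_mul_of_one_le_right (by linarith [h0 i])
      (Finset.one_le_prod fun j _ => by linarith [h0 j])
  rw [Finset.prod_div_distrib, Finset.prod_const, Finset.card_univ, Fintype.card_fin,
    div_eq_iff (by positivity)] at h3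
  have h5 : ‖T.det‖ ^ 2 ≤ 1 := pow_le_one₀ (norm_nonneg _) hρ
  have h6 : (1 : ℝ) ≤ 2 ^ n := one_le_pow₀ one_le_two
  rw [abs_of_nonneg (h0 i)]
  nlinarith

end Pool.Agent.GR.MP
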