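import Pool.Agent.Lib.MP_aa40d3_nt.MR.Stmt

/-! Tensor factors and multiplicities of exponents. -/

open Polynomial Matrix

namespace Pool.Agent.GR.MP

variable {n r : ℕ}

/-- The system has a tensor factor of rank `s`: a module of polynomial matrices of rank `s ^ 2`
that is stable under the connection induced on endomorphisms and closed under products. -/
def Fac (t : Fin n → ℂ) (A : Fin n → Matrix (Fin r) (Fin r) ℂ) (s : ℕ) : Prop :=
  ∃ W : Submodule ℂ[X] (Matrix (Fin r) (Fin r) ℂ[X]),
    (∀ Φ ∈ W, dl t • Φ.map derivative - (pm t A * Φ - Φ * pm t A) ∈ W) ∧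
      (∀ Φ ∈ W, ∀ Ψ ∈ W, Φ * Ψ ∈ W) ∧ Module.finrank ℂ[X] W = s ^ 2

open Classical in
/-- The number of eigenvalues of `A`, with multiplicity, in the class `lam + ℤ`. -/
noncomputable def mult (A : Matrix (Fin r) (Fin r) ℂ) (lam : ℂ) : ℕ :=
  A.charpoly.roots.countP fun mu => ∃ z : ℤ, mu = lam + z

end Pool.Agent.GR.MP
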