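import Pool.Agent.Lib.MP_aa40d3_nt.MP.ADef

/-! Traces of matrices of finite order; coordinates. -/

open Matrix NumberField

namespace Pool.Agent.GR.MP

variable {s : ℕ}

theorem tra_exp {G : Type} [Monoid G] {S : Set G} (hS : S.Finite) (h : ∀ x ∈ S, IsOfFinOrder x) :
    ∃ e : ℕ, 0 < e ∧ ∀ x ∈ S, x ^ e = 1 := by
  refine ⟨∏ x ∈ hS.toFinset, orderOf x,
    Finset.prod_pos fun x hx => (h x (hS.mem_toFinset.1 hx)).orderOf_pos, fun x hx => ?_⟩
  exact orderOf_dvd_iff_pow_eq_one.1 (Finset.dvd_prod_of_mem _ (hS.mem_toFinset.2 hx))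

theorem tra_root {A : Matrix (Fin s) (Fin s) ℂ} {e : ℕ} (h : A ^ e = 1) {z : ℂ}
    (hz : z ∈ A.charpoly.roots) : z ^ e = 1 := by
  have h1 : z ∈ spectrum ℂ A :=
    Matrix.mem_spectrum_iff_isRoot_charpoly.2 (Polynomial.isRoot_of_mem_roots hz)
  have h2 := spectrum.pow_mem_pow A e h1
  rw [h, spectrum.mem_iff] at h2
  by_contra hne
  refine h2 ?_
  rw [← map_one (algebraMap ℂ (Matrix (Fin s) (Fin s) ℂ)), ← map_sub]
  exact (sub_ne_zero.2 hne).isUnit.map _

theorem tra_sum {K : Type} [Field K] (ι : K →+* ℂ) (ζ : 𝓞 K) (hζ : ∀ σ : K →+* ℂ, ‖σ ζ‖ = 1)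
    (m : Multiset ℂ) (h : ∀ z ∈ m, ∃ j : ℕ, ι ζ ^ j = z) :
    ∃ a : 𝓞 K, ι a = m.sum ∧ ∀ σ : K →+* ℂ, ‖σ a‖ ≤ m.card := by
  induction m using Multiset.induction_on with
  | empty => exact ⟨0, by simp, fun σ => by simp⟩
  | cons z m ih =>
    obtain ⟨a, ha, ha'⟩ := ih fun w hw => h w (Multiset.mem_cons_of_mem hw)
    obtain ⟨j, hj⟩ := h z (Multiset.mem_cons_self z m)
    have e : ∀ σ : K →+* ℂ, σ ((ζ ^ j + a : 𝓞 K) : K) = σ ζ ^ j + σ a := fun σ => by
      simp only [map_add, map_pow]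
    refine ⟨ζ ^ j + a, by rw [e, hj, ha, Multiset.sum_cons], fun σ => ?_⟩
    rw [e, Multiset.card_cons]
    refine (norm_add_le _ _).trans ?_
    rw [norm_pow, hζ, one_pow]
    push_cast
    linarith [ha' σ]

/-- A common exponent `e`, `K = CyclotomicField e ℚ` (or `ℚ⟮ζ⟯`); the trace is the sum of the `s`
roots of the characteristic polynomial, which are `e`-th roots of unity. -/
theorem exists_field {S : Set (Matrix (Fin s) (Fin s) ℂ)ˣ} (hS : S.Finite)
    (h : ∀ x ∈ S, IsOfFinOrder x) : ∃ (K : Type) (_ : Field K) (_ : NumberField K) (ι : K →+* ℂ),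
      ∀ x ∈ S, ∃ a : 𝓞 K, ι a = x.val.trace ∧ ∀ σ : K →+* ℂ, ‖σ a‖ ≤ s := by
  obtain ⟨e, he, hx⟩ := tra_exp hS h
  have : NeZero e := ⟨he.ne'⟩
  have hζ := Complex.isPrimitiveRoot_exp e he.ne'
  generalize Complex.exp _ = ζ at hζ
  have hint : IsIntegral ℚ ζ := IsIntegral.of_pow he (by rw [hζ.pow_eq_one]; exact isIntegral_one)
  let K := IntermediateField.adjoin ℚ {ζ}
  have hK : NumberField K :=
    { to_charZero := inferInstance
      to_finiteDimensional := IntermediateField.adjoin.finiteDimensional hint }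
  let ζ₁ : K := ⟨ζ, IntermediateField.mem_adjoin_simple_self ℚ ζ⟩
  have h0 : ζ₁ ^ e = 1 := Subtype.ext hζ.pow_eq_one
  refine ⟨K, inferInstance, hK, algebraMap K ℂ, fun x hxS => ?_⟩
  have h1 : x.val ^ e = 1 := by rw [← Units.val_pow_eq_pow_val, hx x hxS, Units.val_one]
  obtain ⟨a, ha, ha'⟩ := tra_sum (algebraMap K ℂ)
    ⟨ζ₁, IsIntegral.of_pow he (by rw [h0]; exact isIntegral_one)⟩
    (fun σ => Complex.norm_eq_one_of_pow_eq_one
      (show σ ζ₁ ^ e = 1 by rw [← map_pow, h0, map_one]) he.ne')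
    x.val.charpoly.roots fun z hz => by
      obtain ⟨j, -, hj⟩ := hζ.eq_pow_of_pow_eq_one (tra_root h1 hz)
      exact ⟨j, hj⟩
  refine ⟨a, by rw [ha, Matrix.trace_eq_sum_roots_charpoly], fun σ => (ha' σ).trans ?_⟩
  have h2 := Polynomial.card_roots' x.val.charpoly
  rw [Matrix.charpoly_natDegree_eq_dim, Fintype.card_fin] at h2
  exact_mod_cast h2

/-- A spanning set contains a basis, indexed by `Fin (s * s)`. -/
theorem Spans.basis {L : List (Matrix (Fin s) (Fin s) ℂ)ˣ} (h : Spans L) :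
    ∃ y : Fin (s * s) → (Matrix (Fin s) (Fin s) ℂ)ˣ, (∀ k, y k ∈ Mon L) ∧
      LinearIndependent ℂ fun k => (y k).val := by
  classical
  obtain ⟨b, hb, hsp, hli⟩ := exists_linearIndependent ℂ (Units.val '' Mon L)
  have hfin : Finite b := hli.finite_of_isNoetherian
  let _ : Fintype b := Fintype.ofFinite b
  have hcard : Fintype.card b = s * s := by
    rw [← finrank_span_eq_card hli, Subtype.range_coe, hsp, h, finrank_top, Module.finrank_matrix]
    simp
  let e : Fin (s * s) ≃ b := (Fintype.equivFinOfCardEq hcard).symm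
  have hch : ∀ k, ∃ u : (Matrix (Fin s) (Fin s) ℂ)ˣ, u ∈ Mon L ∧ u.val = (e k).val :=
    fun k => hb (e k).property
  choose y hy hy' using hch
  refine ⟨y, hy, ?_⟩
  have : (fun k => (y k).val) = ((↑) : b → Matrix (Fin s) (Fin s) ℂ) ∘ e := by
    funext k
    exact hy' k
  rw [this]
  exact hli.comp e e.injective

/-- The trace form is nondegenerate, so `τ b = (trace (b * y k))ₖ` is a linear isomorphism;
`lam g` is the matrix of left multiplication by `g`. -/
theorem exists_coord {y : Fin (s * s) → Matrix (Fin s) (Fin s) ℂ} (hy : LinearIndependent ℂ y) :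
    ∃ (τ : Matrix (Fin s) (Fin s) ℂ ≃ₗ[ℂ] (Fin (s * s) → ℂ))
      (lam : Matrix (Fin s) (Fin s) ℂ →* Matrix (Fin (s * s)) (Fin (s * s)) ℂ),
      (∀ b k, τ b k = (b * y k).trace) ∧ ∀ g b, lam g *ᵥ τ b = τ (g * b) := by
  classical
  have hdim : Module.finrank ℂ (Matrix (Fin s) (Fin s) ℂ) = s * s := by
    rw [Module.finrank_matrix]
    simp
  have hsp : Submodule.span ℂ (Set.range y) = ⊤ :=
    hy.span_eq_top_of_card_eq_finrank' (by rw [hdim]; simp)
  let t : Matrix (Fin s) (Fin s) ℂ →ₗ[ℂ] (Fin (s * s) → ℂ) :=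
    { toFun := fun b k => (b * y k).trace
      map_add' := fun a b => by
        funext k
        simp [Matrix.add_mul]
      map_smul' := fun c a => by
        funext k
        simp }
  have hinj : Function.Injective t := by
    rw [injective_iff_map_eq_zero]
    intro b hb
    rw [Matrix.ext_iff_trace_mul_right]
    intro x
    have hx : x ∈ Submodule.span ℂ (Set.range y) := hsp ▸ Submodule.mem_top
    rw [Matrix.zero_mul, Matrix.trace_zero]
    induction hx using Submodule.span_induction with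
    | mem x hx =>
      obtain ⟨k, rfl⟩ := hx
      exact congrFun hb k
    | zero => simp
    | add x z _ _ hx hz => rw [Matrix.mul_add, Matrix.trace_add, hx, hz, add_zero]
    | smul c x _ hx => rw [Matrix.mul_smul, Matrix.trace_smul, hx, smul_zero]
  let τ : Matrix (Fin s) (Fin s) ℂ ≃ₗ[ℂ] (Fin (s * s) → ℂ) :=
    t.linearEquivOfInjective hinj (by rw [hdim]; simp)
  let f : Matrix (Fin s) (Fin s) ℂ → Matrix (Fin (s * s)) (Fin (s * s)) ℂ := fun g =>
    LinearMap.toMatrix' (τ.toLinearMap ∘ₗ LinearMap.mulLeft ℂ g ∘ₗ τ.symm.toLinearMap)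
  have hf : ∀ g v, f g *ᵥ v = τ (g * τ.symm v) := by
    intro g v
    simp [f]
  have hext : ∀ A B : Matrix (Fin (s * s)) (Fin (s * s)) ℂ, (∀ v, A *ᵥ v = B *ᵥ v) → A = B := by
    intro A B hAB
    apply Matrix.toLin'.injective
    refine LinearMap.ext fun v => ?_
    simpa using hAB v
  refine ⟨τ, ⟨⟨f, hext _ _ fun v => ?_⟩, fun a b => hext _ _ fun v => ?_⟩, fun b k => rfl,
    fun g b => ?_⟩
  · rw [hf, Matrix.one_mul, Matrix.one_mulVec, LinearEquiv.apply_symm_apply]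
  · show f (a * b) *ᵥ v = (f a * f b) *ᵥ v
    rw [← Matrix.mulVec_mulVec, hf, hf, hf, LinearEquiv.symm_apply_apply, Matrix.mul_assoc]
  · show f g *ᵥ τ b = _
    rw [hf, LinearEquiv.symm_apply_apply]

/-- Descent of a matrix: `G = B'ᵀ * (Bᵀ)⁻¹` over `K`; it has finite order because `ι` is injective. -/
theorem exists_desc {n : ℕ} {K : Type} [Field K] (ι : K →+* ℂ) {B B' : Matrix (Fin n) (Fin n) K}
    (hB : B.det ≠ 0) {g : (Matrix (Fin n) (Fin n) ℂ)ˣ} (hg : IsOfFinOrder g)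
    (h : ∀ i, (g.val *ᵥ fun k => ι (B i k)) = fun k => ι (B' i k)) :
    ∃ G : (Matrix (Fin n) (Fin n) K)ˣ, IsOfFinOrder G ∧ G.val.map ι = g.val := by
  classical
  have hBt : IsUnit (Bᵀ).det := by
    rw [Matrix.det_transpose]
    exact isUnit_iff_ne_zero.mpr hB
  have h1 : g.val * (Bᵀ).map ι = (B'ᵀ).map ι := by
    ext k i
    have := congrFun (h i) k
    simpa [Matrix.mul_apply, Matrix.mulVec, dotProduct] using this
  have h2 : (B'ᵀ * (Bᵀ)⁻¹).map ι = g.val := by
    rw [Matrix.map_mul, ← h1, Matrix.mul_assoc, ← Matrix.map_mul, Matrix.mul_nonsing_inv _ hBt,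
      Matrix.map_one _ (map_zero ι) (map_one ι), Matrix.mul_one]
  have hinj : Function.Injective (ι.mapMatrix : Matrix (Fin n) (Fin n) K →+* _) := by
    intro A C hAC
    ext i j
    apply ι.injective
    exact congrFun (congrFun hAC i) j
  obtain ⟨m, hm, hgm⟩ := isOfFinOrder_iff_pow_eq_one.mp hg
  have h3 : (B'ᵀ * (Bᵀ)⁻¹) ^ m = 1 := by
    apply hinj
    rw [map_pow, map_one, RingHom.mapMatrix_apply, h2, ← Units.val_pow_eq_pow_val, hgm,
      Units.val_one]
  refine ⟨Units.ofPowEqOne _ m h3 hm.ne', ?_, h2⟩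
  exact isOfFinOrder_iff_pow_eq_one.mpr ⟨m, hm, Units.pow_ofPowEqOne h3 hm.ne'⟩

end Pool.Agent.GR.MP
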